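import Pool.Agent.WAE.St
import Pool.Agent.TJ2.DOM

/-!
# Block WAE, module DOX: dominated objects
-/

open CategoryTheory MonoidalCategory BraidedCategory Limits Polynomial

universe w v u

namespace Pool.Agent.WAE

open Pool.Agent.TJ2 Pool.Agent.WAV

section DOXaux

variable {C : Type u} [Category.{v} C] [Preadditive C]

lemma DOX_trans (P : C → Prop) (Z : C) (h : Dom (Dom P) Z) : Dom P Z := by
  obtain ⟨κ, instκ, Y, i, p, hY, e⟩ := h
  choose l inst Y2 i2 p2 hP2 e2 using hY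
  refine ⟨(k : κ) × l k, inferInstance, fun x => Y2 x.1 x.2,
    fun x => i x.1 ≫ i2 x.1 x.2, fun x => p2 x.1 x.2 ≫ p x.1, fun x => hP2 x.1 x.2, ?_⟩
  rw [Fintype.sum_sigma, ← e]
  refine Finset.sum_congr rfl fun k _ => ?_
  have h4 : ∀ a ∈ (Finset.univ : Finset (l k)), (i k ≫ i2 k a) ≫ (p2 k a ≫ p k) =
      i k ≫ (i2 k a ≫ p2 k a) ≫ p k := fun a _ => by simp only [Category.assoc]
  rw [Finset.sum_congr rfl h4, ← Preadditive.comp_sum, ← Preadditive.sum_comp, e2 k,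
    Category.id_comp]

variable [MonoidalCategory C] [MonoidalPreadditive C]

lemma DOX_tensor (P : C → Prop) (h : ∀ X Y, P X → P Y → Dom P (X ⊗ Y)) (X Y : C)
    (hX : Dom P X) (hY : Dom P Y) : Dom P (X ⊗ Y) := by
  apply DOX_trans
  obtain ⟨κ, _, Y1, i1, p1, hP1, e1⟩ := hX
  obtain ⟨l, _, Y2, i2, p2, hP2, e2⟩ := hY
  refine ⟨κ × l, inferInstance, fun k => Y1 k.1 ⊗ Y2 k.2, fun k => i1 k.1 ⊗ₘ i2 k.2,
    fun k => p1 k.1 ⊗ₘ p2 k.2, fun k => h _ _ (hP1 k.1) (hP2 k.2), ?_⟩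
  rw [Fintype.sum_prod_type]
  have h3 : ∀ a ∈ (Finset.univ : Finset κ), ∑ b : l, (i1 a ⊗ₘ i2 b) ≫ (p1 a ⊗ₘ p2 b) =
      (i1 a ≫ p1 a) ⊗ₘ 𝟙 Y := by
    intro a _
    rw [← e2, tensor_sum]
    refine Finset.sum_congr rfl fun b _ => ?_
    rw [MonoidalCategory.tensorHom_comp_tensorHom]
  rw [Finset.sum_congr rfl h3, ← sum_tensor, e1, MonoidalCategory.id_tensorHom_id]

lemma DOX_dual [RightRigidCategory C] (P : C → Prop) (h : ∀ X, P X → Dom P Xᘁ) (X : C)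
    (hX : Dom P X) : Dom P Xᘁ := by
  apply DOX_trans
  obtain ⟨κ, _, Y1, i1, p1, hP1, e1⟩ := hX
  refine ⟨κ, inferInstance, fun k => (Y1 k)ᘁ, fun k => rightAdjointMate (p1 k),
    fun k => rightAdjointMate (i1 k), fun k => h _ (hP1 k), ?_⟩
  have h3 : ∀ a ∈ (Finset.univ : Finset κ), rightAdjointMate (p1 a) ≫ rightAdjointMate (i1 a) =
      rightAdjointMate (i1 a ≫ p1 a) := fun a _ => comp_rightAdjointMate.symm
  rw [Finset.sum_congr rfl h3, ← DOM_mate_sum, e1, rightAdjointMate_id]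

end DOXaux

theorem t_DOX : S_DOX := by
  intro C _ _ _ _ _ _ _ _ P
  refine ⟨DOX_trans P, DOX_tensor P, ?_⟩
  intro P₀ hU hT hD hP Z hZ
  exact DOX_trans P Z (t_DOM C P₀ (Dom P) hU (DOX_tensor P hT) (DOX_dual P hD) hP Z hZ)

end Pool.Agent.WAE
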