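import Pool.Agent.WAE.St
import Pool.Agent.WAV.FAC

/-!
# Module FAX (MP_cb388a_ag): morphisms fixed by Frobenius factor through the unit, for words whose last
factor is an object on which a power of Frobenius is a power of `q`
-/

open CategoryTheory MonoidalCategory BraidedCategory Polynomial

universe w v u

namespace Pool.Agent.WAE

open Pool.Agent.TJ2 Pool.Agent.WAV

noncomputable section

set_option linter.unusedSectionVars false

section

variable {C : Type u} [Category.{v} C] [Preadditive C] [Linear ℚ C] [MonoidalCategory C]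
  [SymmetricCategory C] [MonoidalPreadditive C] [MonoidalLinear ℚ C] [RightRigidCategory C]

/-! ## The product of the operators -/

private def FAX_rc (X Z : C) : End Z →* Module.End ℚ (X ⟶ Z) where
  toFun o := Linear.rightComp ℚ X (show Z ⟶ Z from o)
  map_one' := by
    ext f
    exact Category.comp_id f
  map_mul' a b := by
    ext f
    exact (Category.assoc f b a).symm

private def FAX_wh (Y Z : C) : End Z →* End (Y ⊗ Z) where
  toFun o := Y ◁ (show Z ⟶ Z from o)
  map_one' := MonoidalCategory.whiskerLeft_id Y Z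
  map_mul' a b := MonoidalCategory.whiskerLeft_comp Y b a

private theorem FAX_ofFn {A B : Type*} [Monoid A] [Monoid B] (φ : A →* B) (n : ℕ) (o : Fin n → A) :
    (List.ofFn (fun i => φ (o i))).prod = φ (List.ofFn o).prod := by
  rw [map_list_prod, List.map_ofFn]
  rfl

private def FAX_o (F : 𝟭 C ⟶ 𝟭 C) (M : ℤ[X] → C) (U : C) (l : List ℤ[X]) (i : ℕ) :
    End (Zo M U l) := opZ F M U l i

private def FAX_E (F : 𝟭 C ⟶ 𝟭 C) (M : ℤ[X] → C) (U : C) (l : List ℤ[X]) : End (Zo M U l) :=
  (List.ofFn (fun i : Fin l.length => FAX_o F M U l (i : ℕ))).prod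

private theorem FAX_cons (F : 𝟭 C ⟶ 𝟭 C) (M : ℤ[X] → C) (U : C) (h : ℤ[X]) (l : List ℤ[X]) :
    (FAX_E F M U (h :: l) : Zo M U (h :: l) ⟶ Zo M U (h :: l)) =
      (M h ◁ (FAX_E F M U l : Zo M U l ⟶ Zo M U l)) ≫ (F.app (M h) ▷ Zo M U l) := by
  have h1 : FAX_E F M U (h :: l) = FAX_o F M U (h :: l) 0 *
      (List.ofFn (fun i : Fin l.length => FAX_o F M U (h :: l) ((i : ℕ) + 1))).prod := by
    unfold FAX_E
    have e1 : List.ofFn (fun i : Fin (h :: l).length => FAX_o F M U (h :: l) (i : ℕ)) =
        List.ofFn (fun i : Fin (l.length + 1) => FAX_o F M U (h :: l) (i : ℕ)) := rfl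
    rw [e1, List.ofFn_succ, List.prod_cons]
    rfl
  have h2 : (List.ofFn (fun i : Fin l.length => FAX_o F M U (h :: l) ((i : ℕ) + 1))).prod =
      FAX_wh (M h) (Zo M U l) (FAX_E F M U l) := by
    unfold FAX_E
    rw [← FAX_ofFn]
    rfl
  rw [h1, h2]
  rfl

/-- the Frobenius of a word is the product of all operators -/
private theorem FAX_key (W : MotP.Frobenius C) (M : ℤ[X] → C) (U : C) : ∀ l : List ℤ[X],
    W.F.app (Zo M U l) = opU W.F M U l ≫ (FAX_E W.F M U l : Zo M U l ⟶ Zo M U l)
  | [] => by
    have h0 : FAX_E W.F M U [] = 𝟙 U := by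
      unfold FAX_E
      rfl
    rw [h0]
    exact (Category.comp_id _).symm
  | h :: l => by
    rw [FAX_cons]
    have h1 : W.F.app (Zo M U (h :: l)) = W.F.app (M h) ⊗ₘ W.F.app (Zo M U l) :=
      W.F_tensor (M h) (Zo M U l)
    rw [h1, FAX_key W M U l, MonoidalCategory.tensorHom_def', MonoidalCategory.whiskerLeft_comp]
    exact Category.assoc _ _ _

/-- the product of the operators fixes the morphisms fixed by Frobenius -/
private lemma FAX_prd (W : MotP.Frobenius C) (M : ℤ[X] → C) (U : C) (l : List ℤ[X]) (A : C)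
    (f : A ⟶ Zo M U l) (hf : f ≫ W.F.app (Zo M U l) = f) :
    ((List.ofFn (fun i : Fin l.length =>
      (Linear.rightComp ℚ A (opZ W.F M U l (i : ℕ)) : Module.End ℚ (A ⟶ Zo M U l)))).prod *
      (Linear.rightComp ℚ A (opU W.F M U l) : Module.End ℚ (A ⟶ Zo M U l))) f = f := by
  have h1 : (List.ofFn (fun i : Fin l.length =>
      (Linear.rightComp ℚ A (opZ W.F M U l (i : ℕ)) : Module.End ℚ (A ⟶ Zo M U l)))).prod =
      FAX_rc A (Zo M U l) (FAX_E W.F M U l) := by
    unfold FAX_E
    rw [← FAX_ofFn]
    rfl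
  rw [h1, Module.End.mul_apply]
  have h2 : FAX_rc A (Zo M U l) (FAX_E W.F M U l)
      ((Linear.rightComp ℚ A (opU W.F M U l) : Module.End ℚ (A ⟶ Zo M U l)) f) =
      (f ≫ opU W.F M U l) ≫ (FAX_E W.F M U l : Zo M U l ⟶ Zo M U l) := rfl
  rw [h2, Category.assoc, ← FAX_key, hf]

private lemma FAX_com (F : 𝟭 C ⟶ 𝟭 C) (M : ℤ[X] → C) (U : C) : ∀ (l : List ℤ[X]) (i : ℕ),
    opU F M U l ≫ opZ F M U l i = opZ F M U l i ≫ opU F M U l
  | [], i => by
    change F.app U ≫ 𝟙 U = 𝟙 U ≫ F.app U
    exact (Category.comp_id _).trans (Category.id_comp _).symm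
  | h :: l, 0 => whisker_exchange (F.app (M h)) (opU F M U l)
  | h :: l, i + 1 => by
    change M h ◁ opU F M U l ≫ M h ◁ opZ F M U l i = M h ◁ opZ F M U l i ≫ M h ◁ opU F M U l
    rw [← MonoidalCategory.whiskerLeft_comp, ← MonoidalCategory.whiskerLeft_comp,
      FAX_com F M U l i]

private lemma FAX_kill (F : 𝟭 C ⟶ 𝟭 C) (M : ℤ[X] → C) (U : C) (P : ℚ[X])
    (hP : aeval (Mot.component F U) P = 0) : ∀ l : List ℤ[X],
    aeval (show End (Zo M U l) from opU F M U l) P = 0
  | [] => hP
  | h :: l => by
    have h0 := FAX_kill F M U P hP l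
    have h1 := Polynomial.aeval_algHom_apply (PLZ_left (M h) (Zo M U l))
      (show End (Zo M U l) from opU F M U l) P
    rw [h0, map_zero] at h1
    exact h1

end

theorem t_FAX (hKEX : S_KEX.{v, u}) : S_FAX.{v, u} := by
  have hWEI : S_WEI := t_WEI t_OMB
  have hDXY : S_DXY := t_DXY t_OMB hWEI
  intro C _ _ _ _ _ _ _ _ W q S S₀ D PU hq hS hS0 hind hPq hPF hPT
  have key : ∀ n : ℕ, ∀ l : List ℤ[X], l.length = n → ∀ U : C, PU U → (∀ h ∈ l, h ∈ S₀) →
      Fac W (Zo D.M U l) := by
    intro n
    induction n using Nat.strong_induction_on with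
    | _ n ih =>
    intro l hln U hU hl
    obtain ⟨N, hN, k, hk⟩ := hPq U hU
    rcases l with _ | ⟨h, l⟩
    · exact hPF U hU
    · -- the inductive step
      have hhS0 : h ∈ S₀ := hl h List.mem_cons_self
      have hFO : ∀ x ∈ h :: l, x ∈ FO q := fun x hx => hS (hS0 (hl x hx))
      have hfo := hFO h List.mem_cons_self
      have hq1 : 1 ≤ q := by omega
      have hq0 : (q : ℚ) ≠ 0 := by
        have : q ≠ 0 := by omega
        exact_mod_cast this
      have hmo : ∀ x ∈ h :: l, x.Monic := fun x hx => (hFO x hx).2.1.1.1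
      obtain ⟨E, hE⟩ := hDXY q h hq1 (hmo h List.mem_cons_self) hfo.2.2
      obtain ⟨m', s, r, hsr⟩ := hKEX C W q S D h E hq1 (hS0 hhS0) hfo.1
        (hmo h List.mem_cons_self) hfo.2.2 (fun a ha b hb hab => by rw [hE a ha b hb, if_pos hab])
        (fun a ha b hb hab => by rw [hE a ha b hb, if_neg hab])
      intro A f hf
      have hget : ∀ i : Fin (l.length + 1), (h :: l)[(i : ℕ)]'i.isLt ∈ h :: l :=
        fun i => List.getElem_mem _
      let φ₀ : Fin (l.length + 1) → Module.End ℚ (A ⟶ Zo D.M U (h :: l)) := fun i =>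
        (Linear.rightComp ℚ A (opZ W.F D.M U (h :: l) (i : ℕ)))
      let φU : Module.End ℚ (A ⟶ Zo D.M U (h :: l)) :=
        Linear.rightComp ℚ A (opU W.F D.M U (h :: l))
      let P₀ : Fin (l.length + 1) → ℚ[X] := fun i =>
        (weil q ((h :: l)[(i : ℕ)]'i.isLt)).map (Int.castRingHom ℚ)
      let PN : ℚ[X] := X ^ N - Polynomial.C ((q : ℚ) ^ k)
      let φ : Fin (l.length + 1 + 1) → Module.End ℚ (A ⟶ Zo D.M U (h :: l)) :=
        Fin.snoc (α := fun _ => Module.End ℚ (A ⟶ Zo D.M U (h :: l))) φ₀ φU
      let P : Fin (l.length + 1 + 1) → ℚ[X] := Fin.snoc (α := fun _ => ℚ[X]) P₀ PN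
      have hφ1 : ∀ i : Fin (l.length + 1), φ i.castSucc = φ₀ i := fun i => Fin.snoc_castSucc _ _ _
      have hφ2 : φ (Fin.last _) = φU := Fin.snoc_last _ _
      have hP1 : ∀ i : Fin (l.length + 1), P i.castSucc = P₀ i := fun i => Fin.snoc_castSucc _ _ _
      have hP2 : P (Fin.last _) = PN := Fin.snoc_last _ _
      have hqk : (q : ℚ) ^ k ≠ 0 := zpow_ne_zero k hq0
      have hJ : ∀ j : Fin (l.length + 1), j ∈ (Finset.univ.filter (fun j : Fin (l.length + 1) =>
          ∃ hj : (j : ℕ) < l.length, l[(j : ℕ)] = h)) ↔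
          ∃ hj : (j : ℕ) < l.length, l[(j : ℕ)] = h := fun j => by
        rw [Finset.mem_filter]
        exact ⟨fun hh => hh.2, fun hh => ⟨Finset.mem_univ _, hh⟩⟩
      have hcommZ : ∀ i j : ℕ, Commute
          (Linear.rightComp ℚ A (opZ W.F D.M U (h :: l) i) : Module.End ℚ (A ⟶ Zo D.M U (h :: l)))
          (Linear.rightComp ℚ A (opZ W.F D.M U (h :: l) j)) := by
        intro i j
        apply LinearMap.ext
        intro x
        change (x ≫ opZ W.F D.M U (h :: l) j) ≫ opZ W.F D.M U (h :: l) i =
          (x ≫ opZ W.F D.M U (h :: l) i) ≫ opZ W.F D.M U (h :: l) j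
        rw [Category.assoc, Category.assoc, t_COM C W.F D.M U (h :: l) j i]
      have hcommU : ∀ i : ℕ, Commute
          (Linear.rightComp ℚ A (opZ W.F D.M U (h :: l) i) : Module.End ℚ (A ⟶ Zo D.M U (h :: l)))
          φU := by
        intro i
        apply LinearMap.ext
        intro x
        change (x ≫ opU W.F D.M U (h :: l)) ≫ opZ W.F D.M U (h :: l) i =
          (x ≫ opZ W.F D.M U (h :: l) i) ≫ opU W.F D.M U (h :: l)
        rw [Category.assoc, Category.assoc, FAX_com]
      apply FAC_alg t_ALG (thru (𝟙_ C) A (Zo D.M U (h :: l))) (l.length + 1) φ P 1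
        (Finset.univ.filter (fun j : Fin (l.length + 1) =>
          ∃ hj : (j : ℕ) < l.length, l[(j : ℕ)] = h)) (2 * h.natDegree) E f
      · intro i
        refine Fin.lastCases ?_ (fun i => ?_) i
        · intro v hv
          rw [hφ2]
          exact FAC_post _ v hv
        · intro v hv
          rw [hφ1]
          exact FAC_post _ v hv
      · intro i j
        refine Fin.lastCases ?_ (fun i => ?_) i
        · refine Fin.lastCases ?_ (fun j => ?_) j
          · exact Commute.refl _
          · rw [hφ1, hφ2]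
            exact (hcommU j).symm
        · refine Fin.lastCases ?_ (fun j => ?_) j
          · rw [hφ1, hφ2]
            exact hcommU i
          · rw [hφ1, hφ1]
            exact hcommZ i j
      · intro i
        refine Fin.lastCases ?_ (fun i => ?_) i
        · rw [hP2]
          exact (Polynomial.separable_X_pow_sub_C _ (by exact_mod_cast (by omega : N ≠ 0))
            hqk).squarefree
        · rw [hP1]
          exact ((hWEI q _ hq1 (hmo _ (hget i))).2.2.2 (hFO _ (hget i)).2.2).1
      · intro i
        refine Fin.lastCases ?_ (fun i => ?_) i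
        · rw [hP2, hφ2]
          have e0 : aeval (Mot.component W.F U) PN = 0 := by
            change aeval (Mot.component W.F U) (X ^ N - Polynomial.C ((q : ℚ) ^ k)) = 0
            rw [map_sub, map_pow, aeval_X, aeval_C, hk, Algebra.algebraMap_eq_smul_one, sub_self]
          have e2 := FAX_kill W.F D.M U PN e0 (h :: l)
          have e3 := Polynomial.aeval_algHom_apply (PLZ_sec A (Zo D.M U (h :: l)))
            (show End (Zo D.M U (h :: l)) from opU W.F D.M U (h :: l)) PN
          rw [e2, map_zero] at e3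
          exact e3
        · rw [hP1, hφ1]
          have hP := D.root _ (hS0 (hl _ (hget i)))
          have e1 : aeval (Mot.component W.F (D.M ((h :: l)[(i : ℕ)]'i.isLt)))
              ((weil q ((h :: l)[(i : ℕ)]'i.isLt)).map (Int.castRingHom ℚ)) = 0 := by
            rw [← hP, aeval_def, aeval_def, eval₂_map]
            congr 1
            exact RingHom.ext_int _ _
          have e2 := PLZ_aux W.F D.M U _ (h :: l) (i : ℕ) i.isLt e1
          have e3 := Polynomial.aeval_algHom_apply (PLZ_sec A (Zo D.M U (h :: l)))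
            (show End (Zo D.M U (h :: l)) from opZ W.F D.M U (h :: l) (i : ℕ))
            ((weil q ((h :: l)[(i : ℕ)]'i.isLt)).map (Int.castRingHom ℚ))
          rw [e2, map_zero] at e3
          exact e3
      · -- independence
        intro α hα hprod
        have hαm : ∀ i : Fin (l.length + 1), α i.castSucc ∈ Om q ((h :: l)[(i : ℕ)]'i.isLt) := by
          intro i
          rw [← (hWEI q _ hq1 (hmo _ (hget i))).2.2.1 (α i.castSucc)]
          have h1 := hα i.castSucc
          rw [hP1] at h1
          change aeval (α i.castSucc)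
            ((weil q ((h :: l)[(i : ℕ)]'i.isLt)).map (Int.castRingHom ℚ)) = 0 at h1
          rw [← algebraMap_int_eq, aeval_map_algebraMap] at h1
          exact h1
        have hγ : α (Fin.last _) ^ N = (q : Qb) ^ k := by
          have h1 := hα (Fin.last _)
          rw [hP2] at h1
          change aeval (α (Fin.last _)) (X ^ N - Polynomial.C ((q : ℚ) ^ k)) = 0 at h1
          rw [map_sub, map_pow, aeval_X, aeval_C, sub_eq_zero] at h1
          rw [h1, map_zpow₀, map_natCast]
        have h1 := hind (List.ofFn (fun i : Fin (l.length + 1) =>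
          ((h :: l)[(i : ℕ)]'i.isLt, α i.castSucc))) (by
            intro x hx
            rw [List.mem_ofFn] at hx
            obtain ⟨i, rfl⟩ := hx
            exact ⟨hl _ (hget i), hαm i⟩) N (-k) hN (by
              rw [List.map_ofFn]
              have h2 : (List.ofFn (Prod.snd ∘ fun i : Fin (l.length + 1) =>
                  ((h :: l)[(i : ℕ)]'i.isLt, α i.castSucc))).prod = ∏ i : Fin (l.length + 1),
                    α i.castSucc := List.prod_ofFn
              rw [h2]
              rw [map_one, one_mul, Fin.prod_univ_castSucc] at hprod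
              have h4 : (∏ i : Fin (l.length + 1), α i.castSucc) ^ N * (q : Qb) ^ k = 1 := by
                rw [← hγ, ← mul_pow, hprod, one_pow]
              rw [zpow_neg]
              exact eq_inv_of_mul_eq_one_left h4) (h, α 0) (by
                rw [List.mem_ofFn]
                exact ⟨0, rfl⟩)
        rw [List.mem_ofFn] at h1
        obtain ⟨i, hi⟩ := h1
        have hi1 : (h :: l)[(i : ℕ)]'i.isLt = h := (Prod.ext_iff.mp hi).1
        have hi2 : α i.castSucc = (q : Qb) / α 0 := (Prod.ext_iff.mp hi).2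
        have ha0 : α 0 ∈ Om q h := hαm 0
        rcases Fin.eq_zero_or_eq_succ i with h2 | ⟨j, rfl⟩
        · exfalso
          rw [h2] at hi2
          exact ((t_OMB h.natDegree q h hq1 (hmo h List.mem_cons_self) rfl).2.2.2.2
            hfo.2.2.1).1 (α 0) ha0 hi2
        · refine ⟨j.castSucc, (hJ _).2 ⟨j.isLt, hi1⟩, ?_⟩
          have h3 : α j.castSucc.succ ∈ Om q h := by
            have h4 := hαm j.succ
            rw [hi1] at h4
            exact h4
          have hi2' : α j.castSucc.succ = (q : Qb) / α 0 := hi2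
          rw [hE (α 0) ha0 (α j.castSucc.succ) h3, if_pos hi2']
      · rw [one_smul]
        have e1 : (List.ofFn φ).prod = (List.ofFn φ₀).prod * φU := by
          rw [List.ofFn_succ', List.concat_eq_append, List.prod_append, List.prod_singleton]
          congr 1
          · congr 1
            exact congrArg List.ofFn (funext hφ1)
        rw [e1]
        exact FAX_prd W D.M U (h :: l) A f hf
      · intro j hj
        obtain ⟨hjl, hj1⟩ := (hJ j).1 hj
        obtain ⟨π, hπ⟩ := t_MOV C W.F D.M U l (j : ℕ) hjl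
        obtain ⟨Z, hZ⟩ : ∃ Z, Z = Zo D.M U (l.eraseIdx (j : ℕ)) := ⟨_, rfl⟩
        have hlt : (l.eraseIdx (j : ℕ)).length < n := by
          have h1 := List.length_eraseIdx_of_lt hjl
          rw [List.length_cons] at hln
          omega
        have hmem : ∀ x ∈ l.eraseIdx (j : ℕ), x ∈ S₀ := fun x hx =>
          hl x (List.mem_cons_of_mem h (List.mem_of_mem_eraseIdx hx))
        have hT : Fac W (D.T ⊗ Z) := by
          rw [hZ]
          obtain ⟨i1⟩ := (t_WRD C D.M U (l.eraseIdx (j : ℕ))).1 D.T
          exact FAC_iso W i1 (ih _ hlt _ rfl _ (hPT U hU) hmem)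
        have hgen : ∀ x : ℤ[X], x = h → ∀ (π : Zo D.M U l ≅ D.M x ⊗ Z),
            opZ W.F D.M U l (j : ℕ) ≫ π.hom = π.hom ≫ W.F.app (D.M x) ▷ Z →
            (ev2 (2 * h.natDegree) E
              (Linear.rightComp ℚ A (opZ W.F D.M U (h :: l) 0) :
                Module.End ℚ (A ⟶ Zo D.M U (h :: l)))
              (Linear.rightComp ℚ A (opZ W.F D.M U (h :: l) ((j : ℕ) + 1)))) f ∈
                thru (𝟙_ C) A (Zo D.M U (h :: l)) := by
          rintro x rfl π hπ
          exact FAC_step W D.M U D.T x l (j : ℕ) Z π hπ _ E A f hf m' s r hsr hT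
        have hφ0 : φ 0 = Linear.rightComp ℚ A (opZ W.F D.M U (h :: l) 0) := hφ1 0
        have hφj : φ j.succ = Linear.rightComp ℚ A (opZ W.F D.M U (h :: l) ((j : ℕ) + 1)) := by
          have e1 : j.succ = (Fin.mk ((j : ℕ) + 1) (by omega) : Fin (l.length + 1)).castSucc :=
            Fin.ext rfl
          rw [e1, hφ1]
        rw [hφ0, hφj]
        subst hZ
        exact hgen _ hj1 π hπ
  intro U hU l hl
  exact key l.length l rfl U hU hl

end

end Pool.Agent.WAE
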