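import Pool.Agent.WAE.St

/-!
# Module FL1: all ordinary linear real Weil polynomials are full (MP_cb388a_ag, helper51)
-/

set_option autoImplicit false

namespace Pool.Agent.WAE.FL1

open Polynomial Pool.Agent.TJ2

theorem sq_lt {q : ℕ} (hq : IsPrimePow q) {c : ℤ} (h1 : |(c : ℝ)| ≤ 2 * Real.sqrt q)
    (h2 : ¬ (q.minFac : ℤ) ∣ c) : c ^ 2 < 4 * (q : ℤ) := by
  have hle : c ^ 2 ≤ 4 * (q : ℤ) := by
    have h3 : (c : ℝ) ^ 2 ≤ (2 * Real.sqrt q) ^ 2 := by
      rw [← sq_abs]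
      exact pow_le_pow_left₀ (abs_nonneg _) h1 2
    rw [mul_pow, Real.sq_sqrt (Nat.cast_nonneg q)] at h3
    have h4 : (c : ℝ) ^ 2 ≤ 4 * (q : ℝ) := by linarith
    exact_mod_cast h4
  refine lt_of_le_of_ne hle fun he => h2 ?_
  have hp : q.minFac.Prime := Nat.minFac_prime hq.ne_one
  have hpi : Prime (q.minFac : ℤ) := Nat.prime_iff_prime_int.1 hp
  refine hpi.dvd_of_dvd_pow (n := 2) ?_
  rw [he]
  exact Dvd.dvd.mul_left (by exact_mod_cast q.minFac_dvd) _

theorem monic_P (c q : ℚ) : (X ^ 2 + C c * X + C q : ℚ[X]).Monic := by monicity!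

theorem deg_P (c q : ℚ) : (X ^ 2 + C c * X + C q : ℚ[X]).natDegree = 2 := by compute_degree!

theorem irr {q : ℕ} {c : ℤ} (h : c ^ 2 < 4 * (q : ℤ)) :
    Irreducible (X ^ 2 + C (c : ℚ) * X + C (q : ℚ) : ℚ[X]) := by
  have hm := monic_P (c : ℚ) (q : ℚ)
  have hd := deg_P (c : ℚ) (q : ℚ)
  rw [hm.irreducible_iff_roots_eq_zero_of_degree_le_three (by rw [hd]) (by rw [hd]; norm_num),
    Multiset.eq_zero_iff_forall_notMem]
  intro x hx
  have h1 : (X ^ 2 + C (c : ℚ) * X + C (q : ℚ) : ℚ[X]).IsRoot x := (mem_roots hm.ne_zero).1 hx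
  rw [IsRoot.def] at h1
  simp only [eval_add, eval_pow, eval_X, eval_mul, eval_C] at h1
  have h' : (c : ℚ) ^ 2 < 4 * q := by exact_mod_cast h
  nlinarith [sq_nonneg (2 * x + c)]

theorem mem_Om {q : ℕ} (hq : 1 ≤ q) {h : ℤ[X]} (hm : h.Monic) (hd : h.natDegree = 1) (a : Qb) :
    a ∈ Om q h ↔ a ^ 2 + ((h.coeff 0 : ℤ) : Qb) * a + (q : Qb) = 0 := by
  have hX : h = X + C (h.coeff 0) := hm.eq_X_add_C hd
  obtain ⟨c, hc⟩ : ∃ c, c = h.coeff 0 := ⟨_, rfl⟩
  have hq0 : (q : Qb) ≠ 0 := by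
    have : q ≠ 0 := by omega
    exact_mod_cast this
  have hev : aeval (a + (q : Qb) / a) h = a + (q : Qb) / a + (c : Qb) := by
    rw [hX, ← hc]
    simp
  rw [← hc]
  constructor
  · rintro ⟨h0, h1⟩
    rw [hev] at h1
    field_simp at h1
    linear_combination h1
  · intro h1
    have h0 : a ≠ 0 := by
      rintro rfl
      apply hq0
      linear_combination h1
    refine ⟨h0, ?_⟩
    rw [hev]
    field_simp
    linear_combination h1

theorem normalQb : Normal ℚ Qb := by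
  have i : @IsAlgClosure ℚ Qb _ _ (AlgebraicClosure.instAlgebra ℚ) _ :=
    @AlgebraicClosure.instIsAlgClosure ℚ _
  have h : @Normal ℚ Qb _ _ (AlgebraicClosure.instAlgebra ℚ) :=
    @IsAlgClosure.normal ℚ Qb _ _ (AlgebraicClosure.instAlgebra ℚ) i
  have e : (DivisionRing.toRatAlgebra : Algebra ℚ Qb) = AlgebraicClosure.instAlgebra ℚ :=
    Subsingleton.elim _ _
  rw [e]
  exact h

theorem conj {q : ℕ} {c : ℤ} (h : c ^ 2 < 4 * (q : ℤ)) {a b : Qb}
    (ha : a ^ 2 + (c : Qb) * a + (q : Qb) = 0) (hb : b ^ 2 + (c : Qb) * b + (q : Qb) = 0) :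
    ∃ σ : Qb ≃ₐ[ℚ] Qb, σ a = b := by
  have key : ∀ x : Qb, x ^ 2 + (c : Qb) * x + (q : Qb) = 0 →
      X ^ 2 + C (c : ℚ) * X + C (q : ℚ) = minpoly ℚ x := by
    intro x hx
    refine minpoly.eq_of_irreducible_of_monic (irr h) ?_ (monic_P _ _)
    simp only [map_add, map_pow, aeval_X, map_mul, map_intCast, map_natCast]
    exact hx
  have h1 : IsConjRoot ℚ b a := by
    unfold IsConjRoot
    rw [← key a ha, ← key b hb]
  have : Normal ℚ Qb := normalQb
  exact h1.exists_algEquiv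

end Pool.Agent.WAE.FL1

namespace Pool.Agent.WAE

open Polynomial Pool.Agent.TJ2 Pool.Agent.WAE.FL1

/-- MODULE FL1 -/
theorem t_FL1 : S_FL1 := by
  intro q hq h hh
  obtain ⟨⟨hm, hd, hr⟩, hc⟩ := hh
  have hq1 : 1 ≤ q := hq.pos
  have hq0 : (q : Qb) ≠ 0 := by
    have : q ≠ 0 := by omega
    exact_mod_cast this
  have hX : h = X + C (h.coeff 0) := hm.eq_X_add_C hd
  have hroot : aeval (-((h.coeff 0 : ℤ) : ℂ)) h = 0 := by
    obtain ⟨c, hcc⟩ : ∃ c, c = h.coeff 0 := ⟨_, rfl⟩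
    rw [← hcc] at hX ⊢
    rw [hX]
    simp
  have habs : |((h.coeff 0 : ℤ) : ℝ)| ≤ 2 * Real.sqrt q := by
    have := (hr _ hroot).2
    simpa using this
  have hlt := sq_lt hq habs hc
  refine ⟨hd.ge, ⟨⟨hm, rfl, hr⟩, hc⟩, ?_⟩
  obtain ⟨a, ha⟩ := IsAlgClosed.exists_aeval_eq_zero Qb
    (X ^ 2 + C ((h.coeff 0 : ℤ) : ℚ) * X + C (q : ℚ) : ℚ[X])
    (by rw [Polynomial.degree_eq_natDegree (monic_P _ _).ne_zero, deg_P]; norm_num)
  simp only [map_add, map_pow, aeval_X, map_mul, map_intCast, map_natCast] at ha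
  have ha0 : a ≠ 0 := by
    rintro rfl
    apply hq0
    linear_combination ha
  have hb : ((q : Qb) / a) ^ 2 + ((h.coeff 0 : ℤ) : Qb) * ((q : Qb) / a) + (q : Qb) = 0 := by
    field_simp
    linear_combination (q : Qb) * ha
  have hsum : a + (q : Qb) / a + ((h.coeff 0 : ℤ) : Qb) = 0 := by
    field_simp
    linear_combination ha
  have hne : a ≠ (q : Qb) / a := by
    intro he
    have h1 : 2 * a + ((h.coeff 0 : ℤ) : Qb) = 0 := by
      linear_combination hsum + he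
    have h2 : a * a = (q : Qb) := by
      conv_lhs => rw [he]
      field_simp
      rw [eq_div_iff ha0] at he
      linear_combination -he
    have h3 : ((h.coeff 0 : ℤ) : Qb) ^ 2 = 4 * (q : Qb) := by
      linear_combination (((h.coeff 0 : ℤ) : Qb) - 2 * a) * h1 + 4 * h2
    have h4 : (h.coeff 0) ^ 2 = 4 * (q : ℤ) := by
      have h5 : (((h.coeff 0) ^ 2 : ℤ) : Qb) = ((4 * (q : ℤ) : ℤ) : Qb) := by
        push_cast
        exact h3
      exact_mod_cast h5
    omega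
  have hOm : Om q h = {a, (q : Qb) / a} := by
    ext x
    rw [mem_Om hq1 hm hd, Set.mem_insert_iff, Set.mem_singleton_iff]
    constructor
    · intro hx
      have h1 : (x - a) * (x - (q : Qb) / a) = 0 := by
        have h2 : a * ((q : Qb) / a) = (q : Qb) := by field_simp
        linear_combination hx - x * hsum + h2
      rcases mul_eq_zero.1 h1 with h2 | h2
      · exact Or.inl (sub_eq_zero.1 h2)
      · exact Or.inr (sub_eq_zero.1 h2)
    · rintro (rfl | rfl)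
      · exact ha
      · exact hb
  refine ⟨?_, ?_⟩
  · rw [hOm, Set.ncard_pair hne, hd]
  · intro τ hτ hcompat
    rw [hOm] at hτ hcompat ⊢
    have h1 : τ a ∈ ({a, (q : Qb) / a} : Set Qb) := hτ.mapsTo (Set.mem_insert _ _)
    have h2 := hcompat a (Set.mem_insert _ _)
    rw [Set.mem_insert_iff, Set.mem_singleton_iff] at h1
    rcases h1 with h1 | h1
    · refine ⟨AlgEquiv.refl, ?_⟩
      intro x hx
      rw [Set.mem_insert_iff, Set.mem_singleton_iff] at hx
      rcases hx with rfl | rfl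
      · rw [h1]; rfl
      · rw [h2, h1]; rfl
    · obtain ⟨σ, hσ⟩ := conj hlt ha hb
      refine ⟨σ, ?_⟩
      intro x hx
      rw [Set.mem_insert_iff, Set.mem_singleton_iff] at hx
      rcases hx with rfl | rfl
      · rw [h1, hσ]
      · rw [h2, h1, map_div₀, hσ, map_natCast]

end Pool.Agent.WAE
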