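import Pool.Agent.WAE.St
import Pool.Agent.TJ2.OMB
import Pool.Agent.TJ2.FULC
import Pool.Agent.TJ2.EMB

/-!
# Module FLT (MP_cb388a_ag): the third case of the relation lemma does not occur
-/

set_option autoImplicit false

open Polynomial IntermediateField

namespace Pool.Agent.WAE

open Pool.Agent.TJ2

noncomputable section

/-- the properties of the elements needed for the valuation -/
def FLTQ (q : ℕ) {k₀ : Type} [Field k₀] (ρ : integralClosure ℤ Qb →+* k₀) (x : Qb) : Prop :=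
  x ≠ 0 ∧ IsIntegral ℤ x ∧ IsIntegral ℤ ((q : Qb) / x) ∧
    ∀ (h1 : x ∈ integralClosure ℤ Qb) (h2 : (q : Qb) / x ∈ integralClosure ℤ Qb),
      (ρ ⟨x, h1⟩ = 0 ↔ ρ ⟨(q : Qb) / x, h2⟩ ≠ 0)

/-- the valuation is positive -/
def FLTP {k₀ : Type} [Field k₀] (ρ : integralClosure ℤ Qb →+* k₀) (x : Qb) : Prop :=
  ∃ h1 : x ∈ integralClosure ℤ Qb, ρ ⟨x, h1⟩ = 0

theorem FLT_dd {q : ℕ} (hq : 1 ≤ q) (x : Qb) : (q : Qb) / ((q : Qb) / x) = x := by
  have hq0 : (q : Qb) ≠ 0 := by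
    have : q ≠ 0 := by omega
    exact_mod_cast this
  exact div_div_cancel₀ hq0

theorem FLT_Q {q : ℕ} (hq : 1 ≤ q) {k₀ : Type} [Field k₀] {ρ : integralClosure ℤ Qb →+* k₀}
    {x : Qb} (h : FLTQ q ρ x) : FLTQ q ρ ((q : Qb) / x) := by
  have hq0 : (q : Qb) ≠ 0 := by
    have : q ≠ 0 := by omega
    exact_mod_cast this
  obtain ⟨h1, h2, h3, h4⟩ := h
  refine ⟨div_ne_zero hq0 h1, h3, by rwa [FLT_dd hq], ?_⟩
  intro i1 i2
  have e : (⟨(q : Qb) / ((q : Qb) / x), i2⟩ : integralClosure ℤ Qb) = ⟨x, h2⟩ :=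
    Subtype.ext (FLT_dd hq x)
  rw [e]
  have h5 := h4 h2 i1
  constructor
  · intro h6 h7
    exact h5.1 h7 h6
  · intro h6
    by_contra h7
    exact h6 (h5.2 h7)

theorem FLT_P {q : ℕ} {k₀ : Type} [Field k₀] {ρ : integralClosure ℤ Qb →+* k₀}
    {x : Qb} (h : FLTQ q ρ x) : FLTP ρ ((q : Qb) / x) ↔ ¬ FLTP ρ x := by
  obtain ⟨h1, h2, h3, h4⟩ := h
  have h5 := h4 h2 h3
  constructor
  · rintro ⟨i1, h6⟩ ⟨i2, h7⟩
    exact h5.1 h7 h6
  · intro h6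
    refine ⟨h3, ?_⟩
    by_contra h7
    exact h6 ⟨h2, h5.2 h7⟩

open Classical in
/-- the valuation of a relation between six elements -/
theorem FLT_val (hVAL : S_VAL) {q : ℕ} {k₀ : Type} [Field k₀]
    (ρ : integralClosure ℤ Qb →+* k₀) (hq : 1 ≤ q) (hq0 : (q : k₀) = 0) {x₁ x₂ x₃ : Qb}
    (hQ1 : FLTQ q ρ x₁) (hQ2 : FLTQ q ρ x₂) (hQ3 : FLTQ q ρ x₃)
    (h1 : x₁ ≠ (q : Qb) / x₁) (h2 : x₂ ≠ (q : Qb) / x₂) (h3 : x₃ ≠ (q : Qb) / x₃)
    (h12 : x₁ ≠ x₂) (h12' : x₁ ≠ (q : Qb) / x₂) (h13 : x₁ ≠ x₃) (h13' : x₁ ≠ (q : Qb) / x₃)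
    (h23 : x₂ ≠ x₃) (h23' : x₂ ≠ (q : Qb) / x₃) (c u v : ℤ) (N : ℕ) (k : ℤ)
    (hrel : (x₁ ^ c * ((q : Qb) / x₁) ^ (-c) * (x₂ ^ u * ((q : Qb) / x₂) ^ (-u) *
      (x₃ ^ v * ((q : Qb) / x₃) ^ (-v)))) ^ N = (q : Qb) ^ k) :
    (N : ℤ) * ((if FLTP ρ x₁ then c else -c) + ((if FLTP ρ x₂ then u else -u) +
      (if FLTP ρ x₃ then v else -v))) = k := by
  have hinv : ∀ x y : Qb, (q : Qb) / x = (q : Qb) / y → x = y := by
    intro x y h
    rw [← FLT_dd hq x, h, FLT_dd hq]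
  have hsw : ∀ x y : Qb, (q : Qb) / x = y → x = (q : Qb) / y := by
    intro x y h
    rw [← h, FLT_dd hq]
  have n12 : (q : Qb) / x₁ ≠ x₂ := fun h => h12' (hsw _ _ h)
  have n12' : (q : Qb) / x₁ ≠ (q : Qb) / x₂ := fun h => h12 (hinv _ _ h)
  have n13 : (q : Qb) / x₁ ≠ x₃ := fun h => h13' (hsw _ _ h)
  have n13' : (q : Qb) / x₁ ≠ (q : Qb) / x₃ := fun h => h13 (hinv _ _ h)
  have n23 : (q : Qb) / x₂ ≠ x₃ := fun h => h23' (hsw _ _ h)
  have n23' : (q : Qb) / x₂ ≠ (q : Qb) / x₃ := fun h => h23 (hinv _ _ h)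
  obtain ⟨y₁, e1⟩ : ∃ y, y = (q : Qb) / x₁ := ⟨_, rfl⟩
  obtain ⟨y₂, e2⟩ : ∃ y, y = (q : Qb) / x₂ := ⟨_, rfl⟩
  obtain ⟨y₃, e3⟩ : ∃ y, y = (q : Qb) / x₃ := ⟨_, rfl⟩
  have hQ1' := FLT_Q hq hQ1
  have hQ2' := FLT_Q hq hQ2
  have hQ3' := FLT_Q hq hQ3
  have hP1 := FLT_P hQ1
  have hP2 := FLT_P hQ2
  have hP3 := FLT_P hQ3
  rw [← e1] at h1 n12 n12' n13 n13' hrel hQ1' hP1
  rw [← e2] at h2 h12' n12' n23 n23' hrel hQ2' hP2
  rw [← e3] at h3 h13' h23' n13' n23' hrel hQ3' hP3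
  obtain ⟨m, hm⟩ : ∃ m : Qb → ℤ, m = fun x => if x = x₁ then c else if x = y₁ then -c else
    if x = x₂ then u else if x = y₂ then -u else if x = x₃ then v else -v := ⟨_, rfl⟩
  have m1 : m x₁ = c := by simp [hm]
  have m1' : m y₁ = -c := by simp [hm, h1.symm]
  have m2 : m x₂ = u := by simp [hm, h12.symm, n12.symm]
  have m2' : m y₂ = -u := by simp [hm, h12'.symm, n12'.symm, h2.symm]
  have m3 : m x₃ = v := by simp [hm, h13.symm, n13.symm, h23.symm, n23.symm]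
  have m3' : m y₃ = -v := by
    simp [hm, h13'.symm, n13'.symm, h23'.symm, n23'.symm, h3.symm]
  obtain ⟨s₀, hs₀⟩ : ∃ s₀ : Finset Qb, s₀ = {x₁, y₁, x₂, y₂, x₃, y₃} := ⟨_, rfl⟩
  have k1 : x₁ ∉ ({y₁, x₂, y₂, x₃, y₃} : Finset Qb) := by
    simp [h1, h12, h12', h13, h13']
  have k2 : y₁ ∉ ({x₂, y₂, x₃, y₃} : Finset Qb) := by
    simp [n12, n12', n13, n13']
  have k3 : x₂ ∉ ({y₂, x₃, y₃} : Finset Qb) := by
    simp [h2, h23, h23']
  have k4 : y₂ ∉ ({x₃, y₃} : Finset Qb) := by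
    simp [n23, n23']
  have k5 : x₃ ∉ ({y₃} : Finset Qb) := by
    simp [h3]
  have hall : ∀ a ∈ s₀, FLTQ q ρ a := by
    intro a ha
    rw [hs₀] at ha
    simp only [Finset.mem_insert, Finset.mem_singleton] at ha
    rcases ha with rfl | rfl | rfl | rfl | rfl | rfl
    · exact hQ1
    · exact hQ1'
    · exact hQ2
    · exact hQ2'
    · exact hQ3
    · exact hQ3'
  have hprod : (∏ a ∈ s₀, a ^ m a) ^ N = (q : Qb) ^ k := by
    rw [← hrel, hs₀, Finset.prod_insert k1, Finset.prod_insert k2, Finset.prod_insert k3,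
      Finset.prod_insert k4, Finset.prod_insert k5, Finset.prod_singleton, m1, m1', m2, m2', m3,
      m3']
    congr 1
    ring
  have h := hVAL q k₀ ρ hq hq0 s₀ m hall N k hprod (s₀.filter (FLTP ρ)) (Finset.filter_subset _ _)
    (by
      intro a ha i1
      rw [Finset.mem_filter]
      constructor
      · rintro ⟨-, i2, h5⟩
        exact h5
      · intro h5
        exact ⟨ha, i1, h5⟩)
  rw [← h, Finset.sum_filter, hs₀, Finset.sum_insert k1, Finset.sum_insert k2,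
    Finset.sum_insert k3, Finset.sum_insert k4, Finset.sum_insert k5, Finset.sum_singleton, m1,
    m1', m2, m2', m3, m3']
  congr 1
  by_cases p1 : FLTP ρ x₁ <;> by_cases p2 : FLTP ρ x₂ <;> by_cases p3 : FLTP ρ x₃ <;>
    simp [hP1, hP2, hP3, p1, p2, p3]

/-- the arithmetic at the end -/
theorem FLT_ar {N : ℕ} (hN : 1 ≤ N) {c u v : ℤ} (hc : c ≠ 0) (huv : |u| = |v|)
    {e e' A B : ℤ} (he : e = c ∨ e = -c) (he' : e' = c ∨ e' = -c) (hA : A = u ∨ A = -u)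
    (hB : B = v ∨ B = -v) (h1 : (N : ℤ) * (e + (A + B)) = 0)
    (h2 : (N : ℤ) * (e' + (A + -B)) = 0) : False := by
  have hN0 : (N : ℤ) ≠ 0 := by omega
  have h3 : e + (A + B) = 0 := (mul_eq_zero.1 h1).resolve_left hN0
  have h4 : e' + (A + -B) = 0 := (mul_eq_zero.1 h2).resolve_left hN0
  rcases abs_eq_abs.1 huv with h5 | h5 <;> rcases hA with h6 | h6 <;> rcases hB with h7 | h7 <;>
    rcases he with h8 | h8 <;> rcases he' with h9 | h9 <;> omega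

theorem t_FLT (hVAL : S_VAL) (hORR : S_ORR) : S_FLT := by
  classical
  intro q h h' a c w N k hq hh hh' _ hd ha hc hN hdis hwn hwa s hs hrel
  have hq1 : 1 ≤ q := hq.pos
  have hq2 : 2 ≤ q := hq.two_le
  have hqQ : (q : Qb) ≠ 0 := by
    have : q ≠ 0 := by omega
    exact_mod_cast this
  obtain ⟨k₀, _, ρ, hρ0, hρ⟩ := hORR q hq
  have hOM := t_OMB h.natDegree q h hq1 hh.2.1.1.1 rfl
  have hOM' := t_OMB h'.natDegree q h' hq1 hh'.2.1.1.1 rfl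
  have hfl := hOM.2.2.2.2 hh.2.2.1
  have hfl' := hOM'.2.2.2.2 hh'.2.2.1
  have hQ : ∀ x ∈ Om q h, FLTQ q ρ x := fun x hx =>
    ⟨hx.1, (hOM.2.1 x hx).2.1, (hOM.2.1 _ (hOM.2.1 x hx).1).2.1, hρ _ h hh.2.1 x hx⟩
  have hQ' : ∀ x ∈ Om q h', FLTQ q ρ x := fun x hx =>
    ⟨hx.1, (hOM'.2.1 x hx).2.1, (hOM'.2.1 _ (hOM'.2.1 x hx).1).2.1, hρ _ h' hh'.2.1 x hx⟩
  -- the elements of `Om q h'`
  have hcard : s.card = 4 := by
    have e1 : (s : Set Qb) = Om q h' := by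
      ext x
      exact hs x
    have e2 := hh'.2.2.1
    rw [← e1, Set.ncard_coe_finset, hd] at e2
    omega
  obtain ⟨y, hy⟩ : s.Nonempty := by
    rw [← Finset.card_pos]
    omega
  have hyO : y ∈ Om q h' := (hs y).1 hy
  have hy'O := (hOM'.2.1 y hyO).1
  have hy' : (q : Qb) / y ∈ s := (hs _).2 hy'O
  have hyy : y ≠ (q : Qb) / y := hfl'.1 y hyO
  obtain ⟨z, hz⟩ : ((s.erase y).erase ((q : Qb) / y)).Nonempty := by
    rw [← Finset.card_pos, Finset.card_erase_of_mem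
      (Finset.mem_erase.2 ⟨hyy.symm, hy'⟩), Finset.card_erase_of_mem hy]
    omega
  rw [Finset.mem_erase, Finset.mem_erase] at hz
  obtain ⟨hzy', hzy, hzs⟩ := hz
  have hzO : z ∈ Om q h' := (hs z).1 hzs
  have hz'O := (hOM'.2.1 z hzO).1
  have hz' : (q : Qb) / z ∈ s := (hs _).2 hz'O
  have hzz : z ≠ (q : Qb) / z := hfl'.1 z hzO
  have hyz' : y ≠ (q : Qb) / z := by
    intro h0
    apply hzy'
    rw [h0, FLT_dd hq1]
  have hy'z' : (q : Qb) / y ≠ (q : Qb) / z := by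
    intro h0
    apply hzy
    rw [← FLT_dd hq1 z, ← h0, FLT_dd hq1]
  have k1 : y ∉ ({(q : Qb) / y, z, (q : Qb) / z} : Finset Qb) := by
    simp [hyy, hzy.symm, hyz']
  have k2 : (q : Qb) / y ∉ ({z, (q : Qb) / z} : Finset Qb) := by
    simp [hzy'.symm, hy'z']
  have k3 : z ∉ ({(q : Qb) / z} : Finset Qb) := by
    simp [hzz]
  have hseq : s = {y, (q : Qb) / y, z, (q : Qb) / z} := by
    symm
    apply Finset.eq_of_subset_of_card_le
    · intro x hx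
      simp only [Finset.mem_insert, Finset.mem_singleton] at hx
      rcases hx with rfl | rfl | rfl | rfl
      · exact hy
      · exact hy'
      · exact hzs
      · exact hz'
    · rw [hcard, Finset.card_insert_of_notMem k1, Finset.card_insert_of_notMem k2,
        Finset.card_insert_of_notMem k3, Finset.card_singleton]
  have hprod : ∏ x ∈ s, x ^ w x = y ^ w y * ((q : Qb) / y) ^ (-w y) *
      (z ^ w z * ((q : Qb) / z) ^ (-w z)) := by
    rw [hseq, Finset.prod_insert k1, Finset.prod_insert k2, Finset.prod_insert k3,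
      Finset.prod_singleton, hwn y hyO, hwn z hzO]
    ring
  rw [hprod] at hrel
  -- the exponent `k` is zero
  have hk : k = 0 := by
    have : Algebra.IsAlgebraic ℚ Qb := AlgebraicClosure.isAlgebraic ℚ
    let ι : Qb →+* ℂ := (IsAlgClosed.lift : Qb →ₐ[ℚ] ℂ).toRingHom
    have hn : ∀ x ∈ Om q h, ‖ι x‖ ^ 2 = (q : ℝ) := fun x hx =>
      (t_EMB h.natDegree q h hq1 hh.2.1.1 x hx ι).1
    have hn' : ∀ x ∈ Om q h', ‖ι x‖ ^ 2 = (q : ℝ) := fun x hx =>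
      (t_EMB h'.natDegree q h' hq1 hh'.2.1.1 x hx ι).1
    have key : ∀ (x : Qb) (e : ℤ), ‖ι x‖ ^ 2 = (q : ℝ) → ‖ι ((q : Qb) / x)‖ ^ 2 = (q : ℝ) →
        ‖ι (x ^ e * ((q : Qb) / x) ^ (-e))‖ = 1 := by
      intro x e h1 h2
      have hqr : (0 : ℝ) < q := by exact_mod_cast hq1
      have h3 : ‖ι ((q : Qb) / x)‖ = ‖ι x‖ := by
        rw [← Real.sqrt_sq (norm_nonneg (ι ((q : Qb) / x))), h2, ← h1,
          Real.sqrt_sq (norm_nonneg _)]
      have h4 : ‖ι x‖ ≠ 0 := by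
        intro h5
        rw [h5] at h1
        norm_num at h1
        linarith
      rw [map_mul, map_zpow₀, map_zpow₀, norm_mul, norm_zpow, norm_zpow, h3, ← zpow_add₀ h4,
        add_neg_cancel, zpow_zero]
    have h1 := congrArg (fun x => ‖ι x‖) hrel
    simp only [map_pow, norm_pow, map_mul, norm_mul] at h1
    have g1 := key a c (hn a ha) (hn _ (hOM.2.1 a ha).1)
    have g2 := key y (w y) (hn' y hyO) (hn' _ hy'O)
    have g3 := key z (w z) (hn' z hzO) (hn' _ hz'O)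
    rw [map_mul, norm_mul] at g1 g2 g3
    rw [g1, g2, g3, mul_one, mul_one, one_pow, map_zpow₀, map_natCast, norm_zpow,
      Complex.norm_natCast] at h1
    have hq1r : (1 : ℝ) < q := by exact_mod_cast hq2
    have h2 : (q : ℝ) ^ k = (q : ℝ) ^ (0 : ℤ) := by rw [zpow_zero, h1]
    exact zpow_right_injective₀ (by linarith) (ne_of_gt hq1r) h2
  rw [hk] at hrel
  -- the automorphism
  obtain ⟨σ, hσ1, hσ2⟩ := (t_FULC q h' hq1 hh'.2.1.1.1 hh'.2.2).2.1 z hzO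
  have hσq : σ (q : Qb) = (q : Qb) := map_natCast σ q
  have hσz' : σ ((q : Qb) / z) = z := by
    rw [map_div₀, hσ1, hσq, FLT_dd hq1]
  have hσy : σ y = y := hσ2 y hyO hzy.symm hyz'
  have hσy' : σ ((q : Qb) / y) = (q : Qb) / y := by
    rw [map_div₀, hσy, hσq]
  have hσa' : σ ((q : Qb) / a) = (q : Qb) / σ a := by
    rw [map_div₀, hσq]
  have hσaO : σ a ∈ Om q h := hOM.2.2.1 a ha σ
  have hrel2 : (σ a ^ c * ((q : Qb) / σ a) ^ (-c) * (y ^ w y * ((q : Qb) / y) ^ (-w y) *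
      (z ^ (-w z) * ((q : Qb) / z) ^ (- -w z)))) ^ N = (q : Qb) ^ (0 : ℤ) := by
    have h1 := congrArg σ hrel
    rw [map_pow, map_mul, map_mul, map_mul, map_mul, map_mul, map_zpow₀, map_zpow₀, map_zpow₀,
      map_zpow₀, map_zpow₀, map_zpow₀, hσa', hσy, hσy', hσ1, hσz', map_zpow₀, hσq] at h1
    rw [← h1, neg_neg]
    congr 1
    ring
  have hne : ∀ x ∈ Om q h, ∀ x' ∈ Om q h', x ≠ x' := by
    rintro x hx x' hx' rfl
    exact (Set.disjoint_left.1 hdis) hx hx'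
  have v1 := FLT_val hVAL ρ hq1 hρ0 (hQ a ha) (hQ' y hyO) (hQ' z hzO) (hfl.1 a ha) hyy hzz
    (hne a ha y hyO) (hne a ha _ hy'O) (hne a ha z hzO) (hne a ha _ hz'O) hzy.symm hyz' c (w y)
    (w z) N 0 hrel
  have v2 := FLT_val hVAL ρ hq1 hρ0 (hQ _ hσaO) (hQ' y hyO) (hQ' z hzO) (hfl.1 _ hσaO) hyy hzz
    (hne _ hσaO y hyO) (hne _ hσaO _ hy'O) (hne _ hσaO z hzO) (hne _ hσaO _ hz'O) hzy.symm hyz' c
    (w y) (-w z) N 0 hrel2
  have e3 : (if FLTP ρ z then -w z else - -w z) = -(if FLTP ρ z then w z else -w z) := by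
    split_ifs <;> rfl
  rw [e3] at v2
  refine FLT_ar hN hc (hwa y hyO z hzO) ?_ ?_ ?_ ?_ v1 v2
  · split_ifs
    · exact Or.inl rfl
    · exact Or.inr rfl
  · split_ifs
    · exact Or.inl rfl
    · exact Or.inr rfl
  · split_ifs
    · exact Or.inl rfl
    · exact Or.inr rfl
  · split_ifs
    · exact Or.inl rfl
    · exact Or.inr rfl

end

end Pool.Agent.WAE
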