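import Pool.Agent.WAE.St
import Pool.Agent.TJ2.ORB

/-!
# WAE, module GRX: the abstract relation lemma with the relation in the third case

Follows `Pool/Agent/TJ2/GRP.lean`.
-/

namespace Pool.Agent.WAE

open Pool.Agent.TJ2

/-- The abstract relation lemma (with the relation), from the statement on orbit sizes. -/
theorem t_GRX_of (hORB : S_ORB) : S_GRX := by
  intro Γ ι _ _ _ Ω _ _ _ bar R h1 h2 h3 h4 h5 h6
  classical
  let supp : (∀ i, Ω i → ℤ) → Finset ι := fun d => Finset.univ.filter (fun i => d i ≠ 0)
  have hmem : ∀ d i, i ∈ supp d ↔ d i ≠ 0 := fun d i => by simp [supp]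
  obtain ⟨d₀, ⟨hd₀R, hd₀odd, hd₀ne⟩, hmin⟩ : ∃ d₀ : ∀ i, Ω i → ℤ,
      (d₀ ∈ R ∧ (∀ i x, d₀ i (bar i x) = - d₀ i x) ∧ d₀ ≠ 0) ∧
      ∀ d : ∀ i, Ω i → ℤ, (d ∈ R ∧ (∀ i x, d i (bar i x) = - d i x) ∧ d ≠ 0) →
        (supp d₀).card ≤ (supp d).card := by
    have hex : ∃ n, ∃ d : ∀ i, Ω i → ℤ,
        (d ∈ R ∧ (∀ i x, d i (bar i x) = - d i x) ∧ d ≠ 0) ∧ (supp d).card = n := by
      obtain ⟨d, h, h', h''⟩ := h6
      exact ⟨_, d, ⟨h, h', h''⟩, rfl⟩
    obtain ⟨d, hd, hdn⟩ := Nat.find_spec hex
    exact ⟨d, hd, fun d' hd' => by rw [hdn]; exact Nat.find_min' hex ⟨d', hd', rfl⟩⟩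
  have hzero : ∀ d ∈ R, (∀ i x, d i (bar i x) = - d i x) → (∀ i, d₀ i = 0 → d i = 0) →
      ∀ i, d₀ i ≠ 0 → d i = 0 → d = 0 := by
    intro d hdR hodd hsub i hi hdi
    by_contra hne
    have h := hmin d ⟨hdR, hodd, hne⟩
    have hlt : (supp d).card < (supp d₀).card := by
      apply Finset.card_lt_card
      refine ⟨fun j hj => ?_, fun hc => ?_⟩
      · rw [hmem] at hj ⊢
        exact fun h => hj (hsub j h)
      · exact (hmem d i).1 (hc ((hmem d₀ i).2 hi)) hdi
    omega
  have h11 : ∀ i, d₀ i ≠ 0 → ∃ d ∈ R, (∀ i x, d i (bar i x) = - d i x) ∧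
      (∀ j, d₀ j = 0 → d j = 0) ∧
      ∃ (x : Ω i) (c : ℤ), c ≠ 0 ∧ d i = Pi.single x c - Pi.single (bar i x) c := by
    intro i hi
    obtain ⟨x, hx⟩ : ∃ x, d₀ i x ≠ 0 := by
      by_contra hc
      push Not at hc
      exact hi (funext hc)
    obtain ⟨s, hs⟩ := h4 i (Equiv.swap x (bar i x)) (by
      intro y
      by_cases hy : y = x
      · subst hy
        rw [Equiv.swap_apply_right, Equiv.swap_apply_left, h1]
      · by_cases hy' : y = bar i x
        · subst hy'
          rw [h1, Equiv.swap_apply_left, Equiv.swap_apply_right]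
        · rw [Equiv.swap_apply_of_ne_of_ne hy hy', Equiv.swap_apply_of_ne_of_ne]
          · intro h
            apply hy'
            rw [← h1 i y, h]
          · intro h
            apply hy
            rw [← h1 i y, h, h1])
    have hs' : ∀ y, s⁻¹ • y = Equiv.swap x (bar i x) y := by
      intro y
      rw [inv_smul_eq_iff, hs, Equiv.swap_apply_self]
    refine ⟨d₀ - (fun j y => d₀ j (s⁻¹ • y)), R.sub_mem hd₀R (h5 s d₀ hd₀R), ?_, ?_, x,
      2 * d₀ i x, by omega, ?_⟩
    · intro j y
      simp only [Pi.sub_apply]
      rw [hd₀odd, ← h3, hd₀odd]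
      ring
    · intro j hj
      funext y
      simp [hj]
    · funext y
      simp only [Pi.sub_apply]
      rw [hs']
      by_cases hy : y = x
      · subst hy
        rw [Equiv.swap_apply_left, hd₀odd, Pi.single_eq_same, Pi.single_eq_of_ne (h2 i _).symm]
        ring
      · by_cases hy' : y = bar i x
        · subst hy'
          rw [Equiv.swap_apply_right, hd₀odd, Pi.single_eq_same, Pi.single_eq_of_ne (h2 i _)]
          ring
        · rw [Equiv.swap_apply_of_ne_of_ne hy hy', Pi.single_eq_of_ne hy, Pi.single_eq_of_ne hy']
          ring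
  -- two indices of the support
  have hpair : ∀ i j, d₀ i ≠ 0 → d₀ j ≠ 0 → i ≠ j →
      Fintype.card (Ω i) ≤ Fintype.card (Ω j) → ∀ d ∈ R, (∀ i x, d i (bar i x) = - d i x) →
      (∀ j, d₀ j = 0 → d j = 0) → ∀ (x : Ω i) (c : ℤ), c ≠ 0 →
      d i = Pi.single x c - Pi.single (bar i x) c →
      (∃ (i j : ι) (x : Ω i) (y : Ω j), i ≠ j ∧ ∀ s : Γ, s • x = x ↔ s • y = y) ∨
      (Fintype.card (Ω i) = 4 ∧ Fintype.card (Ω j) = 4 ∧ d j ≠ 0 ∧
        ∀ y z, |d j y| = |d j z|) := by
    intro i j hi hj hne hcard d hdR hodd hsub x c hc hd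
    have hdne : d ≠ 0 := by
      intro h
      have h' := congrFun hd x
      rw [h] at h'
      simp only [Pi.zero_apply, Pi.sub_apply, Pi.single_eq_same,
        Pi.single_eq_of_ne (h2 i x).symm] at h'
      omega
    have hw0 : d j ≠ 0 := fun h => hdne (hzero d hdR hodd hsub j hj h)
    -- the translates
    have htR : ∀ s : Γ, (fun k y => d k (s⁻¹ • y)) ∈ R := fun s => h5 s d hdR
    have htodd : ∀ (s : Γ) k y, d k (s⁻¹ • bar k y) = - d k (s⁻¹ • y) := by
      intro s k y
      rw [← h3, hodd]
    have hval : ∀ (s : Γ) y, d i (s⁻¹ • y) =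
        (Pi.single (s • x) c - Pi.single (bar i (s • x)) c : Ω i → ℤ) y := by
      intro s y
      rw [hd]
      simp only [Pi.sub_apply, Pi.single_apply, inv_smul_eq_iff, h3]
    have hstab : ∀ s : Γ, s • x = x ↔ ∀ y, d j (s⁻¹ • y) = d j y := by
      intro s
      constructor
      · intro hs
        have h := hzero ((fun k y => d k (s⁻¹ • y)) - d) (R.sub_mem (htR s) hdR) (by
          intro k y
          simp only [Pi.sub_apply]
          rw [htodd, hodd]
          ring) (by
          intro k hk
          funext y
          simp [hsub k hk]) i hi (by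
          funext y
          simp only [Pi.sub_apply, Pi.zero_apply]
          rw [hval, hs, hd, sub_self])
        intro y
        have h' := congrFun (congrFun h j) y
        simp only [Pi.sub_apply, Pi.zero_apply] at h'
        linarith
      · intro hs
        have h := hzero ((fun k y => d k (s⁻¹ • y)) - d) (R.sub_mem (htR s) hdR) (by
          intro k y
          simp only [Pi.sub_apply]
          rw [htodd, hodd]
          ring) (by
          intro k hk
          funext y
          simp [hsub k hk]) j hj (by
          funext y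
          simp only [Pi.sub_apply, Pi.zero_apply]
          rw [hs, sub_self])
        have h' := congrFun (congrFun h i) x
        simp only [Pi.sub_apply, Pi.zero_apply] at h'
        rw [hval, hd] at h'
        simp only [Pi.sub_apply, Pi.single_eq_same, Pi.single_eq_of_ne (h2 i x).symm] at h'
        by_contra hsx
        rw [Pi.single_eq_of_ne (Ne.symm hsx)] at h'
        by_cases hb : x = bar i (s • x)
        · rw [← hb, Pi.single_eq_same] at h'
          omega
        · rw [Pi.single_eq_of_ne hb] at h'
          omega
    have hneg : ∀ s : Γ, s • x = bar i x → ∀ y, d j (s⁻¹ • y) = - d j y := by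
      intro s hs
      have h := hzero ((fun k y => d k (s⁻¹ • y)) + d) (R.add_mem (htR s) hdR) (by
        intro k y
        simp only [Pi.add_apply]
        rw [htodd, hodd]
        ring) (by
        intro k hk
        funext y
        simp [hsub k hk]) i hi (by
        funext y
        simp only [Pi.add_apply, Pi.zero_apply]
        rw [hval, hs, hd, h1]
        simp only [Pi.sub_apply]
        ring)
      intro y
      have h' := congrFun (congrFun h j) y
      simp only [Pi.add_apply, Pi.zero_apply] at h'
      linarith
    -- the orbit of the component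
    have horb : (Set.range (fun s : Γ => fun y => d j (s⁻¹ • y))).ncard ≤
        Fintype.card (Ω i) := by
      let G : Ω i → (Ω j → ℤ) := fun z =>
        if h : ∃ s : Γ, s • x = z then (fun y => d j ((Classical.choose h)⁻¹ • y)) else 0
      have hsubG : Set.range (fun s : Γ => fun y => d j (s⁻¹ • y)) ⊆ G '' Set.univ := by
        rintro _ ⟨s, rfl⟩
        refine ⟨s • x, Set.mem_univ _, ?_⟩
        have hex : ∃ s' : Γ, s' • x = s • x := ⟨s, rfl⟩
        simp only [G, dif_pos hex]
        have hs' := Classical.choose_spec hex
        set s' := Classical.choose hex with hs'def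
        have h := (hstab (s'⁻¹ * s)).1 (by rw [mul_smul, ← hs', inv_smul_smul])
        funext y
        have h' := h (s'⁻¹ • y)
        rw [mul_inv_rev, inv_inv, mul_smul, smul_inv_smul] at h'
        exact h'.symm
      calc (Set.range (fun s : Γ => fun y => d j (s⁻¹ • y))).ncard
          ≤ (G '' Set.univ).ncard := Set.ncard_le_ncard hsubG (Set.toFinite _)
        _ ≤ (Set.univ : Set (Ω i)).ncard := Set.ncard_image_le (Set.toFinite _)
        _ = Fintype.card (Ω i) := by rw [Set.ncard_univ, Nat.card_eq_fintype_card]
    rcases hORB Γ (Ω j) (bar j) (d j) (h1 j) (h2 j) (fun s y => h3 j s y) (h4 j)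
      (fun y => hodd j y) hw0 (horb.trans hcard) with ⟨y, hy, hy'⟩ | ⟨hc4, habs, hr4⟩
    · left
      refine ⟨i, j, x, y, hne, fun s => ?_⟩
      rw [hstab]
      constructor
      · intro h
        have h' := h (s • y)
        rw [inv_smul_smul] at h'
        by_contra hsy
        by_cases hb : s • y = bar j y
        · rw [hb, hodd] at h'
          omega
        · rw [hy' _ hsy hb] at h'
          exact hy h'
      · intro hs z
        have hs' : s⁻¹ • y = y := by rw [inv_smul_eq_iff, hs]
        by_cases hz : z = y
        · subst hz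
          rw [hs']
        · by_cases hz' : z = bar j y
          · subst hz'
            rw [← h3, hs']
          · rw [hy' z hz hz', hy' (s⁻¹ • z)]
            · intro h
              apply hz
              rw [inv_smul_eq_iff, hs] at h
              exact h
            · intro h
              apply hz'
              rw [inv_smul_eq_iff, ← h3, hs] at h
              exact h
    · right
      exact ⟨by omega, hc4, hw0, habs⟩
  obtain ⟨i₀, hi₀⟩ : ∃ i, d₀ i ≠ 0 := by
    by_contra hc
    push Not at hc
    exact hd₀ne (funext hc)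
  by_cases hone : ∀ j, d₀ j ≠ 0 → j = i₀
  · -- one index
    left
    obtain ⟨d, hdR, _, hsub, x, c, hc, hd⟩ := h11 i₀ hi₀
    refine ⟨i₀, x, c, hc, ?_⟩
    have hde : Pi.single i₀ (Pi.single x c - Pi.single (bar i₀ x) c) = d := by
      funext j
      by_cases hj : j = i₀
      · subst hj
        rw [Pi.single_eq_same, hd]
      · rw [Pi.single_eq_of_ne hj]
        by_cases hj' : d₀ j = 0
        · rw [hsub j hj']
        · exact absurd (hone j hj') hj
    rw [hde]
    exact hdR
  · -- several indices
    right
    by_cases halt : ∃ (i j : ι) (x : Ω i) (y : Ω j), i ≠ j ∧ ∀ s : Γ, s • x = x ↔ s • y = y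
    · left
      exact halt
    · right
      -- all orbits of the support have four elements
      have hc4 : ∀ i j, d₀ i ≠ 0 → d₀ j ≠ 0 → i ≠ j →
          Fintype.card (Ω i) = 4 ∧ Fintype.card (Ω j) = 4 := by
        intro i j hi hj hne
        rcases le_total (Fintype.card (Ω i)) (Fintype.card (Ω j)) with h | h
        · obtain ⟨d, hdR, hodd, hsub, x, c, hc, hd⟩ := h11 i hi
          rcases hpair i j hi hj hne h d hdR hodd hsub x c hc hd with h' | h'
          · exact absurd h' halt
          · exact ⟨h'.1, h'.2.1⟩
        · obtain ⟨d, hdR, hodd, hsub, x, c, hc, hd⟩ := h11 j hj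
          rcases hpair j i hj hi hne.symm h d hdR hodd hsub x c hc hd with h' | h'
          · exact absurd h' halt
          · exact ⟨h'.2.1, h'.1⟩
      have hflat : ∀ i j, d₀ i ≠ 0 → d₀ j ≠ 0 → i ≠ j → ∀ d ∈ R,
          (∀ i x, d i (bar i x) = - d i x) → (∀ j, d₀ j = 0 → d j = 0) →
          ∀ (x : Ω i) (c : ℤ), c ≠ 0 → d i = Pi.single x c - Pi.single (bar i x) c →
          d j ≠ 0 ∧ ∀ y z, |d j y| = |d j z| := by
        intro i j hi hj hne d hdR hodd hsub x c hc hd
        have h44 := hc4 i j hi hj hne
        rcases hpair i j hi hj hne (by omega) d hdR hodd hsub x c hc hd with h' | h'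
        · exact absurd h' halt
        · exact h'.2.2
      push Not at hone
      obtain ⟨j₀, hj₀, hne₀⟩ := hone
      obtain ⟨d, hdR, hodd, hsub, x, c, hc, hd⟩ := h11 i₀ hi₀
      obtain ⟨hdj, hflatj⟩ := hflat i₀ j₀ hi₀ hj₀ hne₀.symm d hdR hodd hsub x c hc hd
      have h44 := hc4 i₀ j₀ hi₀ hj₀ hne₀.symm
      -- there is no third index
      have hthird : ∀ l, d₀ l ≠ 0 → l ≠ i₀ → l ≠ j₀ → False := by
        intro l hl hli hlj
        obtain ⟨d', hd'R, hodd', hsub', x', c', hc', hd'⟩ := h11 j₀ hj₀
        obtain ⟨hdl, hfl⟩ := hflat i₀ l hi₀ hl hli.symm d hdR hodd hsub x c hc hd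
        obtain ⟨hdl', hfl'⟩ := hflat j₀ l hj₀ hl hlj.symm d' hd'R hodd' hsub' x' c' hc' hd'
        obtain ⟨hdi', hfi'⟩ := hflat j₀ i₀ hj₀ hi₀ hne₀ d' hd'R hodd' hsub' x' c' hc' hd'
        obtain ⟨y₀, hy₀⟩ : ∃ y, d l y ≠ 0 := by
          by_contra hcon
          push Not at hcon
          exact hdl (funext hcon)
        obtain ⟨y₁, hy₁⟩ : ∃ y, d' l y ≠ 0 := by
          by_contra hcon
          push Not at hcon
          exact hdl' (funext hcon)
        have hA : ∀ y, |d l y| = |d l y₀| := fun y => hfl y y₀
        have hB : ∀ y, |d' l y| = |d' l y₁| := fun y => hfl' y y₁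
        have hApos : 0 < |d l y₀| := abs_pos.2 hy₀
        have hBpos : 0 < |d' l y₁| := abs_pos.2 hy₁
        have hne1 : ∀ y, d l y ≠ 0 := fun y => abs_pos.1 (by rw [hA]; exact hApos)
        have hne2 : ∀ y, d' l y ≠ 0 := fun y => abs_pos.1 (by rw [hB]; exact hBpos)
        let τ : Ω l → Ω l := fun u => if 0 < d l u * d' l u then u else bar l u
        have hsgn : ∀ u, d l (bar l u) * d' l (bar l u) = d l u * d' l u := by
          intro u
          rw [hodd, hodd']
          ring
        have hτbar : ∀ u, τ (bar l u) = bar l (τ u) := by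
          intro u
          by_cases hu : 0 < d l u * d' l u
          · simp only [τ, hsgn, if_pos hu]
          · simp only [τ, hsgn, if_neg hu]
        have hττ : Function.Involutive τ := by
          intro u
          by_cases hu : 0 < d l u * d' l u
          · have : τ u = u := if_pos hu
            rw [this, this]
          · have h' : τ u = bar l u := if_neg hu
            rw [h', hτbar, h', h1]
        obtain ⟨s, hs⟩ := h4 l hττ.toPerm (fun u => hτbar u)
        have hs' : ∀ u, s⁻¹ • u = τ u := by
          intro u
          rw [inv_smul_eq_iff, hs]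
          exact (hττ u).symm
        have hval : ∀ u, |d' l y₁| * d l (s⁻¹ • u) = |d l y₀| * d' l u := by
          intro u
          rw [hs', ← hA u, ← hB u]
          by_cases hu : 0 < d l u * d' l u
          · have h' : τ u = u := if_pos hu
            rw [h']
            rcases lt_or_gt_of_ne (hne1 u) with h | h
            · have h2' : d' l u < 0 := by nlinarith
              rw [abs_of_neg h, abs_of_neg h2']
              ring
            · have h2' : 0 < d' l u := by nlinarith
              rw [abs_of_pos h, abs_of_pos h2']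
              ring
          · have h' : τ u = bar l u := if_neg hu
            rw [h', hodd]
            have hu' : d l u * d' l u < 0 :=
              lt_of_le_of_ne (not_lt.1 hu) (mul_ne_zero (hne1 u) (hne2 u))
            rcases lt_or_gt_of_ne (hne1 u) with h | h
            · have h2' : 0 < d' l u := by nlinarith
              rw [abs_of_neg h, abs_of_pos h2']
              ring
            · have h2' : d' l u < 0 := by nlinarith
              rw [abs_of_pos h, abs_of_neg h2']
              ring
        have hzero' := hzero (|d' l y₁| • (fun k y => d k (s⁻¹ • y)) - |d l y₀| • d')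
          (R.sub_mem (R.zsmul_mem (h5 s d hdR) _) (R.zsmul_mem hd'R _)) (by
            intro k u
            simp only [Pi.sub_apply, Pi.smul_apply, smul_eq_mul]
            rw [← h3, hodd, hodd']
            ring) (by
            intro k hk
            funext u
            simp [hsub k hk, hsub' k hk]) l hl (by
            funext u
            simp only [Pi.sub_apply, Pi.smul_apply, smul_eq_mul, Pi.zero_apply]
            rw [hval, sub_self])
        -- a point of the first orbit where the first relation vanishes
        obtain ⟨u, hu1, hu2⟩ : ∃ u : Ω i₀, s⁻¹ • u ≠ x ∧ s⁻¹ • u ≠ bar i₀ x := by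
          by_contra hcon
          push Not at hcon
          have hcard2 : (Finset.univ : Finset (Ω i₀)) ⊆ {s • x, s • bar i₀ x} := by
            intro u _
            rw [Finset.mem_insert, Finset.mem_singleton]
            by_cases hux : s⁻¹ • u = x
            · left
              rw [← hux, smul_inv_smul]
            · right
              rw [← hcon u hux, smul_inv_smul]
          have h' := Finset.card_le_card hcard2
          rw [Finset.card_univ, h44.1] at h'
          have h'' := Finset.card_le_two (a := s • x) (b := s • bar i₀ x)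
          omega
        have h' := congrFun (congrFun hzero' i₀) u
        simp only [Pi.sub_apply, Pi.smul_apply, smul_eq_mul, Pi.zero_apply] at h'
        rw [hd] at h'
        simp only [Pi.sub_apply, Pi.single_eq_of_ne hu1, Pi.single_eq_of_ne hu2, sub_zero,
          mul_zero, zero_sub, neg_eq_zero, mul_eq_zero] at h'
        rcases h' with h' | h'
        · omega
        · obtain ⟨v, hv⟩ : ∃ v, d' i₀ v ≠ 0 := by
            by_contra hcon
            push Not at hcon
            exact hdi' (funext hcon)
          have h'' := hfi' u v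
          rw [h', abs_zero] at h''
          exact hv (abs_eq_zero.1 h''.symm)
      refine ⟨i₀, j₀, x, c, d j₀, hne₀.symm, hc, h44.1, h44.2, fun y => hodd j₀ y, hdj, hflatj, ?_⟩
      have hde : (Pi.single i₀ (Pi.single x c - Pi.single (bar i₀ x) c) + Pi.single j₀ (d j₀) :
          ∀ i, Ω i → ℤ) = d := by
        funext k
        by_cases hk : k = i₀
        · subst hk
          rw [Pi.add_apply, Pi.single_eq_same, Pi.single_eq_of_ne hne₀.symm, add_zero, hd]
        · by_cases hk' : k = j₀
          · subst hk'
            rw [Pi.add_apply, Pi.single_eq_same, Pi.single_eq_of_ne hk, zero_add]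
          · rw [Pi.add_apply, Pi.single_eq_of_ne hk, Pi.single_eq_of_ne hk', add_zero]
            by_cases hk0 : d₀ k = 0
            · rw [hsub k hk0]
            · exact (hthird k hk0 hk hk').elim
      rw [hde]
      exact hdR

/-- The abstract relation lemma, with the relation in the third case. -/
theorem t_GRX : S_GRX := t_GRX_of t_ORB

end Pool.Agent.WAE
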