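import Pool.Agent.WAE.St
import Pool.Agent.TJ2.WRD

/-!
# Module INW (MP_cb388a_ag): generated objects are dominated by words
-/

open CategoryTheory MonoidalCategory BraidedCategory Limits Polynomial

universe w v u

namespace Pool.Agent.WAE

open Pool.Agent.TJ2 Pool.Agent.WAV

noncomputable section

section INWaux

variable {C : Type u} [Category.{v} C] [Preadditive C] [MonoidalCategory C]
  [MonoidalPreadditive C]

/-- a morphism on the last factor of a word -/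
def INW_map (M : ℤ[X] → C) {U V : C} (f : U ⟶ V) : (l : List ℤ[X]) → (Zo M U l ⟶ Zo M V l)
  | [] => f
  | h :: l => M h ◁ INW_map M f l

omit [Preadditive C] [MonoidalPreadditive C] in
theorem INW_map_id (M : ℤ[X] → C) (U : C) (l : List ℤ[X]) : INW_map M (𝟙 U) l = 𝟙 (Zo M U l) := by
  induction l with
  | nil => rfl
  | cons h l ih =>
    change M h ◁ INW_map M (𝟙 U) l = 𝟙 (M h ⊗ Zo M U l)
    rw [ih, MonoidalCategory.whiskerLeft_id]

omit [Preadditive C] [MonoidalPreadditive C] in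
theorem INW_map_comp (M : ℤ[X] → C) {U V T : C} (f : U ⟶ V) (g : V ⟶ T) (l : List ℤ[X]) :
    INW_map M (f ≫ g) l = INW_map M f l ≫ INW_map M g l := by
  induction l with
  | nil => rfl
  | cons h l ih =>
    change M h ◁ INW_map M (f ≫ g) l = M h ◁ INW_map M f l ≫ M h ◁ INW_map M g l
    rw [ih, MonoidalCategory.whiskerLeft_comp]

theorem INW_map_sum (M : ℤ[X] → C) {U V : C} {κ : Type} (s : Finset κ) (f : κ → (U ⟶ V))
    (l : List ℤ[X]) : INW_map M (∑ k ∈ s, f k) l = ∑ k ∈ s, INW_map M (f k) l := by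
  induction l with
  | nil => rfl
  | cons h l ih =>
    change M h ◁ INW_map M (∑ k ∈ s, f k) l = ∑ k ∈ s, M h ◁ INW_map M (f k) l
    rw [ih, whiskerLeft_sum]

omit [MonoidalCategory C] [MonoidalPreadditive C] in
theorem INW_base (P : C → Prop) (Z : C) (h : P Z) : Dom P Z := by
  refine ⟨Unit, inferInstance, fun _ => Z, fun _ => 𝟙 Z, fun _ => 𝟙 Z, fun _ => h, ?_⟩
  simp

omit [MonoidalCategory C] [MonoidalPreadditive C] in
theorem INW_iso (P : C → Prop) (Z Z' : C) (j : Z ≅ Z') (h : Dom P Z) : Dom P Z' := by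
  obtain ⟨κ, _, Y, i, p, hP, e⟩ := h
  refine ⟨κ, inferInstance, Y, fun k => j.inv ≫ i k, fun k => p k ≫ j.hom, hP, ?_⟩
  have h4 : ∀ a ∈ (Finset.univ : Finset κ), (j.inv ≫ i a) ≫ (p a ≫ j.hom) =
      j.inv ≫ (i a ≫ p a) ≫ j.hom := fun a _ => by simp only [Category.assoc]
  rw [Finset.sum_congr rfl h4, ← Preadditive.comp_sum, ← Preadditive.sum_comp, e,
    Category.id_comp, Iso.inv_hom_id]

omit [MonoidalCategory C] [MonoidalPreadditive C] in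
theorem INW_smd (P : C → Prop) (Y Z : C) (h : Smd Y Z) (hY : P Y) : Dom P Z := by
  obtain ⟨n, i, p, e⟩ := h
  exact ⟨Fin n, inferInstance, fun _ => Y, i, p, fun _ => hY, e⟩

/-- words dominated by words -/
theorem INW_word (Q P : C → Prop) (M : ℤ[X] → C) (l : List ℤ[X])
    (hQP : ∀ U, Q U → P (Zo M U l)) (V : C) (h : Dom Q V) : Dom P (Zo M V l) := by
  obtain ⟨κ, _, Y, i, p, hQ, e⟩ := h
  refine ⟨κ, inferInstance, fun k => Zo M (Y k) l, fun k => INW_map M (i k) l,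
    fun k => INW_map M (p k) l, fun k => hQP _ (hQ k), ?_⟩
  have h4 : ∀ a ∈ (Finset.univ : Finset κ), INW_map M (i a) l ≫ INW_map M (p a) l =
      INW_map M (i a ≫ p a) l := fun a _ => (INW_map_comp M _ _ l).symm
  rw [Finset.sum_congr rfl h4, ← INW_map_sum, e, INW_map_id]

end INWaux

/-- isomorphic objects have isomorphic duals -/
theorem INW_dualCongr {C : Type u} [Category.{v} C] [MonoidalCategory C] {X Y : C}
    [HasRightDual X] [HasRightDual Y] (i : X ≅ Y) : Nonempty (Xᘁ ≅ Yᘁ) :=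
  ⟨{ hom := i.invᘁ
     inv := i.homᘁ
     hom_inv_id := by rw [← comp_rightAdjointMate, i.hom_inv_id, rightAdjointMate_id]
     inv_hom_id := by rw [← comp_rightAdjointMate, i.inv_hom_id, rightAdjointMate_id] }⟩

theorem t_INW (h1 : S_DOX.{v, u}) (h2 : S_UN1.{v, u}) (h3 : S_UN2.{v, u}) : S_INW.{v, u} := by
  intro C _ _ _ _ _ _ _ _ W q S S₀ D hq hS₀ hGI
  obtain ⟨htr, hten, hgen⟩ := h1 C (D.WN S₀)
  obtain ⟨-, -, -, hu1, huT, huL, huS⟩ := h2 C W q S D hq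
  obtain ⟨hmul, hdual⟩ := h3 C W q S D hq
  have hUiso : ∀ U V, Nonempty (U ≅ V) → D.UN U → D.UN V := by
    rintro U V ⟨i⟩ ⟨a, b, N, y, hN, hy, ⟨j⟩⟩
    exact ⟨a, b, N, y, hN, hy, ⟨i.symm ≪≫ j⟩⟩
  have hiso : ∀ X Y, Nonempty (X ≅ Y) → D.WN S₀ X → D.WN S₀ Y := by
    rintro X Y ⟨i⟩ ⟨U, l, hU, hl, ⟨j⟩⟩
    exact ⟨U, l, hU, hl, ⟨i.symm ≪≫ j⟩⟩
  have hnil : ∀ U, D.UN U → D.WN S₀ U := fun U hU => ⟨U, [], hU, by simp, ⟨Iso.refl _⟩⟩
  have hT' : D.UN D.T' := by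
    obtain ⟨l1⟩ := D.oneL
    refine ⟨0, 1, 1, 𝟙_ C, le_rfl, Or.inl rfl, ⟨?_⟩⟩
    exact (λ_ D.T').symm ≪≫ (λ_ (𝟙_ C ⊗ D.T')).symm ≪≫ (ρ_ _).symm ≪≫
      whiskerLeftIso _ (l1.symm ≪≫ (ρ_ _).symm)
  -- products
  have hmulW : ∀ X Y, D.WN S₀ X → D.WN S₀ Y → Dom (D.WN S₀) (X ⊗ Y) := by
    rintro X Y ⟨U, l, hU, hl, ⟨i⟩⟩ ⟨U', l', hU', hl', ⟨i'⟩⟩
    obtain ⟨-, -, h4⟩ := t_WRD C D.M U l
    obtain ⟨j⟩ := h4 U' l'
    have h5 : Dom (D.WN S₀) (Zo D.M (U ⊗ U') (l ++ l')) := by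
      refine INW_word D.UN (D.WN S₀) D.M (l ++ l') ?_ _ (hmul U U' hU hU')
      intro V hV
      refine ⟨V, l ++ l', hV, ?_, ⟨Iso.refl _⟩⟩
      intro h hh
      rcases List.mem_append.1 hh with hh | hh
      · exact hl h hh
      · exact hl' h hh
    exact INW_iso _ _ _ ((i ⊗ᵢ i') ≪≫ j).symm h5
  have hM : ∀ h ∈ S₀, ∀ U, D.UN U → D.WN S₀ (D.M h ⊗ U) := fun h hh U hU =>
    ⟨U, [h], hU, by simpa using hh, ⟨Iso.refl _⟩⟩
  have hMd : ∀ h ∈ S₀, D.WN S₀ (D.M h)ᘁ := by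
    intro h hh
    obtain ⟨p⟩ := D.pol h (hS₀ hh)
    obtain ⟨t⟩ := D.unitT
    refine hiso _ _ ⟨?_⟩ (hM h hh D.T' hT')
    exact whiskerRightIso p.symm D.T' ≪≫ α_ _ _ _ ≪≫ whiskerLeftIso _ t ≪≫ ρ_ _
  -- duals
  have hd : ∀ X, D.WN S₀ X → Dom (D.WN S₀) Xᘁ := by
    rintro X ⟨U, l, hU, hl, ⟨i⟩⟩
    obtain ⟨j⟩ := INW_dualCongr i
    refine INW_iso _ _ _ j.symm ?_
    clear i j
    induction l with
    | nil => exact INW_base _ _ (hnil _ (hdual U hU))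
    | cons h l ih =>
      have h5 := ih fun h' hh' => hl h' (List.mem_cons_of_mem _ hh')
      have h6 := hMd h (hl h List.mem_cons_self)
      exact INW_iso _ _ _ (rightDualTensorIso (D.M h) (Zo D.M U l)).symm
        (hten hmulW _ _ h5 (INW_base _ _ h6))
  refine hgen D.Obj (INW_base _ _ (hnil _ hu1)) hmulW hd ?_
  rintro Y (rfl | ⟨N, hN, rfl⟩ | ⟨h, hh, rfl⟩ | hY)
  · exact INW_base _ _ (hnil _ huT)
  · exact INW_base _ _ (hnil _ (huL N hN))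
  · obtain ⟨h₀, hh₀, N, hN, a, ha, a', ha', haa⟩ := hGI h hh
    have h5 := D.isog h₀ (hS₀ hh₀) h hh N hN a ha a' ha' haa
    refine INW_smd _ _ _ h5 (hiso _ _ ⟨?_⟩ (hM h₀ hh₀ (D.L N) (huL N hN)))
    exact β_ _ _
  · exact INW_base _ _ (hnil _ (huS Y hY))

end

end Pool.Agent.WAE
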