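import Pool.Agent.WAE.St
import Pool.Agent.TJ2.IND
import Pool.Agent.TJ2.STAB
import Pool.Agent.TJ2.SING
import Pool.Agent.TJ2.EMB
import Pool.Agent.TJ2.OMB

/-!
# Block WAE (MP_cb388a_ag), module INX (helper13): independence for a set of representatives

The proof is that of `t_IND` (`Pool/Agent/TJ2/IND.lean`), with `S_GRX`, `S_FLT` in place of `S_GRP`,
`S_REF`.
-/

open Polynomial IntermediateField

namespace Pool.Agent.WAE

open Pool.Agent.TJ2

noncomputable section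

/-- The abstract form. -/
lemma INX_abs (hGRP : S_GRX) {ι : Type} [Fintype ι] [DecidableEq ι] (Ω : ι → Type)
    [∀ i, Fintype (Ω i)] [∀ i, DecidableEq (Ω i)] [∀ i, MulAction (Qb ≃ₐ[ℚ] Qb) (Ω i)]
    (bar : ∀ i, Ω i → Ω i) (f : ∀ i, Ω i → Qb) (q : ℕ) (hq : (q : Qb) ≠ 0)
    (hf : ∀ i x, f i x ≠ 0) (hfs : ∀ i (s : Qb ≃ₐ[ℚ] Qb) x, f i (s • x) = s (f i x))
    (hfb : ∀ i x, f i (bar i x) = (q : Qb) / f i x)
    (hb1 : ∀ i x, bar i (bar i x) = x) (hb2 : ∀ i x, bar i x ≠ x)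
    (hb3 : ∀ i (s : Qb ≃ₐ[ℚ] Qb) x, bar i (s • x) = s • bar i x)
    (hb4 : ∀ i (τ : Equiv.Perm (Ω i)), (∀ x, τ (bar i x) = bar i (τ x)) →
      ∃ s : Qb ≃ₐ[ℚ] Qb, ∀ x, s • x = τ x)
    (m : ∀ i, Ω i → ℤ) (N : ℕ) (k : ℤ) (hN : 1 ≤ N) (hm : IND_P f m ^ N = (q : Qb) ^ k)
    (hne : ∃ i x, m i x ≠ m i (bar i x)) :
    (∃ (i : ι) (x : Ω i) (c : ℤ) (N : ℕ) (k : ℤ), c ≠ 0 ∧ 1 ≤ N ∧
      (f i x ^ c * ((q : Qb) / f i x) ^ (-c)) ^ N = (q : Qb) ^ k) ∨
    (∃ (i j : ι) (x : Ω i) (y : Ω j), i ≠ j ∧ ∀ s : Qb ≃ₐ[ℚ] Qb, s • x = x ↔ s • y = y) ∨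
    (∃ (i j : ι) (x : Ω i) (c : ℤ) (w : Ω j → ℤ) (N : ℕ) (k : ℤ), i ≠ j ∧ c ≠ 0 ∧ 1 ≤ N ∧
      Fintype.card (Ω j) = 4 ∧ (∀ y, w (bar j y) = - w y) ∧ (∀ y z, |w y| = |w z|) ∧
      (f i x ^ c * ((q : Qb) / f i x) ^ (-c) * ∏ y, f j y ^ w y) ^ N = (q : Qb) ^ k) := by
  set R := IND_R f hf q hq with hR
  have hstab : ∀ (s : Qb ≃ₐ[ℚ] Qb), ∀ d ∈ R, (fun i x => d i (s⁻¹ • x)) ∈ R := by
    rintro s d ⟨N, hN, k, hk⟩
    refine ⟨N, hN, k, ?_⟩
    have h1 : IND_P f (fun i x => d i (s⁻¹ • x)) = s (IND_P f d) := by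
      unfold IND_P
      rw [map_prod]
      refine Finset.prod_congr rfl fun i _ => ?_
      rw [map_prod, ← Equiv.prod_comp (MulAction.toPerm s)]
      refine Finset.prod_congr rfl fun x _ => ?_
      rw [MulAction.toPerm_apply]
      show f i (s • x) ^ d i (s⁻¹ • (s • x)) = _
      rw [inv_smul_smul, hfs, map_zpow₀]
    rw [h1, ← map_pow, hk, map_zpow₀, map_natCast]
  have hmR : m ∈ R := ⟨N, hN, k, hm⟩
  have hsum : (m + fun i x => m i (bar i x)) ∈ R := by
    refine ⟨1, le_rfl, ∑ i, ∑ x, m i x, ?_⟩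
    rw [pow_one, IND_P_add f hf]
    have h1 : IND_P f (fun i x => m i (bar i x)) = ∏ i, ∏ x, ((q : Qb) / f i x) ^ m i x := by
      unfold IND_P
      refine Finset.prod_congr rfl fun i _ => ?_
      have hinv : Function.Involutive (bar i) := hb1 i
      rw [← Equiv.prod_comp hinv.toPerm]
      refine Finset.prod_congr rfl fun x _ => ?_
      rw [Function.Involutive.coe_toPerm]
      show f i (bar i x) ^ m i (bar i (bar i x)) = _
      rw [hb1, hfb]
    rw [h1]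
    unfold IND_P
    rw [← Finset.prod_mul_distrib]
    have h2 : ∀ i, (∏ x, f i x ^ m i x) * ∏ x, ((q : Qb) / f i x) ^ m i x =
        (q : Qb) ^ ∑ x, m i x := by
      intro i
      rw [← Finset.prod_mul_distrib]
      have h3 : ∀ x, f i x ^ m i x * ((q : Qb) / f i x) ^ m i x = (q : Qb) ^ m i x := by
        intro x
        rw [← mul_zpow, mul_div_cancel₀ _ (hf i x)]
      rw [Finset.prod_congr rfl fun x _ => h3 x]
      exact (IND_zsum (q : Qb) hq Finset.univ (m i)).symm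
    rw [Finset.prod_congr rfl fun i _ => h2 i]
    exact (IND_zsum (q : Qb) hq Finset.univ _).symm
  have hd : ∃ d ∈ R, (∀ i x, d i (bar i x) = - d i x) ∧ d ≠ 0 := by
    refine ⟨m + m - (m + fun i x => m i (bar i x)), R.sub_mem (R.add_mem hmR hmR) hsum, ?_, ?_⟩
    · intro i x
      simp only [Pi.sub_apply, Pi.add_apply, hb1]
      ring
    · intro h0
      obtain ⟨i, x, hx⟩ := hne
      have h1 := congrFun (congrFun h0 i) x
      simp only [Pi.sub_apply, Pi.add_apply, Pi.zero_apply] at h1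
      apply hx
      linarith
  rcases hGRP (Qb ≃ₐ[ℚ] Qb) ι Ω bar R hb1 hb2 hb3 hb4 hstab hd with h | h | h
  · left
    obtain ⟨i, x, c, hc, N, hN, k, hk⟩ := h
    refine ⟨i, x, c, N, k, hc, hN, ?_⟩
    rw [← hk]
    congr 1
    rw [Pi.single_sub, sub_eq_add_neg, IND_P_add f hf, IND_P_neg, IND_P_single, IND_P_single,
      hfb, zpow_neg]
  · exact Or.inr (Or.inl h)
  · right
    right
    obtain ⟨i, j, x, c, w, hij, hc, _, hcj, hodd, _, habs, N, hN, k, hk⟩ := h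
    refine ⟨i, j, x, c, w, N, k, hij, hc, hN, hcj, hodd, habs, ?_⟩
    rw [← hk]
    congr 1
    have h2 : IND_P f (Pi.single j w) = ∏ y, f j y ^ w y := by
      unfold IND_P
      rw [Finset.prod_eq_single j]
      · rw [Pi.single_eq_same]
      · intro l _ hl
        apply Finset.prod_eq_one
        intro y _
        rw [Pi.single_eq_of_ne hl, Pi.zero_apply, zpow_zero]
      · intro h
        exact absurd (Finset.mem_univ _) h
    rw [IND_P_add f hf, h2]
    congr 1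
    rw [Pi.single_sub, sub_eq_add_neg, IND_P_add f hf, IND_P_neg, IND_P_single, IND_P_single,
      hfb, zpow_neg]

/-- INX: independence for a set of representatives -/
theorem t_INX (hGRP : S_GRX) (hFLT : S_FLT) : S_INX := by
  classical
  have hSTAB : S_STAB := t_STAB
  have hOMB : S_OMB := t_OMB
  have hSING : S_SING := t_SING t_EMB t_OMB
  intro q hq S₀ hS₀ hrep l hl N k hN hprod h a
  have hq1 : 1 ≤ q := hq.one_lt.le
  have hq0 : (q : Qb) ≠ 0 := by
    have : q ≠ 0 := by omega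
    exact_mod_cast this
  by_contra hcount
  let S : Finset ℤ[X] := (l.map Prod.fst).toFinset
  have hmemS : ∀ x ∈ l, x.1 ∈ S := by
    intro x hx
    rw [List.mem_toFinset]
    exact List.mem_map_of_mem hx
  have hSl : ∀ i : S, ∃ x ∈ l, x.1 = i.1 := by
    rintro ⟨i, hi⟩
    rw [List.mem_toFinset, List.mem_map] at hi
    exact hi
  have hS : ∀ i : S, i.1 ∈ S₀ := by
    intro i
    obtain ⟨x, hx, hxi⟩ := hSl i
    rw [← hxi]
    exact (hl x hx).1
  have hFO : ∀ i : S, i.1 ∈ FO q := fun i => hS₀ (hS i)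
  have hmon : ∀ i : S, i.1.Monic := fun i => (hFO i).2.1.1.1
  have hom := fun i : S => hOMB i.1.natDegree q i.1 hq1 (hmon i) rfl
  have hne := fun i : S => (hom i).2.2.2.2 (hFO i).2.2.1
  let Ω : S → Type := fun i => Om q i.1
  let hft : ∀ i, Fintype (Ω i) := fun i => (hom i).1.fintype
  let act : ∀ i, MulAction (Qb ≃ₐ[ℚ] Qb) (Ω i) := fun i =>
    { smul := fun s x => ⟨s x.1, (hom i).2.2.1 x.1 x.2 s⟩
      one_smul := fun x => Subtype.ext rfl
      mul_smul := fun s t x => Subtype.ext rfl }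
  let bar : ∀ i, Ω i → Ω i := fun i x => ⟨(q : Qb) / x.1, ((hom i).2.1 x.1 x.2).1⟩
  let f : ∀ i, Ω i → Qb := fun i x => x.1
  have hf : ∀ i x, f i x ≠ 0 := fun i x => x.2.1
  have hsm : ∀ i (s : Qb ≃ₐ[ℚ] Qb) (x : Ω i), (s • x).1 = s x.1 := fun i s x => rfl
  have hbb : ∀ (z : Qb), z ≠ 0 → (q : Qb) / ((q : Qb) / z) = z := by
    intro z hz
    field_simp
  let m : ∀ i, Ω i → ℤ := fun i x => (l.count (i.1, x.1) : ℤ)
  have hPm : IND_P f m = (l.map Prod.snd).prod := by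
    apply IND_list S (fun i => Om q i.1) (fun i b hb => hb.1) l
    intro x hx
    exact ⟨hmemS x hx, (hl x hx).2⟩
  -- the pair
  have hpair : ∃ i x, m i x ≠ m i (bar i x) := by
    by_cases h1 : (h, a) ∈ l
    · refine ⟨⟨h, hmemS _ h1⟩, ⟨a, (hl _ h1).2⟩, ?_⟩
      intro h2
      apply hcount
      have h3 : (l.count (h, a) : ℤ) = (l.count (h, (q : Qb) / a) : ℤ) := h2
      exact_mod_cast h3
    · have h2 : (h, (q : Qb) / a) ∈ l := by
        by_contra h2
        apply hcount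
        rw [List.count_eq_zero_of_not_mem h1, List.count_eq_zero_of_not_mem h2]
      have ha0 : a ≠ 0 := by
        rintro rfl
        rw [div_zero] at h2
        exact h1 h2
      have h3 := (hl _ h2).2
      refine ⟨⟨h, hmemS _ h2⟩, ⟨(q : Qb) / a, h3⟩, ?_⟩
      intro h4
      apply hcount
      have h5 : (l.count (h, (q : Qb) / a) : ℤ) = (l.count (h, (q : Qb) / ((q : Qb) / a)) : ℤ) := h4
      rw [hbb a ha0] at h5
      exact_mod_cast h5.symm
  have hb1 : ∀ i x, bar i (bar i x) = x := fun i x => Subtype.ext (hbb x.1 x.2.1)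
  have hb2 : ∀ i x, bar i x ≠ x := by
    intro i x h1
    exact (hne i).1 x.1 x.2 (congrArg Subtype.val h1).symm
  have hb3 : ∀ i (s : Qb ≃ₐ[ℚ] Qb) x, bar i (s • x) = s • bar i x := by
    intro i s x
    apply Subtype.ext
    show (q : Qb) / s x.1 = s ((q : Qb) / x.1)
    rw [map_div₀, map_natCast]
  have hb4 : ∀ i (τ : Equiv.Perm (Ω i)), (∀ x, τ (bar i x) = bar i (τ x)) →
      ∃ s : Qb ≃ₐ[ℚ] Qb, ∀ x, s • x = τ x := by
    intro i τ hτ
    let τ' : Qb → Qb := fun b => if hb : b ∈ Om q i.1 then (τ ⟨b, hb⟩).1 else b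
    have hτ' : ∀ (b : Qb) (hb : b ∈ Om q i.1), τ' b = (τ ⟨b, hb⟩).1 := by
      intro b hb
      simp only [τ', dif_pos hb]
    obtain ⟨σ, hσ⟩ := (hFO i).2.2.2 τ' (by
      refine ⟨?_, ?_, ?_⟩
      · intro b hb
        rw [hτ' b hb]
        exact (τ ⟨b, hb⟩).2
      · intro b hb c hc hbc
        rw [hτ' b hb, hτ' c hc] at hbc
        have := τ.injective (Subtype.ext hbc)
        exact congrArg Subtype.val this
      · intro b hb
        refine ⟨(τ.symm ⟨b, hb⟩).1, (τ.symm ⟨b, hb⟩).2, ?_⟩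
        rw [hτ' _ (τ.symm ⟨b, hb⟩).2]
        have : (⟨(τ.symm ⟨b, hb⟩).1, (τ.symm ⟨b, hb⟩).2⟩ : Ω i) = τ.symm ⟨b, hb⟩ := rfl
        rw [this, Equiv.apply_symm_apply]) (by
      intro b hb
      have hqb := ((hom i).2.1 b hb).1
      rw [hτ' b hb, hτ' _ hqb]
      exact congrArg Subtype.val (hτ ⟨b, hb⟩))
    refine ⟨σ, fun x => Subtype.ext ?_⟩
    have := hσ x.1 x.2
    rw [hτ' x.1 x.2] at this
    exact this
  have hcard : ∀ i, Fintype.card (Ω i) = 2 * i.1.natDegree := by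
    intro i
    rw [← (hFO i).2.2.1, ← Nat.card_eq_fintype_card]
    exact Nat.card_coe_set_eq _
  rcases INX_abs hGRP Ω bar f q hq0 hf (fun i s x => rfl) (fun i x => rfl) hb1 hb2 hb3 hb4 m N k hN
    (by rw [hPm]; exact hprod) hpair with h1 | h1 | h1
  · obtain ⟨i, x, c, N', k', hc, hN', hk'⟩ := h1
    exact hSING i.1.natDegree q i.1 x.1 c N' k' (hFO i).1 hq (hFO i).2.1 x.2 hc hN' hk'
  · obtain ⟨i, j, x, y, hij, hst⟩ := h1
    have hfix : ∀ s : Qb ≃ₐ[ℚ] Qb, s x.1 = x.1 ↔ s y.1 = y.1 := by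
      intro s
      constructor
      · intro h2
        exact congrArg Subtype.val ((hst s).1 (Subtype.ext h2))
      · intro h2
        exact congrArg Subtype.val ((hst s).2 (Subtype.ext h2))
    have heq : ℚ⟮x.1⟯ = ℚ⟮y.1⟯ := by
      apply le_antisymm
      · rw [IntermediateField.adjoin_simple_le_iff]
        exact hSTAB y.1 x.1 fun s hs => (hfix s).2 hs
      · rw [IntermediateField.adjoin_simple_le_iff]
        exact hSTAB x.1 y.1 fun s hs => (hfix s).1 hs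
    exact hij (Subtype.ext (hrep i.1 (hS i) j.1 (hS j) x.1 x.2 y.1 y.2 heq))
  · obtain ⟨i, j, x, c, w, N', k', hij, hc, hN', hcj, hodd, habs, hk'⟩ := h1
    have hdj : j.1.natDegree = 2 := by
      have := hcard j
      omega
    have hijv : i.1 ≠ j.1 := fun h2 => hij (Subtype.ext h2)
    have hdis : Disjoint (Om q i.1) (Om q j.1) := by
      rw [Set.disjoint_left]
      intro b hb hb'
      exact hijv (hrep i.1 (hS i) j.1 (hS j) b hb b hb' rfl)
    let w' : Qb → ℤ := fun b => if hb : b ∈ Om q j.1 then w ⟨b, hb⟩ else 0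
    have hw' : ∀ (b : Qb) (hb : b ∈ Om q j.1), w' b = w ⟨b, hb⟩ := by
      intro b hb
      simp only [w', dif_pos hb]
    have hfinj : (Om q j.1).Finite := (hom j).1
    have hprodj : ∏ y ∈ hfinj.toFinset, y ^ w' y = ∏ y : Ω j, f j y ^ w y := by
      symm
      refine Finset.prod_bij (fun (y : Ω j) _ => y.1) ?_ ?_ ?_ ?_
      · intro y _
        exact hfinj.mem_toFinset.mpr y.2
      · intro y _ z _ hyz
        exact Subtype.ext hyz
      · intro b hb
        exact ⟨⟨b, hfinj.mem_toFinset.mp hb⟩, Finset.mem_univ _, rfl⟩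
      · intro y _
        rw [hw' y.1 y.2]
    refine hFLT q i.1 j.1 x.1 c w' N' k' hq (hFO i) (hFO j) hijv hdj x.2 hc hN' hdis ?_ ?_
      hfinj.toFinset (fun b => hfinj.mem_toFinset) ?_
    · intro b hb
      have hqb := ((hom j).2.1 b hb).1
      rw [hw' b hb, hw' _ hqb]
      exact hodd ⟨b, hb⟩
    · intro b hb c hc
      rw [hw' b hb, hw' c hc]
      exact habs _ _
    · rw [hprodj]
      exact hk'

end

end Pool.Agent.WAE
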