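import Pool.Agent.WAE.St
import Pool.Agent.TJ2.OMB
import Pool.Agent.TJ2.WEI
import Pool.Agent.TJ2.IDT
import Pool.Agent.TJ2.KEA
import Pool.Agent.TJ2.KEB

/-!
# The key identity for the objects `AVL` (copy of `Pool/Agent/TJ2/KEY.lean`, helper85)
-/

open CategoryTheory MonoidalCategory BraidedCategory Limits Polynomial
open scoped Matrix

universe w v u

namespace Pool.Agent.WAE

open Pool.Agent.TJ2

noncomputable section

section Alg

variable {A B : Type*} [Ring A] [Algebra ℚ A] [Ring B] [Algebra ℚ B]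

private theorem KEX_hom (f : A →ₐ[ℚ] B) (n : ℕ) (G : ℕ → ℕ → ℚ) (a b : A) :
    ev2 n G (f a) (f b) = f (ev2 n G a b) := by
  simp only [ev2, map_sum, map_smul, map_mul, map_pow]

/-- `ev2` is linear in the array -/
private def KEX_lin (n : ℕ) (a b : A) : (ℕ → ℕ → ℚ) →ₗ[ℚ] A where
  toFun G := ev2 n G a b
  map_add' G H := by
    simp only [ev2, Pi.add_apply, add_smul, Finset.sum_add_distrib]
  map_smul' c G := by
    simp only [ev2, Pi.smul_apply, smul_eq_mul, mul_smul, Finset.smul_sum, RingHom.id_apply]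

/-- the array of a monomial -/
private def KEX_mono (i j : ℕ) (c : ℚ) : ℕ → ℕ → ℚ := fun k l => if k = i ∧ l = j then c else 0

private theorem KEX_ev_mono {n i j : ℕ} (hi : i < n) (hj : j < n) (c : ℚ) (a b : A) :
    ev2 n (KEX_mono i j c) a b = c • (a ^ i * b ^ j) := by
  unfold ev2 KEX_mono
  rw [Finset.sum_eq_single i]
  · rw [Finset.sum_eq_single j]
    · simp
    · intro l _ hl
      simp [hl]
    · intro h
      exact absurd (Finset.mem_range.2 hj) h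
  · intro k _ hk
    exact Finset.sum_eq_zero fun l _ => by simp [hk]
  · intro h
    exact absurd (Finset.mem_range.2 hi) h

/-- the array of `x y - q` -/
private def KEX_N (q : ℕ) : ℕ → ℕ → ℚ := KEX_mono 1 1 1 - KEX_mono 0 0 q

private theorem KEX_ev_N {n : ℕ} (hn : 2 ≤ n) (q : ℕ) (a b : A) :
    ev2 n (KEX_N q) a b = a * b - (q : ℚ) • (1 : A) := by
  have h := (KEX_lin n a b).map_sub (KEX_mono 1 1 1) (KEX_mono 0 0 q)
  change ev2 n (KEX_mono 1 1 1 - KEX_mono 0 0 q) a b = ev2 n (KEX_mono 1 1 1) a b -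
    ev2 n (KEX_mono 0 0 q) a b at h
  unfold KEX_N
  rw [h, KEX_ev_mono (by omega) (by omega), KEX_ev_mono (by omega) (by omega)]
  simp

/-- the array of `1 - E` -/
private theorem KEX_ev_one {n : ℕ} (hn : 1 ≤ n) (E : ℕ → ℕ → ℚ) (a b : A) :
    ev2 n (KEX_mono 0 0 1 - E) a b = 1 - ev2 n E a b := by
  have h := (KEX_lin n a b).map_sub (KEX_mono 0 0 1) E
  change ev2 n (KEX_mono 0 0 1 - E) a b = ev2 n (KEX_mono 0 0 1) a b - ev2 n E a b at h
  rw [h, KEX_ev_mono (by omega) (by omega)]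
  simp

/-- the array of `(x y - q) E` -/
private def KEX_M (n q : ℕ) (E : ℕ → ℕ → ℚ) : ℕ → ℕ → ℚ :=
  ∑ i ∈ Finset.range n, ∑ j ∈ Finset.range n,
    (KEX_mono (i + 1) (j + 1) (E i j) - (q : ℚ) • KEX_mono i j (E i j))

private theorem KEX_ev_M (n q : ℕ) (E : ℕ → ℕ → ℚ) (a b : A) (hab : Commute a b) :
    ev2 (n + 1) (KEX_M n q E) a b = (a * b - (q : ℚ) • (1 : A)) * ev2 n E a b := by
  have h : ev2 (n + 1) (KEX_M n q E) a b = KEX_lin (n + 1) a b (KEX_M n q E) := rfl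
  rw [h]
  unfold KEX_M
  simp only [map_sum, map_sub, map_smul]
  have h2 : ev2 n E a b = ∑ i ∈ Finset.range n, ∑ j ∈ Finset.range n, E i j • (a ^ i * b ^ j) := rfl
  rw [h2, Finset.mul_sum]
  refine Finset.sum_congr rfl fun i hi => ?_
  rw [Finset.mul_sum]
  refine Finset.sum_congr rfl fun j hj => ?_
  have hi' := Finset.mem_range.1 hi
  have hj' := Finset.mem_range.1 hj
  have h3 : KEX_lin (n + 1) a b (KEX_mono (i + 1) (j + 1) (E i j)) =
      E i j • (a ^ (i + 1) * b ^ (j + 1)) := KEX_ev_mono (by omega) (by omega) _ _ _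
  have h4 : KEX_lin (n + 1) a b (KEX_mono i j (E i j)) =
      E i j • (a ^ i * b ^ j) := KEX_ev_mono (by omega) (by omega) _ _ _
  rw [h3, h4, sub_mul, mul_smul_comm, smul_mul_assoc, one_mul]
  congr 2
  rw [pow_succ' a, pow_succ' b]
  have h5 : Commute b (a ^ i) := hab.symm.pow_right i
  rw [mul_assoc, mul_assoc, ← mul_assoc (a ^ i) b, ← h5.eq, mul_assoc]

private theorem KEX_idt (hIDT : S_IDT.{w}) {A : Type v} [Ring A] [Algebra ℚ A] {V : Type w}
    [AddCommGroup V] [Module ℚ V] (ρ : A →ₐ[ℚ] Module.End ℚ V) {a b : A} (hab : Commute a b)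
    {P : ℚ[X]} (hP : Squarefree P) (ha : aeval a P = 0) (hb : aeval b P = 0) {n : ℕ}
    {N G : ℕ → ℕ → ℚ} {x : V}
    (hNG : ∀ α β : Qb, aeval α P = 0 → aeval β P = 0 → ev2 n N α β = 0 → ev2 n G α β = 0)
    (hx : ρ (ev2 n N a b) x = 0) : ρ (ev2 n G a b) x = 0 := by
  have h := hIDT V (ρ a) (ρ b) P n N G x (hab.map ρ) hP
    (by rw [aeval_algHom_apply, ha, map_zero]) (by rw [aeval_algHom_apply, hb, map_zero]) hNG
  rw [KEX_hom, KEX_hom] at h
  exact h hx

/-- if `a b - q` kills `x`, then `E (a, b) x = x` -/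
private theorem KEX_fix (hIDT : S_IDT.{w}) {A : Type v} [Ring A] [Algebra ℚ A] {V : Type w}
    [AddCommGroup V] [Module ℚ V] (ρ : A →ₐ[ℚ] Module.End ℚ V) {a b : A} (hab : Commute a b)
    {P : ℚ[X]} (hP : Squarefree P) (ha : aeval a P = 0) (hb : aeval b P = 0) {n q : ℕ}
    (hn : 2 ≤ n) {E : ℕ → ℕ → ℚ} {x : V}
    (hE : ∀ α β : Qb, aeval α P = 0 → aeval β P = 0 → α * β = q → ev2 n E α β = 1)
    (hx : ρ (a * b) x = (q : ℚ) • x) : ρ (ev2 n E a b) x = x := by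
  have h := KEX_idt hIDT ρ hab hP ha hb (n := n) (N := KEX_N q) (G := KEX_mono 0 0 1 - E) (x := x)
    (fun α β hα hβ h0 => by
      rw [KEX_ev_N hn, sub_eq_zero] at h0
      rw [KEX_ev_one (by omega), hE α β hα hβ (by rw [h0, Algebra.smul_def]; simp), sub_self])
    (by rw [KEX_ev_N hn, map_sub, map_smul, map_one, LinearMap.sub_apply, hx]; simp)
  rw [KEX_ev_one (by omega), map_sub, map_one, LinearMap.sub_apply, sub_eq_zero] at h
  exact h.symm

private theorem KEX_idem (hIDT : S_IDT.{v}) {A : Type v} [Ring A] [Algebra ℚ A] {a b : A}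
    (hab : Commute a b) {P : ℚ[X]} (hP : Squarefree P) (ha : aeval a P = 0) (hb : aeval b P = 0)
    {n q : ℕ} (hn : 2 ≤ n) {E : ℕ → ℕ → ℚ}
    (hE : ∀ α β : Qb, aeval α P = 0 → aeval β P = 0 → α * β = q → ev2 n E α β = 1)
    (hE0 : ∀ α β : Qb, aeval α P = 0 → aeval β P = 0 → α * β ≠ q → ev2 n E α β = 0) :
    ev2 n E a b * ev2 n E a b = ev2 n E a b := by
  have h1 := KEX_idt hIDT (Algebra.lmul ℚ A) hab hP ha hb (n := n + 1) (N := 0)
    (G := KEX_M n q E) (x := 1)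
    (fun α β hα hβ _ => by
      rw [KEX_ev_M n q E α β (Commute.all α β)]
      by_cases h : α * β = q
      · rw [h, Algebra.smul_def]
        simp
      · rw [hE0 α β hα hβ h, mul_zero])
    (by
      have : ev2 (n + 1) 0 a b = 0 := (KEX_lin (n + 1) a b).map_zero
      rw [this, map_zero, LinearMap.zero_apply])
  rw [KEX_ev_M n q E a b hab] at h1
  have h2 : (a * b - (q : ℚ) • (1 : A)) * ev2 n E a b = 0 := by simpa using h1
  rw [sub_mul, smul_mul_assoc, one_mul, sub_eq_zero] at h2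
  exact KEX_fix hIDT (Algebra.lmul ℚ A) hab hP ha hb hn (x := ev2 n E a b) hE h2

private theorem KEX_op_aeval (a : A) (P : ℚ[X]) :
    aeval (MulOpposite.op a) P = MulOpposite.op (aeval a P) := by
  rw [aeval_eq_sum_range, aeval_eq_sum_range, Finset.op_sum]
  simp

private theorem KEX_op_ev2 {a b : A} (hab : Commute a b) (n : ℕ) (G : ℕ → ℕ → ℚ) :
    ev2 n G (MulOpposite.op a) (MulOpposite.op b) = MulOpposite.op (ev2 n G a b) := by
  unfold ev2
  rw [Finset.op_sum]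
  refine Finset.sum_congr rfl fun i _ => ?_
  rw [Finset.op_sum]
  refine Finset.sum_congr rfl fun j _ => ?_
  rw [← MulOpposite.op_pow, ← MulOpposite.op_pow, ← MulOpposite.op_mul, ← MulOpposite.op_smul,
    (hab.pow_pow i j).eq]

end Alg

private theorem KEX_alg : Algebra.IsAlgebraic ℚ Qb := by
  refine ⟨fun x => ?_⟩
  obtain ⟨p, hp, hx⟩ := @Algebra.IsAlgebraic.isAlgebraic ℚ Qb _ _
    (AlgebraicClosure.instAlgebra ℚ) (AlgebraicClosure.isAlgebraic ℚ) x
  refine ⟨p, hp, ?_⟩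
  have e : (AlgebraicClosure.instAlgebra ℚ : Algebra ℚ (AlgebraicClosure ℚ)) =
      DivisionRing.toRatAlgebra := Subsingleton.elim _ _
  rw [← hx, e]

section Cat

variable {C : Type u} [Category.{v} C] [Preadditive C] [Linear ℚ C] [MonoidalCategory C]
  [SymmetricCategory C] [MonoidalPreadditive C] [MonoidalLinear ℚ C] [RightRigidCategory C]

/-- `f ↦ f ⊗ 1` -/
private def KEX_wR (X : C) : End X →ₐ[ℚ] End (X ⊗ X) where
  toFun f := (f : X ⟶ X) ▷ X
  map_one' := by exact id_whiskerRight X X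
  map_mul' f g := by exact comp_whiskerRight (g : X ⟶ X) (f : X ⟶ X) X
  map_zero' := by exact MonoidalPreadditive.zero_whiskerRight
  map_add' f g := by exact MonoidalPreadditive.add_whiskerRight (f : X ⟶ X) (g : X ⟶ X)
  commutes' r := by
    rw [Algebra.algebraMap_eq_smul_one, Algebra.algebraMap_eq_smul_one]
    change (r • 𝟙 X) ▷ X = r • 𝟙 (X ⊗ X)
    rw [MonoidalLinear.smul_whiskerRight, id_whiskerRight]

/-- `f ↦ 1 ⊗ f` -/
private def KEX_wL (X : C) : End X →ₐ[ℚ] End (X ⊗ X) where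
  toFun f := X ◁ (f : X ⟶ X)
  map_one' := by exact MonoidalCategory.whiskerLeft_id X X
  map_mul' f g := by exact MonoidalCategory.whiskerLeft_comp X (g : X ⟶ X) (f : X ⟶ X)
  map_zero' := by exact MonoidalPreadditive.whiskerLeft_zero
  map_add' f g := by exact MonoidalPreadditive.whiskerLeft_add (f : X ⟶ X) (g : X ⟶ X)
  commutes' r := by
    rw [Algebra.algebraMap_eq_smul_one, Algebra.algebraMap_eq_smul_one]
    change X ◁ (r • 𝟙 X) = r • 𝟙 (X ⊗ X)
    rw [MonoidalLinear.whiskerLeft_smul, MonoidalCategory.whiskerLeft_id]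

/-- the action on the morphisms `T ⟶ Y` -/
private def KEX_rho (T Y : C) : End Y →ₐ[ℚ] Module.End ℚ (T ⟶ Y) where
  toFun a :=
    { toFun := fun v => v ≫ (a : Y ⟶ Y)
      map_add' := fun v w => Preadditive.add_comp _ _ _ v w a
      map_smul' := fun r v => Linear.smul_comp _ _ _ r v a }
  map_one' := by
    ext v
    exact Category.comp_id v
  map_mul' a b := by
    ext v
    exact (Category.assoc v (b : Y ⟶ Y) (a : Y ⟶ Y)).symm
  map_zero' := by
    ext v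
    exact comp_zero
  map_add' a b := by
    ext v
    exact Preadditive.comp_add _ _ _ v (a : Y ⟶ Y) (b : Y ⟶ Y)
  commutes' r := by
    ext v
    rw [Algebra.algebraMap_eq_smul_one, Algebra.algebraMap_eq_smul_one]
    change v ≫ (r • 𝟙 Y) = r • v
    rw [Linear.comp_smul, Category.comp_id]

/-- the action on the morphisms `Y ⟶ T` -/
private def KEX_lam (T Y : C) : (End Y)ᵐᵒᵖ →ₐ[ℚ] Module.End ℚ (Y ⟶ T) where
  toFun a :=
    { toFun := fun v => (a.unop : Y ⟶ Y) ≫ v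
      map_add' := fun v w => Preadditive.comp_add _ _ _ (a.unop : Y ⟶ Y) v w
      map_smul' := fun r v => Linear.comp_smul _ _ _ (a.unop : Y ⟶ Y) r v }
  map_one' := by
    ext v
    exact Category.id_comp v
  map_mul' a b := by
    ext v
    exact Category.assoc (a.unop : Y ⟶ Y) (b.unop : Y ⟶ Y) v
  map_zero' := by
    ext v
    exact zero_comp
  map_add' a b := by
    ext v
    exact Preadditive.add_comp _ _ _ (a.unop : Y ⟶ Y) (b.unop : Y ⟶ Y) v
  commutes' r := by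
    ext v
    rw [Algebra.algebraMap_eq_smul_one, Algebra.algebraMap_eq_smul_one]
    change (r • 𝟙 Y) ≫ v = r • v
    rw [Linear.smul_comp, Category.id_comp]

/-- the trace as a linear map -/
private def KEX_tr (Y : C) : (Y ⟶ Y) →ₗ[ℚ] (𝟙_ C ⟶ 𝟙_ C) where
  toFun f := Mot.trace f
  map_add' f g := by
    unfold Mot.trace
    rw [MonoidalPreadditive.add_whiskerRight, Preadditive.add_comp, Preadditive.comp_add]
  map_smul' r f := by
    unfold Mot.trace
    rw [MonoidalLinear.smul_whiskerRight, Linear.smul_comp, Linear.comp_smul]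
    rfl

private theorem KEX_tau (W : MotP.Frobenius C) {Y : C} {q : ℕ} {h : ℤ[X]} (h0 : W.even Y = 0)
    (h1 : W.odd Y = (weil q h).aroots ℂ) (Ω : Finset Qb)
    (hΩ : ∀ a : Qb, a ∈ Ω ↔ aeval a (weil q h) = 0) (hnd : ((weil q h).aroots ℂ).Nodup)
    (hm : (weil q h).Monic) (n : ℕ) (r : ℚ)
    (hr : Mot.trace (Mot.component W.F Y ^ n) = r • 𝟙 (𝟙_ C)) :
    (r : Qb) = - ∑ α ∈ Ω, α ^ n := by
  have h2 := W.trace_formula Y n r hr
  rw [h0, h1] at h2
  have halg := KEX_alg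
  let ι : Qb →ₐ[ℚ] ℂ := IsAlgClosed.lift
  have h3 : (weil q h).aroots ℂ = ((weil q h).aroots Qb).map ι := by
    unfold aroots
    have h4 : (weil q h).map (algebraMap ℤ ℂ) =
        ((weil q h).map (algebraMap ℤ Qb)).map (ι : Qb →+* ℂ) := by
      rw [Polynomial.map_map]
      congr 1
      exact RingHom.ext_int _ _
    rw [h4]
    exact Polynomial.Splits.roots_map (IsAlgClosed.splits _) (ι : Qb →+* ℂ)
  have h4 : ((weil q h).aroots Qb).Nodup := by
    rw [h3] at hnd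
    exact hnd.of_map
  have h5 : (weil q h).aroots Qb = Ω.val := by
    rw [Multiset.Nodup.ext h4 Ω.nodup]
    intro a
    rw [mem_aroots', Finset.mem_val, hΩ]
    exact ⟨fun x => x.2, fun x => ⟨(hm.map _).ne_zero, x⟩⟩
  rw [h3, h5] at h2
  have h6 : ι (r : Qb) = ι (- ∑ α ∈ Ω, α ^ n) := by
    rw [map_ratCast, h2, map_neg, map_sum, Multiset.map_map]
    simp only [map_pow, Multiset.map_zero, Multiset.sum_zero, zero_sub]
    rfl
  exact ι.injective h6

end Cat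

private theorem KEX_mat (n : ℕ) (Ω : Finset Qb) (hc : Ω.card = n) (τ : ℕ → ℚ)
    (hτ : ∀ i, (τ i : Qb) = - ∑ α ∈ Ω, α ^ i) :
    (Matrix.of fun i j : Fin n => τ ((i : ℕ) + j)).det ≠ 0 := by
  classical
  let e : Fin n ≃ Ω := (Finset.equivFinOfCardEq hc).symm
  let v : Fin n → Qb := fun i => (e i : Qb)
  have hv : Function.Injective v := fun i j hij => e.injective (Subtype.ext hij)
  have h1 : (Matrix.of fun i j : Fin n => τ ((i : ℕ) + j)).map (Rat.castHom Qb) =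
      -((Matrix.vandermonde v)ᵀ * Matrix.vandermonde v) := by
    ext i j
    rw [Matrix.map_apply, Matrix.neg_apply, Matrix.mul_apply, Matrix.of_apply]
    have h2 : (Rat.castHom Qb) (τ ((i : ℕ) + j)) = (τ ((i : ℕ) + j) : Qb) := rfl
    rw [h2, hτ]
    congr 1
    rw [← Finset.sum_coe_sort, ← Equiv.sum_comp e]
    refine Finset.sum_congr rfl fun k _ => ?_
    rw [Matrix.transpose_apply, Matrix.vandermonde_apply, Matrix.vandermonde_apply, pow_add]
  intro h0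
  have h2 : ((Matrix.of fun i j : Fin n => τ ((i : ℕ) + j)).map (Rat.castHom Qb)).det = 0 := by
    have h3 := RingHom.map_det (Rat.castHom Qb) (Matrix.of fun i j : Fin n => τ ((i : ℕ) + j))
    rw [h0, map_zero] at h3
    exact h3.symm
  rw [h1, Matrix.det_neg, Matrix.det_mul, Matrix.det_transpose] at h2
  have h3 := Matrix.det_vandermonde_ne_zero_iff.2 hv
  rcases mul_eq_zero.1 h2 with h4 | h4
  · exact pow_ne_zero _ (by norm_num) h4
  · rcases mul_eq_zero.1 h4 with h5 | h5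
    · exact h3 h5
    · exact h3 h5

section Main

variable {C : Type u} [Category.{v} C] [Preadditive C] [Linear ℚ C] [MonoidalCategory C]
  [SymmetricCategory C] [MonoidalPreadditive C] [MonoidalLinear ℚ C] [RightRigidCategory C]

private theorem KEX_comm (W : MotP.Frobenius C) (Y : C) : Commute (opL W.F Y) (opR W.F Y) := by
  change Y ◁ W.F.app Y ≫ W.F.app Y ▷ Y = W.F.app Y ▷ Y ≫ Y ◁ W.F.app Y
  exact (whisker_exchange (W.F.app Y) (W.F.app Y))

/-- the element `E (F ⊗ 1, 1 ⊗ F)` -/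
private def KEX_D (W : MotP.Frobenius C) (Y : C) (n : ℕ) (E : ℕ → ℕ → ℚ) : Y ⊗ Y ⟶ Y ⊗ Y :=
  ev2 (A := End (Y ⊗ Y)) n E (opL W.F Y) (opR W.F Y)

/-- `F` on `Y ⊗ Y` -/
private theorem KEX_prod (W : MotP.Frobenius C) (Y : C) :
    (opL W.F Y * opR W.F Y : End (Y ⊗ Y)) = (W.F.app (Y ⊗ Y) : Y ⊗ Y ⟶ Y ⊗ Y) := by
  rw [(KEX_comm W Y).eq, W.F_tensor, MonoidalCategory.tensorHom_def]
  rfl

private theorem KEX_s (hIDT : S_IDT.{v}) (W : MotP.Frobenius C) {Y T : C} {q n : ℕ} (hn : 2 ≤ n)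
    {P : ℚ[X]} (hP : Squarefree P) (hroot : aeval (Mot.component W.F Y) P = 0)
    {E : ℕ → ℕ → ℚ}
    (hE : ∀ α β : Qb, aeval α P = 0 → aeval β P = 0 → α * β = q → ev2 n E α β = 1)
    (hT : W.F.app T = (q : ℚ) • 𝟙 T) (s : T ⟶ Y ⊗ Y) :
    s ≫ KEX_D W Y n E = s := by
  have hL : aeval (opL W.F Y) P = 0 := by
    have := aeval_algHom_apply (KEX_wR Y) (Mot.component W.F Y) P
    rw [hroot, map_zero] at this
    exact this
  have hR : aeval (opR W.F Y) P = 0 := by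
    have := aeval_algHom_apply (KEX_wL Y) (Mot.component W.F Y) P
    rw [hroot, map_zero] at this
    exact this
  refine KEX_fix hIDT (KEX_rho T (Y ⊗ Y)) (KEX_comm W Y) hP hL hR hn (q := q) hE ?_
  rw [KEX_prod]
  change s ≫ W.F.app (Y ⊗ Y) = (q : ℚ) • s
  have h1 : s ≫ W.F.app (Y ⊗ Y) = W.F.app T ≫ s := W.F.naturality s
  have h2 : ((q : ℚ) • 𝟙 T) ≫ s = (q : ℚ) • s := by rw [Linear.smul_comp, Category.id_comp]
  rw [h1, hT]
  exact h2

private theorem KEX_r (hIDT : S_IDT.{v}) (W : MotP.Frobenius C) {Y T : C} {q n : ℕ} (hn : 2 ≤ n)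
    {P : ℚ[X]} (hP : Squarefree P) (hroot : aeval (Mot.component W.F Y) P = 0)
    {E : ℕ → ℕ → ℚ}
    (hE : ∀ α β : Qb, aeval α P = 0 → aeval β P = 0 → α * β = q → ev2 n E α β = 1)
    (hT : W.F.app T = (q : ℚ) • 𝟙 T) (r : Y ⊗ Y ⟶ T) :
    KEX_D W Y n E ≫ r = r := by
  have hL : aeval (opL W.F Y) P = 0 := by
    have := aeval_algHom_apply (KEX_wR Y) (Mot.component W.F Y) P
    rw [hroot, map_zero] at this
    exact this
  have hR : aeval (opR W.F Y) P = 0 := by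
    have := aeval_algHom_apply (KEX_wL Y) (Mot.component W.F Y) P
    rw [hroot, map_zero] at this
    exact this
  have hc := KEX_comm W Y
  have h2 := KEX_fix hIDT (KEX_lam T (Y ⊗ Y)) (a := MulOpposite.op (opL W.F Y))
    (b := MulOpposite.op (opR W.F Y)) hc.op hP
    (by rw [KEX_op_aeval, hL, MulOpposite.op_zero])
    (by rw [KEX_op_aeval, hR, MulOpposite.op_zero]) hn (q := q) (x := r) hE (by
      rw [← MulOpposite.op_mul, ← hc.eq, KEX_prod]
      change W.F.app (Y ⊗ Y) ≫ r = (q : ℚ) • r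
      have h1 : r ≫ W.F.app T = W.F.app (Y ⊗ Y) ≫ r := W.F.naturality r
      rw [← h1, hT, Linear.comp_smul, Category.comp_id])
  rw [KEX_op_ev2 hc] at h2
  exact h2

private theorem KEX_main (hIDT : S_IDT.{v}) (W : MotP.Frobenius C) (Y T : C) (q n : ℕ)
    (hn : 2 ≤ n) (P : ℚ[X]) (hP : Squarefree P) (hroot : aeval (Mot.component W.F Y) P = 0)
    (Ω : Finset Qb) (hΩ : ∀ a : Qb, aeval a P = 0 ↔ a ∈ Ω) (hcard : Ω.card = n)
    (hΩq : ∀ a ∈ Ω, a ≠ 0 ∧ (q : Qb) / a ∈ Ω)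
    (τ : ℕ → ℚ) (hτ0 : ∀ k, Mot.trace (Mot.component W.F Y ^ k) = τ k • 𝟙 (𝟙_ C))
    (hτ : ∀ k, (τ k : Qb) = - ∑ α ∈ Ω, α ^ k)
    (hT : W.F.app T = (q : ℚ) • 𝟙 T)
    (hb1 : ∀ (f g : Y ⟶ Y) (s t : ℚ), Mot.trace f = s • 𝟙 (𝟙_ C) → Mot.trace g = t • 𝟙 (𝟙_ C) →
      Mot.trace (f ⊗ₘ g) = (s * t) • 𝟙 (𝟙_ C))
    (hb2 : ∀ (s : T ⟶ Y ⊗ Y) (r : Y ⊗ Y ⟶ T), Mot.trace (r ≫ s) = Mot.trace (s ≫ r))
    (hT1 : Mot.trace (𝟙 T) = 𝟙 (𝟙_ C))
    (kim : ∀ e : Y ⊗ Y ⟶ Y ⊗ Y, e ≫ e = e → Mot.trace e = 0 → e = 0)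
    (s : ℕ → (T ⟶ Y ⊗ Y)) (r : ℕ → (Y ⊗ Y ⟶ T)) (hsr : ∀ i j, s i ≫ r j = τ (i + j) • 𝟙 T)
    (E : ℕ → ℕ → ℚ) (hE1 : ∀ a ∈ Ω, ∀ b ∈ Ω, b = (q : Qb) / a → ev2 n E a b = 1)
    (hE0 : ∀ a ∈ Ω, ∀ b ∈ Ω, b ≠ (q : Qb) / a → ev2 n E a b = 0) :
    ∃ (s' : Fin n → (T ⟶ Y ⊗ Y)) (r' : Fin n → (Y ⊗ Y ⟶ T)),
      KEX_D W Y n E = ∑ k, r' k ≫ s' k := by
  classical
  have hE : ∀ α β : Qb, aeval α P = 0 → aeval β P = 0 → α * β = q → ev2 n E α β = 1 := by
    intro α β hα hβ h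
    rw [hΩ] at hα hβ
    refine hE1 α hα β hβ ?_
    rw [← h, mul_div_cancel_left₀ _ (hΩq α hα).1]
  have hE' : ∀ α β : Qb, aeval α P = 0 → aeval β P = 0 → α * β ≠ q → ev2 n E α β = 0 := by
    intro α β hα hβ h
    rw [hΩ] at hα hβ
    refine hE0 α hα β hβ fun h2 => h ?_
    rw [h2, mul_div_cancel₀ _ (hΩq α hα).1]
  have hL : aeval (opL W.F Y) P = 0 := by
    have := aeval_algHom_apply (KEX_wR Y) (Mot.component W.F Y) P
    rw [hroot, map_zero] at this
    exact this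
  have hR : aeval (opR W.F Y) P = 0 := by
    have := aeval_algHom_apply (KEX_wL Y) (Mot.component W.F Y) P
    rw [hroot, map_zero] at this
    exact this
  set DD : Y ⊗ Y ⟶ Y ⊗ Y := KEX_D W Y n E with hDD
  have hDD2 : DD ≫ DD = DD := KEX_idem hIDT (KEX_comm W Y) hP hL hR hn hE hE'
  have hs : ∀ f : T ⟶ Y ⊗ Y, f ≫ DD = f := KEX_s hIDT W hn hP hroot hE hT
  have hr : ∀ f : Y ⊗ Y ⟶ T, DD ≫ f = f := KEX_r hIDT W hn hP hroot hE hT
  -- the trace of `DD`
  have htr : Mot.trace DD = (n : ℚ) • 𝟙 (𝟙_ C) := by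
    have h1 : Mot.trace DD = ∑ i ∈ Finset.range n, ∑ j ∈ Finset.range n,
        E i j • ((τ i * τ j) • 𝟙 (𝟙_ C)) := by
      change KEX_tr (Y ⊗ Y) (∑ i ∈ Finset.range n, ∑ j ∈ Finset.range n,
        E i j • ((opL W.F Y ^ i * opR W.F Y ^ j : End (Y ⊗ Y)) : Y ⊗ Y ⟶ Y ⊗ Y)) = _
      rw [map_sum]
      refine Finset.sum_congr rfl fun i _ => ?_
      rw [map_sum]
      refine Finset.sum_congr rfl fun j _ => ?_
      rw [map_smul]
      congr 1
      have h2 : (opL W.F Y ^ i * opR W.F Y ^ j : End (Y ⊗ Y)) =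
          ((Mot.component W.F Y ^ i : End Y) : Y ⟶ Y) ⊗ₘ
            ((Mot.component W.F Y ^ j : End Y) : Y ⟶ Y) := by
        have h3 : opL W.F Y ^ i = KEX_wR Y (Mot.component W.F Y ^ i) := by
          rw [map_pow]
          rfl
        have h4 : opR W.F Y ^ j = KEX_wL Y (Mot.component W.F Y ^ j) := by
          rw [map_pow]
          rfl
        rw [h3, h4]
        exact (MonoidalCategory.tensorHom_def' _ _).symm
      rw [h2]
      exact hb1 _ _ _ _ (hτ0 i) (hτ0 j)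
    have h2 : (∑ i ∈ Finset.range n, ∑ j ∈ Finset.range n, E i j * (τ i * τ j) : ℚ) = n := by
      have h3 : ((∑ i ∈ Finset.range n, ∑ j ∈ Finset.range n, E i j * (τ i * τ j) : ℚ) : Qb) =
          ∑ α ∈ Ω, ∑ β ∈ Ω, ev2 n E α β := by
        push_cast
        unfold ev2
        have h4 : ∀ i j : ℕ, (E i j : Qb) * ((τ i : Qb) * (τ j : Qb)) =
            ∑ α ∈ Ω, ∑ β ∈ Ω, E i j • (α ^ i * β ^ j) := by
          intro i j
          rw [hτ, hτ, neg_mul_neg, Finset.sum_mul_sum, Finset.mul_sum]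
          refine Finset.sum_congr rfl fun α _ => ?_
          rw [Finset.mul_sum]
          refine Finset.sum_congr rfl fun β _ => ?_
          rw [Rat.smul_def]
        simp only [h4]
        have h5 : ∀ i : ℕ, ∑ j ∈ Finset.range n, ∑ α ∈ Ω, ∑ β ∈ Ω, E i j • (α ^ i * β ^ j) =
            ∑ α ∈ Ω, ∑ β ∈ Ω, ∑ j ∈ Finset.range n, E i j • (α ^ i * β ^ j) := by
          intro i
          rw [Finset.sum_comm]
          refine Finset.sum_congr rfl fun α _ => ?_
          rw [Finset.sum_comm]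
        simp only [h5]
        rw [Finset.sum_comm]
        refine Finset.sum_congr rfl fun α _ => ?_
        rw [Finset.sum_comm]
      have h4 : ∑ α ∈ Ω, ∑ β ∈ Ω, ev2 n E α β = (n : Qb) := by
        have h5 : ∀ α ∈ Ω, ∑ β ∈ Ω, ev2 n E α β = 1 := by
          intro α hα
          rw [Finset.sum_eq_single ((q : Qb) / α) (fun β hβ hne => hE0 α hα β hβ hne)
            (fun h => absurd (hΩq α hα).2 h)]
          exact hE1 α hα _ (hΩq α hα).2 rfl
        rw [Finset.sum_congr rfl h5]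
        simp [hcard]
      rw [h4] at h3
      exact_mod_cast h3
    rw [h1, ← h2]
    simp only [Finset.sum_smul, smul_smul]
  -- the matrix
  let G : Matrix (Fin n) (Fin n) ℚ := Matrix.of fun i j => τ ((i : ℕ) + j)
  have hG : IsUnit G.det := isUnit_iff_ne_zero.2 (KEX_mat n Ω hcard τ hτ)
  have hcG : G⁻¹ * G = 1 := Matrix.nonsing_inv_mul G hG
  let s' : Fin n → (T ⟶ Y ⊗ Y) := fun i => ∑ j : Fin n, G⁻¹ i j • s j
  let r' : Fin n → (Y ⊗ Y ⟶ T) := fun i => r i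
  have hsr' : ∀ i k, s' i ≫ r' k = (if i = k then (1 : ℚ) else 0) • 𝟙 T := by
    intro i k
    change (∑ j : Fin n, G⁻¹ i j • s j) ≫ r k = _
    rw [Preadditive.sum_comp]
    have h1 : ∀ j : Fin n, (G⁻¹ i j • s j) ≫ r k = (G⁻¹ i j * G j k) • 𝟙 T := by
      intro j
      rw [Linear.smul_comp, hsr, smul_smul]
      rfl
    simp only [h1]
    rw [← Finset.sum_smul, ← Matrix.mul_apply, hcG, Matrix.one_apply]
  let e : Y ⊗ Y ⟶ Y ⊗ Y := ∑ k, r' k ≫ s' k
  have he2 : e ≫ e = e := by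
    change (∑ k, r' k ≫ s' k) ≫ (∑ k, r' k ≫ s' k) = ∑ k, r' k ≫ s' k
    rw [Preadditive.sum_comp]
    refine Finset.sum_congr rfl fun i _ => ?_
    rw [Preadditive.comp_sum, Finset.sum_eq_single i]
    · rw [Category.assoc, ← Category.assoc (s' i), hsr', if_pos rfl, one_smul, Category.id_comp]
    · intro k _ hk
      rw [Category.assoc, ← Category.assoc (s' i), hsr', if_neg (Ne.symm hk), zero_smul,
        Limits.zero_comp, Limits.comp_zero]
    · intro h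
      exact absurd (Finset.mem_univ i) h
  have htre : Mot.trace e = (n : ℚ) • 𝟙 (𝟙_ C) := by
    change KEX_tr (Y ⊗ Y) (∑ k, r' k ≫ s' k) = _
    rw [map_sum]
    have h1 : ∀ k : Fin n, KEX_tr (Y ⊗ Y) (r' k ≫ s' k) = 𝟙 (𝟙_ C) := by
      intro k
      change Mot.trace (r' k ≫ s' k) = _
      rw [hb2, hsr', if_pos rfl, one_smul, hT1]
    rw [Finset.sum_congr rfl fun k _ => h1 k, Finset.sum_const, Finset.card_univ,
      Fintype.card_fin, Nat.cast_smul_eq_nsmul]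
  have heD : e ≫ DD = e := by
    change (∑ k, r' k ≫ s' k) ≫ DD = ∑ k, r' k ≫ s' k
    rw [Preadditive.sum_comp]
    exact Finset.sum_congr rfl fun k _ => by rw [Category.assoc, hs]
  have hDe : DD ≫ e = e := by
    change DD ≫ (∑ k, r' k ≫ s' k) = ∑ k, r' k ≫ s' k
    rw [Preadditive.comp_sum]
    exact Finset.sum_congr rfl fun k _ => by rw [← Category.assoc, hr]
  have hk := kim (DD - e) (by
    rw [Preadditive.comp_sub, Preadditive.sub_comp, Preadditive.sub_comp, hDD2, heD, hDe, he2]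
    abel) (by
    change KEX_tr (Y ⊗ Y) (DD - e) = 0
    rw [map_sub]
    change Mot.trace DD - Mot.trace e = 0
    rw [htr, htre, sub_self])
  exact ⟨s', r', sub_eq_zero.1 hk⟩

end Main

/-- the key identity -/
theorem t_KEX : S_KEX.{v, u} := by
  classical
  intro C _ _ _ _ _ _ _ _ W q S D h E hq hS hd hm hF hE1 hE0
  obtain ⟨hwm, -, hwr, hwf⟩ := (t_WEI t_OMB) q h hq hm
  obtain ⟨hsf, hnd⟩ := hwf hF
  obtain ⟨hfin, hbar, -, -, -⟩ := t_OMB _ q h hq hm rfl
  obtain ⟨hb1, hb2, hb3⟩ := t_KEB C W (D.M h) D.T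
  obtain ⟨s, r, hsr⟩ := t_KEA C W (D.M h) D.T (D.pol h hS)
  let Ω : Finset Qb := hfin.toFinset
  have hΩ : ∀ a : Qb, a ∈ Ω ↔ a ∈ Om q h := fun a => hfin.mem_toFinset
  have hcard : Ω.card = 2 * h.natDegree := by
    rw [← hF.1, Set.ncard_eq_toFinset_card _ hfin]
  -- the traces
  let τ : ℕ → ℚ := fun k => (W.scalar (Mot.trace (Mot.component W.F (D.M h) ^ k))).choose
  have hτ0 : ∀ k, Mot.trace (Mot.component W.F (D.M h) ^ k) = τ k • 𝟙 (𝟙_ C) :=
    fun k => (W.scalar (Mot.trace (Mot.component W.F (D.M h) ^ k))).choose_spec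
  have hτ : ∀ k, (τ k : Qb) = - ∑ α ∈ Ω, α ^ k := fun k =>
    KEX_tau W (D.even h hS) (D.odd h hS) Ω (fun a => by rw [hΩ, hwr]) hnd hwm k _ (hτ0 k)
  -- the polynomial
  let P : ℚ[X] := (weil q h).map (Int.castRingHom ℚ)
  have hP : ∀ a : Qb, aeval a P = 0 ↔ a ∈ Ω := by
    intro a
    rw [hΩ, ← hwr a]
    have : aeval a P = aeval a (weil q h) := by
      show aeval a ((weil q h).map (algebraMap ℤ ℚ)) = _
      rw [aeval_map_algebraMap]
    rw [this]
  have hroot : aeval (Mot.component W.F (D.M h)) P = 0 := by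
    have : aeval (Mot.component W.F (D.M h)) P =
        aeval (Mot.component W.F (D.M h)) (weil q h) := by
      show aeval (Mot.component W.F (D.M h)) ((weil q h).map (algebraMap ℤ ℚ)) = _
      rw [aeval_map_algebraMap]
    rw [this]
    exact D.root h hS
  have hne : Mot.trace (𝟙 (D.M h)) ≠ 0 := by
    have h1 : Mot.trace (𝟙 (D.M h)) = τ 0 • 𝟙 (𝟙_ C) := hτ0 0
    have h2 : τ 0 ≠ 0 := by
      intro h3
      have h4 := hτ 0
      rw [h3] at h4
      simp only [pow_zero, Finset.sum_const, hcard, Rat.cast_zero, nsmul_eq_mul, mul_one] at h4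
      have h5 : ((2 * h.natDegree : ℕ) : Qb) = 0 := neg_eq_zero.1 h4.symm
      have h6 : (2 * h.natDegree : ℕ) = 0 := by exact_mod_cast h5
      omega
    rw [h1]
    exact smul_ne_zero h2 W.unit_ne
  obtain ⟨s', r', h'⟩ := KEX_main t_IDT W (D.M h) D.T q (2 * h.natDegree) (by omega) P hsf hroot Ω
    hP hcard (fun a ha => ⟨((hΩ a).1 ha).1, (hΩ _).2 (hbar a ((hΩ a).1 ha)).1⟩) τ hτ0 hτ D.frobT
    hb1 hb2 (hb3 (D.pol h hS) hne) (D.kim h hS) s r (fun i j => hsr i j _ (hτ0 (i + j))) E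
    (fun a ha b hb => hE1 a ((hΩ a).1 ha) b ((hΩ b).1 hb))
    (fun a ha b hb => hE0 a ((hΩ a).1 ha) b ((hΩ b).1 hb))
  exact ⟨_, s', r', h'⟩

end

end Pool.Agent.WAE
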