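import Pool.Agent.WAE.St
import Pool.Agent.TJ2.FROB

/-!
# Module ORR (MP_cb388a_ag, helper83)

A ring homomorphism from the algebraic integers to a field of characteristic `p`, and the ordinary
Weil numbers.
-/

open Polynomial

namespace Pool.Agent.WAE

open Pool.Agent.TJ2

noncomputable section

theorem t_ORR : S_ORR := by
  intro q hq
  have hq1 : q ≠ 1 := hq.ne_one
  have hp : q.minFac.Prime := Nat.minFac_prime hq1
  obtain ⟨k₀, hk₀, hchar, ρ, -, -⟩ := t_FROB q.minFac hp ∅ Set.finite_empty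
    (fun x hx => absurd hx (Set.notMem_empty x))
  have hq0 : (q : k₀) = 0 := by
    rw [CharP.cast_eq_zero_iff k₀ q.minFac q]
    exact q.minFac_dvd
  refine ⟨k₀, hk₀, ρ, hq0, ?_⟩
  intro g h hh a ha h1 h2
  have hprod : (⟨a, h1⟩ : integralClosure ℤ Qb) * ⟨(q : Qb) / a, h2⟩ = (q : integralClosure ℤ Qb) := by
    apply Subtype.ext
    have : a * ((q : Qb) / a) = q := mul_div_cancel₀ (q : Qb) ha.1
    simpa using this
  have hρ : ρ ⟨a, h1⟩ * ρ ⟨(q : Qb) / a, h2⟩ = 0 := by
    rw [← map_mul, hprod, map_natCast, hq0]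
  constructor
  · intro hA hB
    apply hh.2
    have hc : aeval ((⟨a, h1⟩ : integralClosure ℤ Qb) + ⟨(q : Qb) / a, h2⟩) h = 0 := by
      apply Subtype.ext
      have e := Polynomial.aeval_algebraMap_apply Qb
        ((⟨a, h1⟩ : integralClosure ℤ Qb) + ⟨(q : Qb) / a, h2⟩) h
      have e2 : algebraMap (integralClosure ℤ Qb) Qb
          ((⟨a, h1⟩ : integralClosure ℤ Qb) + ⟨(q : Qb) / a, h2⟩) = a + (q : Qb) / a := rfl
      rw [e2, ha.2] at e
      exact e.symm
    have hd : ρ (aeval ((⟨a, h1⟩ : integralClosure ℤ Qb) + ⟨(q : Qb) / a, h2⟩) h) = 0 := by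
      rw [hc, map_zero]
    rw [Polynomial.aeval_def, Polynomial.hom_eval₂, map_add, hA, hB, add_zero,
      Polynomial.eval₂_at_zero] at hd
    have he : ((h.coeff 0 : ℤ) : k₀) = 0 := by
      rw [← hd]
      simp
    exact (CharP.intCast_eq_zero_iff k₀ q.minFac (h.coeff 0)).mp he
  · intro hB
    rcases mul_eq_zero.mp hρ with h' | h'
    · exact h'
    · exact absurd h' hB

end

end Pool.Agent.WAE
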