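import Pool.Agent.WAE.St
import Pool.Agent.WAV.PRJ

/-!
# Module NTX (MP_cb388a_ag): no numerically trivial sections
-/

open CategoryTheory MonoidalCategory BraidedCategory Limits Polynomial

universe v u

namespace Pool.Agent.WAE

open Pool.Agent.TJ2 Pool.Agent.WAV

noncomputable section

section

variable {C : Type u} [Category.{v} C] [Preadditive C] [Linear ℚ C] [MonoidalCategory C]
  [SymmetricCategory C] [MonoidalPreadditive C] [MonoidalLinear ℚ C] [RightRigidCategory C]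

/-- the effect of a polynomial in the Frobenius on a section -/
lemma NTX_eval (W : MotP.Frobenius C) {Z : C} (f : 𝟙_ C ⟶ Z) (Q : ℚ[X]) :
    f ≫ ((aeval (Mot.component W.F Z) Q : End Z) : Z ⟶ Z) = Q.eval 1 • f := by
  have h1 := aeval_nat W f Q
  have h2 : Mot.component W.F (𝟙_ C) = algebraMap ℚ (End (𝟙_ C)) 1 := by
    rw [map_one]
    exact W.F_unit
  have h3 : aeval (Mot.component W.F (𝟙_ C)) Q = algebraMap ℚ (End (𝟙_ C)) (Q.eval 1) := by
    rw [h2, aeval_algebraMap_apply, coe_aeval_eq_eval]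
  rw [← h1, h3]
  change (Q.eval 1 • 𝟙 (𝟙_ C)) ≫ f = _
  rw [Linear.smul_comp, Category.id_comp]

lemma NTX_thru {Z : C} (f : 𝟙_ C ⟶ Z) (hf : ∀ g : Z ⟶ 𝟙_ C, f ≫ g = 0) (x : Z ⟶ Z)
    (hx : x ∈ thru (𝟙_ C) Z Z) : f ≫ x = 0 := by
  induction hx using Submodule.span_induction with
  | mem x h =>
    obtain ⟨r, s, rfl⟩ := h
    rw [← Category.assoc, hf r, Limits.zero_comp]
  | zero => exact Limits.comp_zero
  | add a b _ _ ha hb => rw [Preadditive.comp_add, ha, hb, add_zero]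
  | smul r a _ ha => rw [Linear.comp_smul, ha, smul_zero]

end

theorem t_NTX (hPRX : S_PRX.{v, u}) : S_NTX.{v, u} := by
  intro C _ _ _ _ _ _ _ _ W q D hq Z hZ f hf
  obtain ⟨Q, hQ0, -, hQ⟩ := hPRX C W q D hq Z hZ 0
  have h1 : f ≫ ((aeval (Mot.component W.F Z) Q : End Z) : Z ⟶ Z) = 0 := NTX_thru f hf _ hQ
  rw [NTX_eval] at h1
  rw [pow_zero] at hQ0
  exact (smul_eq_zero.1 h1).resolve_left hQ0

end

end Pool.Agent.WAE
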