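import Pool.Agent.WAE.St
import Pool.Agent.WAV.PRJ

/-!
# Module PRX (MP_cb388a_ag): the eigenvalue `q ^ n` of Frobenius on a generated object
-/

open CategoryTheory MonoidalCategory BraidedCategory Limits Polynomial

universe v u

namespace Pool.Agent.WAE

open Pool.Agent.TJ2 Pool.Agent.WAV

noncomputable section

section

variable {C : Type u} [Category.{v} C] [Preadditive C] [Linear ℚ C] [MonoidalCategory C]
  [SymmetricCategory C] [MonoidalPreadditive C] [MonoidalLinear ℚ C] [RightRigidCategory C]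

theorem PRX_frob_T' (W : MotP.Frobenius C) {q : ℕ} {S : Set ℤ[X]} (D : AVL W q S) (hq : 2 ≤ q) :
    W.F.app D.T' = (q : ℚ)⁻¹ • 𝟙 D.T' := by
  obtain ⟨i⟩ := D.unitT
  have hq0 : (q : ℚ) ≠ 0 := by
    have : q ≠ 0 := by omega
    exact_mod_cast this
  have h1 : W.F.app (D.T ⊗ D.T') = (1 : ℚ) • 𝟙 (D.T ⊗ D.T') := by
    apply MON_frob_iso W.F i
    rw [W.F_unit, one_smul]
  have h2 : W.F.app (D.T ⊗ D.T') = D.T ◁ ((q : ℚ) • W.F.app D.T') := by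
    rw [W.F_tensor, D.frobT, MonoidalCategory.tensorHom_def]
    simp
  have h3 : D.T ◁ ((q : ℚ) • W.F.app D.T') = D.T ◁ 𝟙 D.T' := by
    rw [← h2, h1, one_smul, whiskerLeft_id]
  have h4 := MON_faithful ((β_ D.T' D.T) ≪≫ i) _ _ h3
  rw [← h4, smul_smul, inv_mul_cancel₀ hq0]
  exact (one_smul ℚ _).symm

end

theorem t_PRX (hINX : S_INX) (hRPX : S_RPX) (hINW : S_INW.{v, u}) (hUN1 : S_UN1.{v, u})
    (hFAX : S_FAX.{v, u}) (hSSX : S_SSX.{v, u}) : S_PRX.{v, u} := by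
  classical
  intro C _ _ _ _ _ _ _ _ W q D hq Y hY n
  have hq2 : 2 ≤ q := hq.two_le
  have hq0 : (q : ℚ) ≠ 0 := by
    have : q ≠ 0 := by omega
    exact_mod_cast this
  obtain ⟨S₀, hS₀, hrep, hsep⟩ := hRPX q (by omega)
  have hS₀FO : S₀ ⊆ FO q := fun h hh => (hS₀ hh).1
  have hind : ∀ (l : List (ℤ[X] × Qb)), (∀ x ∈ l, x.1 ∈ S₀ ∧ x.2 ∈ Om q x.1) →
      ∀ (N : ℕ) (k : ℤ), 1 ≤ N → (l.map Prod.snd).prod ^ N = (q : Qb) ^ k →
        ∀ x ∈ l, (x.1, (q : Qb) / x.2) ∈ l := by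
    intro l hl N k hN hk x hx
    have h1 := hINX q hq S₀ hS₀FO hsep l hl N k hN hk x.1 x.2
    refine List.count_pos_iff.1 (h1 ▸ ?_)
    exact List.count_pos_iff.2 hx
  obtain ⟨hU1, hU2, hU3, -⟩ := hUN1 C W q (Sel1 q) D hq2
  have hF := hFAX C W q (Sel1 q) S₀ D D.UN hq2 (fun h hh => hh.1) hS₀ hind hU1 hU2 hU3
  have hS := hSSX C W q (Sel1 q) D hq2 (fun h hh => hh.1)
  have hDom : ∀ Z, Gen D.Obj Z → Dom (D.WN S₀) Z := fun Z hZ =>
    hINW C W q (Sel1 q) S₀ D hq2 hS₀ hrep Z hZ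
  have hFac : ∀ Z, Gen D.Obj Z → Fac W Z := by
    intro Z hZ
    refine Fac_dom W (P := D.WN S₀) ?_ (hDom Z hZ)
    rintro Y ⟨U, l, hU, hl, ⟨i⟩⟩
    exact Fac_iso W i (hF U hU l hl)
  have hSsm : Ssm W Y := by
    refine Ssm_dom W (P := D.WN S₀) ?_ (hDom Y hY)
    rintro Y ⟨U, l, hU, hl, ⟨i⟩⟩
    exact Ssm_iso W i (hS U (hU1 U hU) l fun h hh => hS₀ (hl h hh))
  -- the twisting objects
  obtain ⟨i0⟩ := D.unitT
  have hT'gen : Gen D.Obj D.T' := by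
    obtain ⟨k⟩ := MON_dual i0 ((β_ D.T' D.T) ≪≫ i0)
    exact Gen.summand (D.T)ᘁ D.T' k.inv k.hom k.inv_hom_id (Gen.dual _ (Gen.of _ (Or.inl rfl)))
  have hT'n : Gen D.Obj (Mot.T D.T' n) := by
    induction n with
    | zero => exact Gen.unit
    | succ n ih => exact Gen.tensor _ _ ih hT'gen
  obtain ⟨j⟩ : Nonempty (Mot.T D.T' n ⊗ Mot.T D.T n ≅ 𝟙_ C) := by
    rw [← toSkeleton_eq_toSkeleton_iff, Skeleton.toSkeleton_tensorObj, MON_sk_T, MON_sk_T,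
      ← mul_pow]
    have h1 : toSkeleton D.T' * toSkeleton D.T = 1 := by
      rw [mul_comm, ← Skeleton.toSkeleton_tensorObj, Skeleton.one_eq]
      exact toSkeleton_eq_toSkeleton_iff.mpr ⟨i0⟩
    rw [h1, one_pow]
    rfl
  have hE' : W.F.app (Mot.T D.T' n) = ((q : ℚ) ^ n)⁻¹ • 𝟙 (Mot.T D.T' n) := by
    rw [← inv_pow]
    exact MON_frob_T W _ (PRX_frob_T' W D hq2) n
  -- the polynomial
  obtain ⟨⟨P, hP0, hP⟩, hss⟩ := id hSsm
  obtain ⟨Q, hQ1, hQ2⟩ := Polynomial.exists_eq_pow_rootMultiplicity_mul_and_not_dvd P hP0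
    ((q : ℚ) ^ n)
  rw [hQ1] at hP
  have h1 := ssm_mult W hSsm _ Q _ hP
  refine ⟨Q, fun h0 => hQ2 (Polynomial.dvd_iff_isRoot.2 h0), h1, ?_⟩
  refine fac_twist W (Mot.T D.T n) (Mot.T D.T' n) j _ (pow_ne_zero n hq0) hE' Y
    (hFac _ (Gen.tensor _ _ hY hT'n)) Y _ ?_
  rw [sub_mul, map_sub, mul_comm Polynomial.X Q, map_mul, aeval_X, map_mul, aeval_C,
    sub_eq_zero] at h1
  rw [← fr_nat]
  refine Eq.trans (show _ = _ from h1) ?_
  change (((aeval (Mot.component W.F Y) Q : End Y) : Y ⟶ Y) ≫ ((q : ℚ) ^ n • 𝟙 Y)) = _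
  rw [Linear.comp_smul, Category.comp_id]

end

end Pool.Agent.WAE
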