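import Pool.Agent.WAE.St
import Pool.Agent.TJ2.FULC

/-!
# Block WAE, module RPX: representatives for geometric isogeny
-/

open Polynomial IntermediateField

namespace Pool.Agent.WAE

open Pool.Agent.TJ2

noncomputable section

lemma RPX_refl {q : ℕ} {h : ℤ[X]} (hh : h ∈ FO q) : GI q h h := by
  have h1 : (Om q h).ncard = 2 * h.natDegree := hh.2.2.1
  have h2 : 1 ≤ h.natDegree := hh.1
  have h3 : (Om q h).Nonempty := by
    by_contra hne
    rw [Set.not_nonempty_iff_eq_empty] at hne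
    rw [hne, Set.ncard_empty] at h1
    omega
  obtain ⟨a, ha⟩ := h3
  exact ⟨1, le_refl 1, a, ha, a, ha, rfl⟩

lemma RPX_symm {q : ℕ} {h h' : ℤ[X]} (hh : GI q h h') : GI q h' h := by
  obtain ⟨N, hN, a, ha, a', ha', e⟩ := hh
  exact ⟨N, hN, a', ha', a, ha, e.symm⟩

lemma RPX_trans {q : ℕ} (hq : 1 ≤ q) {h h' h'' : ℤ[X]} (hF : h ∈ FO q) (hF' : h' ∈ FO q)
    (h1 : GI q h h') (h2 : GI q h' h'') : GI q h h'' := by
  obtain ⟨N, hN, a, ha, a', ha', e⟩ := h1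
  obtain ⟨M, hM, b', hb', b'', hb'', e'⟩ := h2
  have hm : h.Monic := hF.2.1.1.1
  have hm' : h'.Monic := hF'.2.1.1.1
  obtain ⟨σ, hσ⟩ := (t_FULC q h' hq hm' hF'.2.2).1 a' ha' b' hb'
  have hσa : σ a ∈ Om q h := (t_OMB h.natDegree q h hq hm rfl).2.2.1 a ha σ
  refine ⟨N * M, Nat.mul_pos hN hM, σ a, hσa, b'', hb'', ?_⟩
  calc σ a ^ (N * M) = (σ (a ^ N)) ^ M := by rw [pow_mul, map_pow]
    _ = (b' ^ N) ^ M := by rw [e, map_pow, hσ]
    _ = (b' ^ M) ^ N := by rw [← pow_mul, ← pow_mul, mul_comm]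
    _ = b'' ^ (N * M) := by rw [e', ← pow_mul, mul_comm]

theorem t_RPX : S_RPX := by
  classical
  intro q hq
  let s : Setoid {h : ℤ[X] // h ∈ Sel1 q} :=
    { r := fun x y => GI q x.1 y.1
      iseqv := ⟨fun x => RPX_refl x.2.1, fun hxy => RPX_symm hxy,
        fun {x y z} hxy hyz => RPX_trans hq x.2.1 y.2.1 hxy hyz⟩ }
  refine ⟨{h | ∃ c : Quotient s, h = (Quotient.out c).1}, ?_, ?_, ?_⟩
  · rintro h ⟨c, rfl⟩
    exact (Quotient.out c).2
  · intro h hh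
    refine ⟨(Quotient.out (Quotient.mk s ⟨h, hh⟩)).1, ⟨_, rfl⟩, ?_⟩
    exact Quotient.mk_out (s := s) ⟨h, hh⟩
  · rintro h ⟨c, rfl⟩ h' ⟨c', rfl⟩ a ha a' ha' he
    have h1 : GI q (Quotient.out c).1 (Quotient.out c').1 :=
      (Quotient.out c).2.2 _ (Quotient.out c').2.1 a ha a' ha' he
    have h2 : c = c' := by
      rw [← Quotient.out_eq c, ← Quotient.out_eq c']
      exact Quotient.sound (s := s) h1
    rw [h2]

end

end Pool.Agent.WAE
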