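import Pool.Agent.WAE.PRY
import Pool.Agent.WAE.RPX
import Pool.Agent.TJ3.GIS

/-!
# Independent representatives and the criterion on sign vectors (MP_cb388a_ag, helper51)

For `S ⊆ FO q`: there are independent representatives (`Rep q S`) if and only if `S` satisfies the
criterion `TJ3.Crit`.
-/

open Polynomial IntermediateField

namespace Pool.Agent.WAE

open Pool.Agent.TJ2

noncomputable section

lemma GI_iff {q : ℕ} {h h' : ℤ[X]} : GI q h h' ↔ TJ3.GIso q h h' := by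
  constructor
  · rintro ⟨N, hN, a, ha, a', ha', e⟩
    exact ⟨a, ha, a', ha', N, hN, e⟩
  · rintro ⟨a, ha, a', ha', N, hN, e⟩
    exact ⟨N, hN, a, ha, a', ha', e⟩

/-- representatives for geometric isogeny -/
theorem exists_reps {q : ℕ} (hq : 1 ≤ q) (S : Set ℤ[X]) (hS : S ⊆ FO q) :
    ∃ S₀ : Set ℤ[X], S₀ ⊆ S ∧ (∀ h ∈ S, ∃ h₀ ∈ S₀, GI q h₀ h) ∧
      ∀ h ∈ S₀, ∀ h' ∈ S₀, GI q h h' → h = h' := by
  classical
  let s : Setoid {h : ℤ[X] // h ∈ S} :=
    { r := fun x y => GI q x.1 y.1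
      iseqv := ⟨fun x => RPX_refl (hS x.2), fun hxy => RPX_symm hxy,
        fun {x y z} hxy hyz => RPX_trans hq (hS x.2) (hS y.2) hxy hyz⟩ }
  refine ⟨{h | ∃ c : Quotient s, h = (Quotient.out c).1}, ?_, ?_, ?_⟩
  · rintro h ⟨c, rfl⟩
    exact (Quotient.out c).2
  · intro h hh
    refine ⟨(Quotient.out (Quotient.mk s ⟨h, hh⟩)).1, ⟨_, rfl⟩, ?_⟩
    exact Quotient.mk_out (s := s) ⟨h, hh⟩
  · rintro h ⟨c, rfl⟩ h' ⟨c', rfl⟩ h1
    have h2 : c = c' := by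
      rw [← Quotient.out_eq c, ← Quotient.out_eq c']
      exact Quotient.sound (s := s) h1
    rw [h2]

/-- the criterion gives independent representatives -/
theorem rep_of_crit (hIND3 : TJ3.S_IND3) {q : ℕ} {P : Ideal TJ3.Zb} {S : Set ℤ[X]}
    (hq : IsPrimePow q) (hP : P.IsPrime) (hp : ((q.minFac : ℕ) : TJ3.Zb) ∈ P) (hS : S ⊆ FO q)
    (hC : TJ3.Crit q P S) : Rep q S := by
  have hq1 : 1 ≤ q := hq.pos
  obtain ⟨S₀, h1, h2, h3⟩ := exists_reps hq1 S hS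
  obtain ⟨-, g2, -, -, -, -, -⟩ := TJ3.t_GIS q hq
  refine ⟨S₀, h1, h2, ?_⟩
  intro l hl N k hN he x hx
  obtain ⟨s, t, rfl⟩ := List.append_of_mem hx
  have hx' := hl x hx
  have hprod : (x.2 * (((s ++ t).map Prod.snd).prod)) ^ N = (q : Qb) ^ k := by
    rw [← he, List.map_append, List.prod_append, List.map_append, List.prod_append, List.map_cons,
      List.prod_cons]
    ring
  obtain ⟨⟨y, hy, M, hM, e⟩, -⟩ := hIND3 q P S hq hP hp hS hC (s ++ t) x (h1 hx'.1) hx'.2 (by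
    intro y hy
    have hy' : y ∈ s ++ x :: t := by
      rw [List.mem_append] at hy ⊢
      rcases hy with hy | hy
      · exact Or.inl hy
      · exact Or.inr (List.mem_cons_of_mem _ hy)
    exact ⟨h1 (hl y hy').1, (hl y hy').2⟩) N k hN hprod
  have hy' : y ∈ s ++ x :: t := by
    rw [List.mem_append] at hy ⊢
    rcases hy with hy | hy
    · exact Or.inl hy
    · exact Or.inr (List.mem_cons_of_mem _ hy)
  obtain ⟨hy1, hy2⟩ := hl y hy'
  have hyF : y.1 ∈ FO q := hS (h1 hy1)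
  have hy0 : y.2 ≠ 0 := hy2.1
  have hyb : (q : Qb) / y.2 ∈ Om q y.1 :=
    ((t_OMB y.1.natDegree q y.1 hq1 hyF.2.1.1.1 rfl).2.1 y.2 hy2).1
  have hG : GI q x.1 y.1 := by
    refine ⟨M, hM, x.2, hx'.2, (q : Qb) / y.2, hyb, ?_⟩
    rw [div_pow, ← e, mul_pow, mul_div_assoc, div_self (pow_ne_zero M hy0), mul_one]
  have hxy : x.1 = y.1 := h3 _ hx'.1 _ hy1 hG
  have h4 : y.2 = (q : Qb) / x.2 := by
    refine g2 x.1 (hS (h1 hx'.1)) x.2 hx'.2 y.2 ?_ M hM e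
    rw [hxy]
    exact hy2
  have h5 : (x.1, (q : Qb) / x.2) = y := Prod.ext hxy h4.symm
  rw [h5]
  exact hy'

/-- independent representatives: there are no data of exotic classes -/
theorem not_data {q : ℕ} {S : Set ℤ[X]} (hq : IsPrimePow q) (hS : S ⊆ FO q) (hR : Rep q S) :
    ¬ TJ3.HasData q S := by
  classical
  rintro ⟨n, h, r, e, N, hr, ⟨k₀, hk₀⟩, hN, hrel, -, hno⟩
  obtain ⟨S₀, hS₀, hrep, hind⟩ := hR
  obtain ⟨-, -, -, -, -, g6, -⟩ := TJ3.t_GIS q hq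
  have hq1 : 1 ≤ q := hq.pos
  have hq0 : (q : Qb) ≠ 0 := TJ3.GIS_q0 hq
  have hex : ∀ k, ∃ (h₀ : ℤ[X]) (b : Qb) (M : ℕ), h₀ ∈ S₀ ∧ b ∈ Om q h₀ ∧ 1 ≤ M ∧
      r k ^ M = b ^ M := by
    intro k
    obtain ⟨h₀, hh₀, hG⟩ := hrep (h k) (hr k).1
    obtain ⟨b, hb, M, hM, e⟩ := g6 (h k) (hS (hr k).1) h₀ (hS (hS₀ hh₀))
      (GI_iff.1 (RPX_symm hG)) (r k) (hr k).2
    exact ⟨h₀, b, M, hh₀, hb, hM, e⟩
  choose h₀ b Mk hh₀ hb hMk hbM using hex
  obtain ⟨M, hM, hbM'⟩ : ∃ M : ℕ, 1 ≤ M ∧ ∀ k, r k ^ M = b k ^ M := by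
    refine ⟨∏ k, Mk k, ?_, ?_⟩
    · refine Nat.one_le_iff_ne_zero.2 (Finset.prod_ne_zero_iff.2 fun k _ => ?_)
      have := hMk k
      omega
    · intro k
      obtain ⟨c, hc⟩ := Finset.dvd_prod_of_mem Mk (Finset.mem_univ k)
      rw [hc, pow_mul, hbM k, ← pow_mul]
  have hb0 : ∀ k, b k ≠ 0 := fun k => (hb k).1
  have hr0 : ∀ k, r k ≠ 0 := fun k => (hr k).2.1
  -- the relation for the representatives
  have h1 : (∏ k, b k ^ e k) ^ M = (∏ k, r k ^ e k) ^ M := by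
    rw [← Finset.prod_pow, ← Finset.prod_pow]
    refine Finset.prod_congr rfl fun k _ => ?_
    rw [← pow_mul, ← pow_mul, mul_comm, pow_mul, pow_mul, hbM']
  have h3 : (∏ k, r k ^ e k) * (∏ k, ((q : Qb) / r k) ^ e k) = (q : Qb) ^ (∑ k, e k) := by
    rw [← Finset.prod_mul_distrib, ← Finset.prod_pow_eq_pow_sum]
    refine Finset.prod_congr rfl fun k _ => ?_
    rw [← mul_pow]
    congr 1
    have := hr0 k
    field_simp
  have h4 : (∏ k, b k ^ e k) ^ (M * (2 * N)) = (q : Qb) ^ (((∑ k, e k) * (N * M) : ℕ) : ℤ) := by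
    calc (∏ k, b k ^ e k) ^ (M * (2 * N)) = (∏ k, r k ^ e k) ^ (M * (2 * N)) := by
          rw [pow_mul, h1, ← pow_mul]
      _ = ((∏ k, r k ^ e k) ^ N * (∏ k, r k ^ e k) ^ N) ^ M := by
          rw [← pow_add, ← pow_mul]
          congr 1
          ring
      _ = ((∏ k, r k ^ e k) ^ N * (∏ k, ((q : Qb) / r k) ^ e k) ^ N) ^ M := by rw [← hrel]
      _ = (q : Qb) ^ (((∑ k, e k) * (N * M) : ℕ) : ℤ) := by
          rw [← mul_pow, h3, ← pow_mul, ← pow_mul, zpow_natCast]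
  -- the list
  let L : List (ℤ[X] × Qb) :=
    (Finset.univ : Finset (Fin n)).toList.flatMap fun k => List.replicate (e k) (h₀ k, b k)
  have hmem : ∀ x, x ∈ L ↔ ∃ k, 1 ≤ e k ∧ x = (h₀ k, b k) := by
    intro x
    simp only [L, List.mem_flatMap, Finset.mem_toList, Finset.mem_univ, true_and,
      List.mem_replicate]
    constructor
    · rintro ⟨k, h5, h6⟩
      exact ⟨k, Nat.one_le_iff_ne_zero.2 h5, h6⟩
    · rintro ⟨k, h5, h6⟩
      exact ⟨k, Nat.one_le_iff_ne_zero.1 h5, h6⟩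
  have hprod : (L.map Prod.snd).prod = ∏ k, b k ^ e k := by
    have h5 : ∀ l : List (Fin n), ((l.flatMap fun k => List.replicate (e k) (h₀ k, b k)).map
        Prod.snd).prod = (l.map fun k => b k ^ e k).prod := by
      intro l
      induction l with
      | nil => simp
      | cons k l ih =>
        rw [List.flatMap_cons, List.map_append, List.prod_append, ih, List.map_cons,
          List.prod_cons, List.map_replicate, List.prod_replicate]
    rw [h5]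
    exact Finset.prod_map_toList _ _
  have h6 := hind L (by
    intro x hx
    obtain ⟨k, -, rfl⟩ := (hmem x).1 hx
    exact ⟨hh₀ k, hb k⟩) (M * (2 * N)) _ (Nat.mul_pos hM (by omega)) (by rw [hprod]; exact h4)
    (h₀ k₀, b k₀) ((hmem _).2 ⟨k₀, hk₀, rfl⟩)
  obtain ⟨k, -, hk⟩ := (hmem _).1 h6
  have h7 : (q : Qb) / b k₀ = b k := congrArg Prod.snd hk
  apply hno k k₀ M hM
  rw [mul_pow, hbM', hbM', ← h7, ← mul_pow]
  congr 1
  have := hb0 k₀
  field_simp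

/-- independent representatives give the criterion -/
theorem crit_of_rep (hE1 : TJ3.S_E1) (hE2 : TJ3.S_E2) {q : ℕ} {P : Ideal TJ3.Zb} {S : Set ℤ[X]}
    (hq : IsPrimePow q) (hP : P.IsPrime) (hp : ((q.minFac : ℕ) : TJ3.Zb) ∈ P) (hS : S ⊆ FO q)
    (hR : Rep q S) : TJ3.Crit q P S := by
  refine ⟨?_, ?_⟩
  · intro n h a ha _ hn
    by_contra hdep
    exact not_data hq hS hR (hE1 q P S hq hP hp hS n h a ha hn hdep)
  · rintro h₁ hh₁ h₂ hh₂ h₃ hh₃ d₁ d₂ d₃ n12 n13 n23 ⟨e12, e13⟩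
    obtain ⟨n, h, r, e, N, hr, hrest⟩ := hE2 q P hq hP hp h₁ (hS hh₁) h₂ (hS hh₂) h₃ (hS hh₃)
      d₁ d₂ d₃ n12 n13 n23 e12 e13
    refine not_data hq hS hR ⟨n, h, r, e, N, fun k => ⟨?_, (hr k).2⟩, hrest⟩
    have h1 := (hr k).1
    rw [Set.mem_insert_iff, Set.mem_insert_iff, Set.mem_singleton_iff] at h1
    rcases h1 with h1 | h1 | h1 <;> rw [h1] <;> assumption

/-- the set `Sel1 q` has independent representatives -/
theorem rep_Sel1 (hRPX : S_RPX) (hINX : S_INX) {q : ℕ} (hq : IsPrimePow q) : Rep q (Sel1 q) := by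
  obtain ⟨S₀, h1, h2, h3⟩ := hRPX q hq.pos
  refine ⟨S₀, h1, h2, ?_⟩
  intro l hl N k hN he x hx
  classical
  have h4 := hINX q hq S₀ (fun h hh => (h1 hh).1) h3 l hl N k hN he x.1 x.2
  have h5 : 0 < l.count (x.1, x.2) := List.count_pos_iff.2 hx
  refine List.count_pos_iff.1 (?_ : 0 < l.count (x.1, (q : Qb) / x.2))
  convert h5 using 1
  convert h4.symm using 1

end

end Pool.Agent.WAE
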