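import Pool.Agent.WAE.St
import Pool.Agent.WAV.SSM

/-!
# Module SSX (MP_cb388a_ag): the Frobenius of a word is semisimple at rational eigenvalues
-/

open CategoryTheory MonoidalCategory BraidedCategory Limits Polynomial

universe v u

namespace Pool.Agent.WAE

open Pool.Agent.TJ2 Pool.Agent.WAV

noncomputable section

section Cat

variable {C : Type u} [Category.{v} C] [Preadditive C] [Linear ℚ C] [MonoidalCategory C]
  [SymmetricCategory C] [MonoidalPreadditive C] [MonoidalLinear ℚ C] [RightRigidCategory C]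

theorem SSX_word (W : MotP.Frobenius C) (q : ℕ) (S : Set ℤ[X]) (D : AVL W q S) (hq : 2 ≤ q)
    (hS : S ⊆ FO q) (U : C) (hU : Pq W q U) : ∀ l : List ℤ[X], (∀ h ∈ l, h ∈ S) →
    ∃ P : ℚ[X], Squarefree P ∧ aeval (Mot.component W.F (Zo D.M U l)) P = 0
  | [], _ => by
    obtain ⟨N, hN, k, hk⟩ := hU
    have hq0 : (q : ℚ) ≠ 0 := by
      have : q ≠ 0 := by omega
      exact_mod_cast this
    have e0 : aeval (Mot.component W.F U) (X ^ N - Polynomial.C ((q : ℚ) ^ k)) = 0 := by
      rw [map_sub, map_pow, aeval_X, aeval_C, hk, Algebra.algebraMap_eq_smul_one, sub_self]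
    exact ⟨X ^ N - Polynomial.C ((q : ℚ) ^ k),
      (Polynomial.separable_X_pow_sub_C _ (by exact_mod_cast (by omega : N ≠ 0))
        (zpow_ne_zero k hq0)).squarefree, e0⟩
  | h :: l, hl => by
    obtain ⟨Q, hQ, hQ0⟩ := SSX_word W q S D hq hS U hU l
      (fun k hk => hl k (List.mem_cons_of_mem _ hk))
    have hh : h ∈ S := hl h List.mem_cons_self
    have hFO := hS hh
    have hmon : h.Monic := hFO.2.1.1.1
    obtain ⟨-, -, -, h4⟩ := (t_WEI t_OMB) q h (by omega) hmon
    have hsq := (h4 hFO.2.2).1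
    have hroot : aeval (Mot.component W.F (D.M h)) ((weil q h).map (Int.castRingHom ℚ)) = 0 := by
      rw [← D.root h hh, aeval_def, aeval_def, eval₂_map]
      congr 1
      exact RingHom.ext_int _ _
    have r1 : aeval (PLZ_right (D.M h) (Zo D.M U l) (Mot.component W.F (D.M h)))
        ((weil q h).map (Int.castRingHom ℚ)) = 0 := by
      rw [aeval_algHom_apply, hroot, map_zero]
    have r2 : aeval (PLZ_left (D.M h) (Zo D.M U l)
        (Mot.component W.F (Zo D.M U l))) Q = 0 := by
      rw [aeval_algHom_apply, hQ0, map_zero]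
    have hc : Commute (PLZ_right (D.M h) (Zo D.M U l) (Mot.component W.F (D.M h)))
        (PLZ_left (D.M h) (Zo D.M U l)
          (Mot.component W.F (Zo D.M U l))) :=
      MonoidalCategory.whisker_exchange (W.F.app (D.M h)) (W.F.app (Zo D.M U l))
    obtain ⟨R, hR, hR0⟩ := SSM_mul _ _ hc _ _ hsq hQ r1 r2
    refine ⟨R, hR, ?_⟩
    have e1 : (Mot.component W.F (Zo D.M U (h :: l)) :
        End (Zo D.M U (h :: l))) =
        PLZ_right (D.M h) (Zo D.M U l) (Mot.component W.F (D.M h)) *
        PLZ_left (D.M h) (Zo D.M U l)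
          (Mot.component W.F (Zo D.M U l)) :=
      (W.F_tensor (D.M h) (Zo D.M U l)).trans
        (MonoidalCategory.tensorHom_def' _ _)
    rw [e1]
    exact hR0

end Cat

theorem t_SSX : S_SSX.{v, u} := by
  intro C _ _ _ _ _ _ _ _ W q S D hq hS U hU l hl
  obtain ⟨P, hP, h0⟩ := SSX_word W q S D hq hS U hU l hl
  exact SSM_of W _ P hP h0

end

end Pool.Agent.WAE
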