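import Pool.Agent.WAE.St
import Pool.Agent.TJ2.PHI
import Pool.Agent.TJ2.OMB
import Pool.Agent.TJ2.FULC
import Pool.Agent.TJ2.REP

/-!
# Module SUB (MP_cb388a_ag): `Sel q` and the ordinary elliptic curves are in `Sel1 q`
-/

set_option autoImplicit false

open Polynomial IntermediateField

namespace Pool.Agent.WAE

open Pool.Agent.TJ2

theorem t_SUB (hFL1 : S_FL1) (hEC1 : S_EC1) : S_SUB := by
  intro q hq
  have hq1 : 1 ≤ q := hq.pos
  refine ⟨?_, ?_⟩
  · rintro h ⟨h1, h2, -⟩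
    refine ⟨h1, ?_⟩
    intro h' hh' a ha a' ha' hE
    rcases h2 h' hh' a ha a' ha' hE with h3 | h3
    · rw [h3]
      exact ⟨1, le_rfl, a, ha, a, ha, rfl⟩
    · rw [h3]
      refine ⟨2, by norm_num, a, ha, -a, ?_, ?_⟩
      · rw [REP_om, neg_neg]
        exact ha
      · ring
  · intro h hh
    have h1 : h ∈ FO q := hFL1 q hq hh
    refine ⟨h1, ?_⟩
    intro h' hh' a ha a' ha' hE
    have hd : h.natDegree = 1 := hh.1.2.1
    have hd' : h'.natDegree = 1 := by
      rw [← (t_PHI t_OMB t_FULC q h h' a a' hq1 h1 hh' ha ha' hE).1, hd]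
    rcases hEC1 q h h' a a' hq h1 hh' hd hd' ha ha' hE with h3 | h3
    · exact ⟨12, by norm_num, a, ha, a', ha', h3⟩
    · refine ⟨12, by norm_num, a, ha, (q : Qb) / a', ?_, h3⟩
      exact ((t_OMB 1 q h' hq1 hh'.2.1.1.1 hd').2.1 a' ha').1

end Pool.Agent.WAE
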