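import Pool.Agent.WAE.St
import Pool.Agent.TJ2.MON

/-!
# Module UN1 (MP_cb388a_ag, helper83): the objects `U`
-/

open CategoryTheory MonoidalCategory BraidedCategory Limits Polynomial

universe v u

namespace Pool.Agent.WAE

open Pool.Agent.TJ2 Pool.Agent.WAV

noncomputable section

section UN1s

variable {C : Type u} [Category.{v} C] [Preadditive C] [Linear ℚ C] [MonoidalCategory C]
  [SymmetricCategory C] [MonoidalPreadditive C] [MonoidalLinear ℚ C] [RightRigidCategory C]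

/-- powers of the Frobenius, as morphisms -/
def UN1_fp (W : MotP.Frobenius C) (X : C) : ℕ → (X ⟶ X)
  | 0 => 𝟙 X
  | n + 1 => W.F.app X ≫ UN1_fp W X n

theorem UN1_fp_eq (W : MotP.Frobenius C) (X : C) (n : ℕ) :
    (Mot.component W.F X ^ n : End X) = UN1_fp W X n := by
  induction n with
  | zero => rfl
  | succ n ih =>
    rw [pow_succ, ih]
    rfl

theorem UN1_nat (W : MotP.Frobenius C) {X Y : C} (f : X ⟶ Y) (n : ℕ) :
    UN1_fp W X n ≫ f = f ≫ UN1_fp W Y n := by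
  induction n with
  | zero =>
    show 𝟙 X ≫ f = f ≫ 𝟙 Y
    rw [Category.id_comp, Category.comp_id]
  | succ n ih =>
    show (W.F.app X ≫ UN1_fp W X n) ≫ f = f ≫ W.F.app Y ≫ UN1_fp W Y n
    have h : f ≫ W.F.app Y = W.F.app X ≫ f := W.F.naturality f
    rw [Category.assoc, ih, ← Category.assoc f, h, Category.assoc]

theorem UN1_tensor (W : MotP.Frobenius C) (X Y : C) (n : ℕ) :
    UN1_fp W (X ⊗ Y) n = UN1_fp W X n ⊗ₘ UN1_fp W Y n := by
  induction n with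
  | zero =>
    show 𝟙 (X ⊗ Y) = 𝟙 X ⊗ₘ 𝟙 Y
    simp
  | succ n ih =>
    show W.F.app (X ⊗ Y) ≫ UN1_fp W (X ⊗ Y) n =
      (W.F.app X ≫ UN1_fp W X n) ⊗ₘ (W.F.app Y ≫ UN1_fp W Y n)
    rw [ih, W.F_tensor]
    simp

theorem UN1_tensor_scalar (W : MotP.Frobenius C) {X Y : C} (n : ℕ) (c d : ℚ)
    (hX : UN1_fp W X n = c • 𝟙 X) (hY : UN1_fp W Y n = d • 𝟙 Y) :
    UN1_fp W (X ⊗ Y) n = (c * d) • 𝟙 (X ⊗ Y) := by
  rw [UN1_tensor, hX, hY, MonoidalCategory.tensorHom_def]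
  simp [smul_smul, mul_comm]

theorem UN1_iso (W : MotP.Frobenius C) {X Y : C} (i : X ≅ Y) (n : ℕ) (c : ℚ)
    (hY : UN1_fp W Y n = c • 𝟙 Y) : UN1_fp W X n = c • 𝟙 X := by
  have h := UN1_nat W i.hom n
  have h2 : UN1_fp W X n = i.hom ≫ UN1_fp W Y n ≫ i.inv := by
    rw [← Category.assoc, ← h, Category.assoc, i.hom_inv_id, Category.comp_id]
  rw [h2, hY]
  simp

theorem UN1_add (W : MotP.Frobenius C) (X : C) (m n : ℕ) :
    UN1_fp W X (m + n) = UN1_fp W X m ≫ UN1_fp W X n := by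
  induction m with
  | zero =>
    show UN1_fp W X (0 + n) = 𝟙 X ≫ _
    rw [Nat.zero_add, Category.id_comp]
  | succ m ih =>
    rw [Nat.add_right_comm]
    show W.F.app X ≫ UN1_fp W X (m + n) = (W.F.app X ≫ UN1_fp W X m) ≫ UN1_fp W X n
    rw [ih, Category.assoc]

theorem UN1_mul (W : MotP.Frobenius C) (X : C) (m n : ℕ) (c : ℚ)
    (h : UN1_fp W X m = c • 𝟙 X) : UN1_fp W X (m * n) = c ^ n • 𝟙 X := by
  induction n with
  | zero =>
    rw [Nat.mul_zero, pow_zero, one_smul]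
    rfl
  | succ n ih =>
    rw [Nat.mul_succ, UN1_add, ih, h]
    simp [smul_smul, pow_succ, mul_comm]

theorem UN1_one (W : MotP.Frobenius C) (X : C) : UN1_fp W X 1 = W.F.app X := by
  show W.F.app X ≫ 𝟙 X = W.F.app X
  exact Category.comp_id _

theorem UN1_frob_T' (W : MotP.Frobenius C) {q : ℕ} {S : Set ℤ[X]} (D : AVL W q S) (hq : 2 ≤ q) :
    W.F.app D.T' = (q : ℚ)⁻¹ • 𝟙 D.T' := by
  obtain ⟨i⟩ := D.unitT
  have hq0 : (q : ℚ) ≠ 0 := by
    have : q ≠ 0 := by omega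
    exact_mod_cast this
  have h1 : W.F.app (D.T ⊗ D.T') = (1 : ℚ) • 𝟙 (D.T ⊗ D.T') := by
    apply MON_frob_iso W.F i
    rw [W.F_unit, one_smul]
  have h2 : W.F.app (D.T ⊗ D.T') = D.T ◁ ((q : ℚ) • W.F.app D.T') := by
    rw [W.F_tensor, D.frobT, MonoidalCategory.tensorHom_def]
    simp
  have h3 : D.T ◁ ((q : ℚ) • W.F.app D.T') = D.T ◁ 𝟙 D.T' := by
    rw [← h2, h1, one_smul, whiskerLeft_id]
  have h4 := MON_faithful ((β_ D.T' D.T) ≪≫ i) _ _ h3
  rw [← h4, smul_smul, inv_mul_cancel₀ hq0]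
  exact (one_smul ℚ _).symm

/-- the Frobenius of `T ^ a ⊗ T' ^ b` -/
theorem UN1_frob_V (W : MotP.Frobenius C) {q : ℕ} {S : Set ℤ[X]} (D : AVL W q S) (hq : 2 ≤ q)
    (a b : ℕ) : W.F.app (Mot.T D.T a ⊗ Mot.T D.T' b) =
      ((q : ℚ) ^ ((a : ℤ) - b)) • 𝟙 (Mot.T D.T a ⊗ Mot.T D.T' b) := by
  have hq0 : (q : ℚ) ≠ 0 := by
    have : q ≠ 0 := by omega
    exact_mod_cast this
  have h := MON_frob_tensor W _ _ (MON_frob_T W _ D.frobT a)
    (MON_frob_T W _ (UN1_frob_T' W D hq) b)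
  rw [h, zpow_sub₀ hq0, zpow_natCast, zpow_natCast, div_eq_mul_inv, inv_pow]

/-- classes in the skeleton -/
theorem UN1_sk {W : MotP.Frobenius C} {q : ℕ} {S : Set ℤ[X]} (D : AVL W q S) (a b : ℕ)
    (X Y : C) : toSkeleton ((Mot.T D.T a ⊗ Mot.T D.T' b) ⊗ (X ⊗ Y)) =
      toSkeleton D.T ^ a * toSkeleton D.T' ^ b * (toSkeleton X * toSkeleton Y) := by
  rw [Skeleton.toSkeleton_tensorObj, Skeleton.toSkeleton_tensorObj,
    Skeleton.toSkeleton_tensorObj, MON_sk_T, MON_sk_T]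

/-- a power of the Frobenius of `U` is a power of `q`, and the exponent is not `0` in the
supersingular case -/
theorem UN1_pow {W : MotP.Frobenius C} {q : ℕ} {S : Set ℤ[X]} (D : AVL W q S) (hq : 2 ≤ q)
    {U : C} {a b N : ℕ} {y : C} (hN : 1 ≤ N)
    (i : U ≅ (Mot.T D.T a ⊗ Mot.T D.T' b) ⊗ (D.L N ⊗ y)) :
    (y = 𝟙_ C → UN1_fp W U N = ((q : ℚ) ^ (((a : ℤ) - b) * N)) • 𝟙 U) ∧
    (D.Ss y → ∃ (K : ℕ) (k : ℤ), 1 ≤ K ∧ k ≠ 0 ∧ UN1_fp W U K = ((q : ℚ) ^ k) • 𝟙 U) := by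
  have hq0 : (q : ℚ) ≠ 0 := by
    have : q ≠ 0 := by omega
    exact_mod_cast this
  have hL : UN1_fp W (D.L N) N = (1 : ℚ) • 𝟙 (D.L N) := by
    rw [← UN1_fp_eq, D.frobL N hN, one_smul]
    rfl
  have hV : ∀ n : ℕ, UN1_fp W (Mot.T D.T a ⊗ Mot.T D.T' b) n =
      ((q : ℚ) ^ (((a : ℤ) - b) * n)) • 𝟙 (Mot.T D.T a ⊗ Mot.T D.T' b) := by
    intro n
    have h1 : UN1_fp W (Mot.T D.T a ⊗ Mot.T D.T' b) 1 =
        ((q : ℚ) ^ ((a : ℤ) - b)) • 𝟙 (Mot.T D.T a ⊗ Mot.T D.T' b) := by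
      rw [UN1_one]
      exact UN1_frob_V W D hq a b
    have h2 := UN1_mul W _ 1 n _ h1
    rw [Nat.one_mul] at h2
    rw [h2, zpow_mul, zpow_natCast]
  constructor
  · intro hy
    subst hy
    have h1 : UN1_fp W (𝟙_ C) N = (1 : ℚ) • 𝟙 (𝟙_ C) := by
      have h0 : UN1_fp W (𝟙_ C) 1 = (1 : ℚ) • 𝟙 (𝟙_ C) := by
        rw [UN1_one, W.F_unit, one_smul]
      have h2 := UN1_mul W _ 1 N _ h0
      rw [Nat.one_mul, one_pow] at h2
      exact h2
    have h2 := UN1_tensor_scalar W N _ _ (hV N) (UN1_tensor_scalar W N _ _ hL h1)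
    rw [one_mul, mul_one] at h2
    exact UN1_iso W i N _ h2
  · intro hy
    obtain ⟨M, hM, hfy⟩ := D.frobS y hy
    have hy1 : UN1_fp W y (2 * M) = ((q : ℚ) ^ M) • 𝟙 y := by
      rw [← UN1_fp_eq, hfy]
      rfl
    have hy2 := UN1_mul W y (2 * M) N _ hy1
    have hL2 := UN1_mul W (D.L N) N (2 * M) _ hL
    rw [one_pow, Nat.mul_comm N (2 * M)] at hL2
    have h2 := UN1_tensor_scalar W (2 * M * N) _ _ (hV (2 * M * N))
      (UN1_tensor_scalar W (2 * M * N) _ _ hL2 hy2)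
    refine ⟨2 * M * N, (((a : ℤ) - b) * ((2 * M * N : ℕ) : ℤ)) + ((M * N : ℕ) : ℤ), ?_, ?_, ?_⟩
    · have : 0 < 2 * M * N := by positivity
      omega
    · intro hk
      have h3 : ((M * N : ℕ) : ℤ) * (2 * ((a : ℤ) - b) + 1) = 0 := by
        rw [← hk]
        push_cast
        ring
      rcases mul_eq_zero.mp h3 with h4 | h4
      · have : 0 < M * N := by positivity
        omega
      · omega
    · have h5 := UN1_iso W i (2 * M * N) _ h2
      rw [h5, zpow_add₀ hq0, zpow_natCast _ (M * N), pow_mul, one_mul]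

/-- a morphism fixed by the Frobenius is fixed by its powers -/
theorem UN1_fix (W : MotP.Frobenius C) {A U : C} (x : A ⟶ U) (hx : x ≫ W.F.app U = x) (n : ℕ) :
    x ≫ UN1_fp W U n = x := by
  induction n with
  | zero => exact Category.comp_id x
  | succ n ih =>
    show x ≫ W.F.app U ≫ UN1_fp W U n = x
    rw [← Category.assoc, hx, ih]

theorem UN1_zero {q : ℕ} (hq : 2 ≤ q) (W : MotP.Frobenius C) {A U : C} (x : A ⟶ U)
    (hx : x ≫ W.F.app U = x) (n : ℕ) (k : ℤ) (hk : k ≠ 0)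
    (h : UN1_fp W U n = ((q : ℚ) ^ k) • 𝟙 U) : x = 0 := by
  have h1 := UN1_fix W x hx n
  rw [h, Linear.comp_smul, Category.comp_id] at h1
  have h2 : ((q : ℚ) ^ k - 1) • x = 0 := by
    rw [sub_smul, h1, one_smul, sub_self]
  rcases smul_eq_zero.mp h2 with h3 | h3
  · exfalso
    apply hk
    have hq1 : (q : ℚ) ≠ 1 := by
      have : q ≠ 1 := by omega
      exact_mod_cast this
    exact (zpow_eq_one_iff_right₀ (Nat.cast_nonneg q) hq1).mp (sub_eq_zero.mp h3)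
  · exact h3

end UN1s

theorem t_UN1 : S_UN1.{v, u} := by
  intro C _ _ _ _ _ _ _ _ W q S D hq
  have hT : toSkeleton D.T * toSkeleton D.T' = 1 := by
    rw [← Skeleton.toSkeleton_tensorObj, Skeleton.one_eq]
    exact toSkeleton_eq_toSkeleton_iff.mpr D.unitT
  have hL1 : toSkeleton (D.L 1) = 1 := by
    rw [Skeleton.one_eq]
    exact toSkeleton_eq_toSkeleton_iff.mpr D.oneL
  have hone : toSkeleton (𝟙_ C) = (1 : Skeleton C) := rfl
  refine ⟨?_, ?_, ?_, ?_, ?_, ?_, ?_⟩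
  · rintro U ⟨a, b, N, y, hN, hy, ⟨i⟩⟩
    rcases hy with hy | hy
    · refine ⟨N, hN, ((a : ℤ) - b) * N, ?_⟩
      rw [UN1_fp_eq, (UN1_pow D hq hN i).1 hy]
      rfl
    · obtain ⟨K, k, hK, -, h⟩ := (UN1_pow D hq hN i).2 hy
      refine ⟨K, hK, k, ?_⟩
      rw [UN1_fp_eq, h]
      rfl
  · rintro U ⟨a, b, N, y, hN, hy, ⟨i⟩⟩ A x hx
    have hx' : x ≫ W.F.app U = x := hx
    rcases hy with hy | hy
    · have h1 := (UN1_pow D hq hN i).1 hy
      by_cases hab : a = b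
      · subst hab
        subst hy
        have j : Nonempty (U ≅ D.L N) := by
          rw [← toSkeleton_eq_toSkeleton_iff]
          rw [toSkeleton_eq_toSkeleton_iff.mpr ⟨i⟩, UN1_sk, hone, mul_one, ← mul_pow, hT,
            one_pow, one_mul]
        obtain ⟨j⟩ := j
        have hz : (x ≫ j.hom) ≫ W.F.app (D.L N) = x ≫ j.hom := by
          have h2 : j.hom ≫ W.F.app (D.L N) = W.F.app U ≫ j.hom := W.F.naturality j.hom
          rw [Category.assoc, h2, ← Category.assoc, hx']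
        obtain ⟨r, s, hrs⟩ := D.sumL N hN
        have hsum : (N : ℚ) • (x ≫ j.hom) = (x ≫ j.hom) ≫ (r ≫ s) := by
          have h3 : (r ≫ s : D.L N ⟶ D.L N) = ∑ k ∈ Finset.range N, UN1_fp W (D.L N) k := by
            rw [← hrs]
            exact Finset.sum_congr rfl fun k _ => UN1_fp_eq W (D.L N) k
          rw [h3, Preadditive.comp_sum]
          rw [Finset.sum_congr rfl fun k _ => UN1_fix W (x ≫ j.hom) hz k]
          rw [Finset.sum_const, Finset.card_range, Nat.cast_smul_eq_nsmul]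
        have hN0 : (N : ℚ) ≠ 0 := by
          have : N ≠ 0 := by omega
          exact_mod_cast this
        have hfin : x = (N : ℚ)⁻¹ • ((x ≫ j.hom ≫ r) ≫ (s ≫ j.inv)) := by
          have h4 : (x ≫ j.hom ≫ r) ≫ (s ≫ j.inv) = (N : ℚ) • x := by
            have h5 : (x ≫ j.hom ≫ r) ≫ (s ≫ j.inv) = ((x ≫ j.hom) ≫ (r ≫ s)) ≫ j.inv := by
              simp only [Category.assoc]
            rw [h5, ← hsum, Linear.smul_comp, Category.assoc, j.hom_inv_id, Category.comp_id]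
          rw [h4, smul_smul, inv_mul_cancel₀ hN0, one_smul]
        rw [hfin]
        exact Submodule.smul_mem _ _ (Submodule.subset_span ⟨_, _, rfl⟩)
      · have hk : ((a : ℤ) - b) * N ≠ 0 := by
          apply mul_ne_zero
          · intro h
            exact hab (by omega)
          · have : N ≠ 0 := by omega
            exact_mod_cast this
        rw [UN1_zero hq W x hx' N _ hk h1]
        exact Submodule.zero_mem _
    · obtain ⟨K, k, -, hk, h⟩ := (UN1_pow D hq hN i).2 hy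
      rw [UN1_zero hq W x hx' K k hk h]
      exact Submodule.zero_mem _
  · rintro U ⟨a, b, N, y, hN, hy, ⟨i⟩⟩
    refine ⟨a + 1, b, N, y, hN, hy, ?_⟩
    rw [← toSkeleton_eq_toSkeleton_iff, UN1_sk, Skeleton.toSkeleton_tensorObj,
      toSkeleton_eq_toSkeleton_iff.mpr ⟨i⟩, UN1_sk, pow_succ]
    exact by ac_rfl
  · refine ⟨0, 0, 1, 𝟙_ C, le_rfl, Or.inl rfl, ?_⟩
    rw [← toSkeleton_eq_toSkeleton_iff, UN1_sk, hL1, hone]
    simp
  · refine ⟨1, 0, 1, 𝟙_ C, le_rfl, Or.inl rfl, ?_⟩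
    rw [← toSkeleton_eq_toSkeleton_iff, UN1_sk, hL1, hone]
    simp
  · intro N hN
    refine ⟨0, 0, N, 𝟙_ C, hN, Or.inl rfl, ?_⟩
    rw [← toSkeleton_eq_toSkeleton_iff, UN1_sk, hone]
    simp
  · intro y hy
    refine ⟨0, 0, 1, y, le_rfl, Or.inr hy, ?_⟩
    rw [← toSkeleton_eq_toSkeleton_iff, UN1_sk, hL1]
    simp

end

end Pool.Agent.WAE
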