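import Pool.Agent.WAE.St
import Pool.Agent.TJ2.MON
import Pool.Agent.TJ2.INZ

/-!
# Module UN2 (MP_cb388a_ag): tensor products and duals of the objects of `UN`
-/

open CategoryTheory MonoidalCategory BraidedCategory Limits Polynomial IntermediateField

universe w v u

namespace Pool.Agent.WAE

open Pool.Agent.TJ2 Pool.Agent.WAV

noncomputable section

section Sm

variable {C : Type u} [Category.{v} C] [Preadditive C]

/-- `Z` is a direct summand of a finite direct sum of copies of `Y` (any finite index type) -/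
def UN2_Sm (Y Z : C) : Prop :=
  ∃ (κ : Type) (_ : Fintype κ) (i : κ → (Z ⟶ Y)) (p : κ → (Y ⟶ Z)), ∑ k, i k ≫ p k = 𝟙 Z

lemma UN2_of {Y Z : C} (h : Smd Y Z) : UN2_Sm Y Z := by
  obtain ⟨n, i, p, e⟩ := h
  exact ⟨Fin n, inferInstance, i, p, e⟩

lemma UN2_iso {Y Z : C} (e : Y ≅ Z) : UN2_Sm Y Z :=
  ⟨Unit, inferInstance, fun _ => e.inv, fun _ => e.hom, by simp⟩

lemma UN2_trans {X Y Z : C} (h1 : UN2_Sm X Y) (h2 : UN2_Sm Y Z) : UN2_Sm X Z := by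
  obtain ⟨κ, _, i1, p1, e1⟩ := h1
  obtain ⟨l, _, i2, p2, e2⟩ := h2
  refine ⟨l × κ, inferInstance, fun k => i2 k.1 ≫ i1 k.2, fun k => p1 k.2 ≫ p2 k.1, ?_⟩
  rw [Fintype.sum_prod_type]
  have h3 : ∀ a ∈ (Finset.univ : Finset l), ∑ b : κ, (i2 a ≫ i1 b) ≫ (p1 b ≫ p2 a) =
      i2 a ≫ p2 a := by
    intro a _
    have h4 : ∀ b ∈ (Finset.univ : Finset κ), (i2 a ≫ i1 b) ≫ (p1 b ≫ p2 a) =
        i2 a ≫ (i1 b ≫ p1 b) ≫ p2 a := fun b _ => by simp only [Category.assoc]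
    rw [Finset.sum_congr rfl h4, ← Preadditive.comp_sum, ← Preadditive.sum_comp, e1,
      Category.id_comp]
  rw [Finset.sum_congr rfl h3, e2]

lemma UN2_tensor [MonoidalCategory C] [MonoidalPreadditive C] {Y Z Y' Z' : C}
    (h1 : UN2_Sm Y Z) (h2 : UN2_Sm Y' Z') : UN2_Sm (Y ⊗ Y') (Z ⊗ Z') := by
  obtain ⟨κ, _, i1, p1, e1⟩ := h1
  obtain ⟨l, _, i2, p2, e2⟩ := h2
  refine ⟨κ × l, inferInstance, fun k => i1 k.1 ⊗ₘ i2 k.2, fun k => p1 k.1 ⊗ₘ p2 k.2, ?_⟩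
  rw [Fintype.sum_prod_type]
  have h3 : ∀ a ∈ (Finset.univ : Finset κ), ∑ b : l, (i1 a ⊗ₘ i2 b) ≫ (p1 a ⊗ₘ p2 b) =
      (i1 a ≫ p1 a) ⊗ₘ 𝟙 Z' := by
    intro a _
    rw [← e2, tensor_sum]
    refine Finset.sum_congr rfl fun b _ => ?_
    rw [MonoidalCategory.tensorHom_comp_tensorHom]
  rw [Finset.sum_congr rfl h3, ← sum_tensor, e1, MonoidalCategory.id_tensorHom_id]

lemma UN2_dom {P : C → Prop} {Y Z : C} (hY : P Y) (h : UN2_Sm Y Z) : Dom P Z := by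
  obtain ⟨κ, hκ, i, p, e⟩ := h
  exact ⟨κ, hκ, fun _ => Y, i, p, fun _ => hY, e⟩

end Sm

theorem t_UN2 : S_UN2.{v, u} := by
  intro C _ _ _ _ _ _ _ _ W q S D hq
  have hT : toSkeleton D.T * toSkeleton D.T' = 1 := by
    rw [← Skeleton.toSkeleton_tensorObj, Skeleton.one_eq]
    exact toSkeleton_eq_toSkeleton_iff.mpr D.unitT
  obtain ⟨t, ht⟩ : ∃ t : Skeleton C, t = toSkeleton D.T := ⟨_, rfl⟩
  obtain ⟨t', ht'⟩ : ∃ t' : Skeleton C, t' = toSkeleton D.T' := ⟨_, rfl⟩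
  have hone : toSkeleton (𝟙_ C) = (1 : Skeleton C) := rfl
  have hX : ∀ (a b : ℕ) (Z : C), toSkeleton ((Mot.T D.T a ⊗ Mot.T D.T' b) ⊗ Z) =
      t ^ a * t' ^ b * toSkeleton Z := by
    intro a b Z
    rw [Skeleton.toSkeleton_tensorObj, Skeleton.toSkeleton_tensorObj, MON_sk_T, MON_sk_T,
      ht, ht']
  rw [← ht, ← ht'] at hT
  have hbal : ∀ a : ℕ, t ^ a * t' ^ a = 1 := fun a => by rw [← mul_pow, hT, one_pow]
  refine ⟨?_, ?_⟩
  · rintro U V ⟨a, b, N, y, hN, hy, ⟨i⟩⟩ ⟨a', b', N', y', hN', hy', ⟨i'⟩⟩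
    have e0 : Nonempty ((Mot.T D.T (a + a') ⊗ Mot.T D.T' (b + b')) ⊗
        ((D.L N ⊗ D.L N') ⊗ (y ⊗ y')) ≅ U ⊗ V) := by
      rw [← toSkeleton_eq_toSkeleton_iff]
      have h1 : toSkeleton U = t ^ a * t' ^ b * (toSkeleton (D.L N) * toSkeleton y) := by
        rw [toSkeleton_eq_toSkeleton_iff.mpr ⟨i⟩, hX, Skeleton.toSkeleton_tensorObj]
      have h2 : toSkeleton V = t ^ a' * t' ^ b' * (toSkeleton (D.L N') * toSkeleton y') := by
        rw [toSkeleton_eq_toSkeleton_iff.mpr ⟨i'⟩, hX, Skeleton.toSkeleton_tensorObj]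
      rw [hX, Skeleton.toSkeleton_tensorObj, Skeleton.toSkeleton_tensorObj,
        Skeleton.toSkeleton_tensorObj, Skeleton.toSkeleton_tensorObj, h1, h2, pow_add, pow_add]
      exact by ac_rfl
    obtain ⟨e0⟩ := e0
    have hL := UN2_of (D.tensL N N' hN hN')
    have hNN : 1 ≤ N * N' := Nat.mul_pos hN hN'
    have hP : UN2_Sm (Mot.T D.T (a + a') ⊗ Mot.T D.T' (b + b'))
      (Mot.T D.T (a + a') ⊗ Mot.T D.T' (b + b')) := UN2_iso (Iso.refl _)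
    rcases hy with rfl | hy
    · refine UN2_dom (Y := (Mot.T D.T (a + a') ⊗ Mot.T D.T' (b + b')) ⊗
        (D.L (N * N') ⊗ y')) ⟨a + a', b + b', N * N', y', hNN, hy', ⟨Iso.refl _⟩⟩ ?_
      exact UN2_trans (UN2_tensor hP (UN2_tensor hL (UN2_iso (λ_ y').symm))) (UN2_iso e0)
    · rcases hy' with rfl | hy'
      · refine UN2_dom (Y := (Mot.T D.T (a + a') ⊗ Mot.T D.T' (b + b')) ⊗
          (D.L (N * N') ⊗ y)) ⟨a + a', b + b', N * N', y, hNN, Or.inr hy, ⟨Iso.refl _⟩⟩ ?_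
        exact UN2_trans (UN2_tensor hP (UN2_tensor hL (UN2_iso (ρ_ y).symm))) (UN2_iso e0)
      · obtain ⟨M, hM, hS⟩ := D.tensS y y' hy hy'
        have hS' := UN2_of hS
        have hL' := UN2_of (D.tensL (N * N') M hNN hM)
        have e1 : Nonempty ((Mot.T D.T (a + a') ⊗ Mot.T D.T' (b + b')) ⊗
            (D.L (N * N' * M) ⊗ D.T) ≅
            (Mot.T D.T (a + a' + 1) ⊗ Mot.T D.T' (b + b')) ⊗ (D.L (N * N' * M) ⊗ 𝟙_ C)) := by
          rw [← toSkeleton_eq_toSkeleton_iff, hX, hX, Skeleton.toSkeleton_tensorObj,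
            Skeleton.toSkeleton_tensorObj, hone, ← ht, mul_one, pow_succ]
          exact by ac_rfl
        refine UN2_dom (Y := (Mot.T D.T (a + a') ⊗ Mot.T D.T' (b + b')) ⊗
          (D.L (N * N' * M) ⊗ D.T)) ⟨a + a' + 1, b + b', N * N' * M, 𝟙_ C,
            Nat.mul_pos hNN hM, Or.inl rfl, e1⟩ ?_
        have h1 : UN2_Sm (D.L (N * N' * M) ⊗ D.T) (D.L (N * N') ⊗ (D.L M ⊗ D.T)) :=
          UN2_trans (UN2_tensor hL' (UN2_iso (Iso.refl D.T)))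
            (UN2_iso (α_ (D.L (N * N')) (D.L M) D.T))
        exact UN2_trans (UN2_trans (UN2_tensor hP h1)
          (UN2_tensor hP (UN2_tensor hL hS'))) (UN2_iso e0)
  · rintro U ⟨a, b, N, y, hN, hy, ⟨i⟩⟩
    have hyd : ∃ k : ℕ, toSkeleton (yᘁ) = toSkeleton y * t' ^ k := by
      rcases hy with rfl | hy
      · refine ⟨0, ?_⟩
        obtain ⟨j⟩ := MON_dual (X := 𝟙_ C) (Y := 𝟙_ C) (λ_ (𝟙_ C)) (λ_ (𝟙_ C))
        rw [toSkeleton_eq_toSkeleton_iff.mpr ⟨j⟩, pow_zero, mul_one]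
      · refine ⟨1, ?_⟩
        have h1 := toSkeleton_eq_toSkeleton_iff.mpr (D.polS y hy)
        rw [Skeleton.toSkeleton_tensorObj, ← ht] at h1
        rw [← h1, pow_one, mul_assoc, hT, mul_one]
    obtain ⟨k, hk⟩ := hyd
    obtain ⟨l⟩ := D.dualL N hN
    have hPd : Nonempty ((Mot.T D.T a ⊗ Mot.T D.T' b)ᘁ ≅ Mot.T D.T b ⊗ Mot.T D.T' a) := by
      have h1 : ∀ a b : ℕ, Nonempty ((Mot.T D.T a ⊗ Mot.T D.T' b) ⊗
          (Mot.T D.T b ⊗ Mot.T D.T' a) ≅ 𝟙_ C) := by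
        intro a b
        rw [← toSkeleton_eq_toSkeleton_iff, hX, Skeleton.toSkeleton_tensorObj, MON_sk_T,
          MON_sk_T, ← ht, ← ht', hone, ← hbal (a + b), pow_add, pow_add]
        exact by ac_rfl
      obtain ⟨i1⟩ := h1 a b
      obtain ⟨i2⟩ := h1 b a
      exact MON_dual i1 i2
    obtain ⟨m⟩ := hPd
    obtain ⟨j⟩ := INZ_dualCongr i
    refine ⟨b, a + k, N, y, hN, hy, ?_⟩
    rw [← toSkeleton_eq_toSkeleton_iff, toSkeleton_eq_toSkeleton_iff.mpr ⟨j⟩,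
      toSkeleton_eq_toSkeleton_iff.mpr ⟨rightDualTensorIso (Mot.T D.T a ⊗ Mot.T D.T' b)
        (D.L N ⊗ y)⟩, Skeleton.toSkeleton_tensorObj,
      toSkeleton_eq_toSkeleton_iff.mpr ⟨rightDualTensorIso (D.L N) y⟩,
      Skeleton.toSkeleton_tensorObj, toSkeleton_eq_toSkeleton_iff.mpr ⟨l⟩,
      toSkeleton_eq_toSkeleton_iff.mpr ⟨m⟩, hk, Skeleton.toSkeleton_tensorObj, MON_sk_T,
      MON_sk_T, hX, Skeleton.toSkeleton_tensorObj, ← ht, ← ht', pow_add]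
    exact by ac_rfl

end

end Pool.Agent.WAE
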