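import Pool.Agent.WAE.St

/-!
# VAL: valuations of a relation
-/

set_option autoImplicit false

open Polynomial

namespace Pool.Agent.WAE

open Pool.Agent.TJ2

namespace VAL

section

variable {K : Type} [Field K] {k₀ : Type} [Field k₀] (ρ : integralClosure ℤ K →+* k₀)

/-- Quotients of integers which are units along `ρ`. -/
def Un (x : K) : Prop :=
  ∃ u v : integralClosure ℤ K, ρ u ≠ 0 ∧ ρ v ≠ 0 ∧ x * (v : K) = u

variable {ρ}

theorem ne_of {v : integralClosure ℤ K} (h : ρ v ≠ 0) : (v : K) ≠ 0 := by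
  intro h0
  apply h
  have h1 : v = 0 := Subtype.ext h0
  rw [h1, map_zero]

theorem Un.of {x : K} (hx : x ∈ integralClosure ℤ K) (h : ρ ⟨x, hx⟩ ≠ 0) : Un ρ x :=
  ⟨⟨x, hx⟩, 1, h, by rw [map_one]; exact one_ne_zero, by simp⟩

theorem Un.one : Un ρ (1 : K) :=
  ⟨1, 1, by rw [map_one]; exact one_ne_zero, by rw [map_one]; exact one_ne_zero, by simp⟩

theorem Un.mul {x y : K} (hx : Un ρ x) (hy : Un ρ y) : Un ρ (x * y) := by
  obtain ⟨u, v, hu, hv, h⟩ := hx
  obtain ⟨u', v', hu', hv', h'⟩ := hy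
  refine ⟨u * u', v * v', ?_, ?_, ?_⟩
  · rw [map_mul]
    exact mul_ne_zero hu hu'
  · rw [map_mul]
    exact mul_ne_zero hv hv'
  · push_cast
    rw [← h, ← h']
    ring

theorem Un.inv {x : K} (hx : Un ρ x) : Un ρ x⁻¹ := by
  obtain ⟨u, v, hu, hv, h⟩ := hx
  refine ⟨v, u, hv, hu, ?_⟩
  have hx0 : x ≠ 0 := by
    rintro rfl
    rw [zero_mul] at h
    exact ne_of hu h.symm
  rw [← h, inv_mul_cancel_left₀ hx0]

theorem Un.npow {x : K} (hx : Un ρ x) (n : ℕ) : Un ρ (x ^ n) := by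
  induction n with
  | zero => rw [pow_zero]; exact Un.one
  | succ n ih => rw [pow_succ]; exact ih.mul hx

theorem Un.zpow {x : K} (hx : Un ρ x) (n : ℤ) : Un ρ (x ^ n) := by
  obtain ⟨m, rfl | rfl⟩ := n.eq_nat_or_neg
  · rw [zpow_natCast]
    exact hx.npow m
  · rw [zpow_neg, zpow_natCast]
    exact (hx.npow m).inv

theorem Un.prod {ι : Type*} (s : Finset ι) (f : ι → K) (h : ∀ i ∈ s, Un ρ (f i)) :
    Un ρ (∏ i ∈ s, f i) := by
  classical
  induction s using Finset.induction_on with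
  | empty => rw [Finset.prod_empty]; exact Un.one
  | insert a s ha ih =>
    rw [Finset.prod_insert ha]
    exact (h a (Finset.mem_insert_self a s)).mul
      (ih fun i hi => h i (Finset.mem_insert_of_mem hi))

/-- Powers of `q` are not units. -/
theorem Un.q_pow {q : ℕ} (hq : (q : k₀) = 0) {n : ℕ} (hn : n ≠ 0) : ¬ Un ρ ((q : K) ^ n) := by
  rintro ⟨u, v, hu, hv, h⟩
  apply hu
  have h1 : u = (q : integralClosure ℤ K) ^ n * v := by
    apply Subtype.ext
    push_cast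
    exact h.symm
  rw [h1, map_mul, map_pow, map_natCast, hq, zero_pow hn, zero_mul]

theorem Un.q_zpow {q : ℕ} (hq : (q : k₀) = 0) {n : ℤ} (h : Un ρ ((q : K) ^ n)) : n = 0 := by
  by_contra hn
  obtain ⟨m, rfl | rfl⟩ := n.eq_nat_or_neg
  · rw [zpow_natCast] at h
    exact Un.q_pow hq (by simpa using hn) h
  · have h1 := h.inv
    rw [zpow_neg, inv_inv, zpow_natCast] at h1
    exact Un.q_pow hq (by simpa using hn) h1

theorem val_core [CharZero K] (q : ℕ) (hq1 : 1 ≤ q) (hq : (q : k₀) = 0) (s : Finset K) (m : K → ℤ)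
    (hs : ∀ a ∈ s, a ≠ 0 ∧ IsIntegral ℤ a ∧ IsIntegral ℤ ((q : K) / a) ∧
      ∀ (h1 : a ∈ integralClosure ℤ K) (h2 : (q : K) / a ∈ integralClosure ℤ K),
        (ρ ⟨a, h1⟩ = 0 ↔ ρ ⟨(q : K) / a, h2⟩ ≠ 0))
    (N : ℕ) (k : ℤ) (he : (∏ a ∈ s, a ^ m a) ^ N = (q : K) ^ k) (t : Finset K) (hts : t ⊆ s)
    (ht : ∀ a ∈ s, ∀ (h1 : a ∈ integralClosure ℤ K), (a ∈ t ↔ ρ ⟨a, h1⟩ = 0)) :
    (N : ℤ) * ∑ a ∈ t, m a = k := by
  classical
  have hq0 : (q : K) ≠ 0 := by
    have : q ≠ 0 := by omega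
    exact_mod_cast this
  -- the elements divided by `q` if they are in `t`
  have hun : ∀ a ∈ s, Un ρ (a * if a ∈ t then (q : K)⁻¹ else 1) := by
    intro a ha
    obtain ⟨h0, h1, h2, h3⟩ := hs a ha
    by_cases hat : a ∈ t
    · rw [if_pos hat]
      have h4 : Un ρ ((q : K) / a) := Un.of h2 ((h3 h1 h2).1 ((ht a ha h1).1 hat))
      have h5 := h4.inv
      rwa [inv_div, div_eq_mul_inv] at h5
    · rw [if_neg hat, mul_one]
      exact Un.of h1 fun h => hat ((ht a ha h1).2 h)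
  have hsum : ∀ u : Finset K, ∏ a ∈ u, ((q : K)⁻¹) ^ m a = ((q : K)⁻¹) ^ ∑ a ∈ u, m a := by
    intro u
    induction u using Finset.induction_on with
    | empty => simp
    | insert a u ha ih =>
      rw [Finset.prod_insert ha, Finset.sum_insert ha, ih, zpow_add₀ (inv_ne_zero hq0)]
  have hprod : ∏ a ∈ s, (a * if a ∈ t then (q : K)⁻¹ else 1) ^ m a =
      (∏ a ∈ s, a ^ m a) * ((q : K)⁻¹) ^ ∑ a ∈ t, m a := by
    rw [← hsum, ← Finset.inter_eq_right.2 hts, ← Finset.prod_ite_mem s t,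
      Finset.inter_eq_right.2 hts, ← Finset.prod_mul_distrib]
    refine Finset.prod_congr rfl fun a _ => ?_
    by_cases hat : a ∈ t
    · rw [if_pos hat, if_pos hat, mul_zpow]
    · rw [if_neg hat, if_neg hat, mul_one, mul_one]
  have hU : Un ρ ((∏ a ∈ s, (a * if a ∈ t then (q : K)⁻¹ else 1) ^ m a) ^ N) :=
    (Un.prod s _ fun a ha => (hun a ha).zpow _).npow N
  have hval : (∏ a ∈ s, (a * if a ∈ t then (q : K)⁻¹ else 1) ^ m a) ^ N =
      (q : K) ^ (k - (N : ℤ) * ∑ a ∈ t, m a) := by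
    rw [hprod, mul_pow, he, zpow_sub₀ hq0, mul_comm (N : ℤ), zpow_mul, zpow_natCast, inv_zpow,
      inv_pow, div_eq_mul_inv]
  rw [hval] at hU
  have h1 := Un.q_zpow hq hU
  omega

end

end VAL

theorem t_VAL : S_VAL := by
  intro q k₀ _ ρ hq1 hq s m hs N k he t hts ht
  exact VAL.val_core q hq1 hq s m hs N k he t hts ht

end Pool.Agent.WAE
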