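import Pool.Agent.WAE.Main0
import Pool.Agent.WAE.PRY
import Pool.Agent.WAE.Rep
import Pool.Agent.WAE.INX
import Pool.Agent.WAE.FLT
import Pool.Agent.WAE.GRX
import Pool.Agent.WAE.VAL
import Pool.Agent.WAE.ORR
import Pool.Agent.WAE.INW
import Pool.Agent.WAE.DOX
import Pool.Agent.WAE.UN1
import Pool.Agent.WAE.UN2
import Pool.Agent.WAE.FAX
import Pool.Agent.WAE.SSX
import Pool.Agent.WAE.KEX
import Pool.Agent.WAE.SUB
import Pool.Agent.WAE.FL1
import Pool.Agent.WAE.EC1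
import Pool.Agent.WAV.TSX
import Pool.Agent.TJ2.ORB
import Pool.Agent.TJ3.IND3
import Pool.Agent.TJ3.IND4
import Pool.Agent.TJ3.REL
import Pool.Agent.TJ3.GRP2
import Pool.Agent.TJ3.GAL
import Pool.Agent.TJ3.VAL
import Pool.Agent.TJ3.SGB
import Pool.Agent.TJ3.UNI
import Pool.Agent.TJ3.TRN
import Pool.Agent.TJ3.KRO
import Pool.Agent.TJ3.E1
import Pool.Agent.TJ3.E2

/-!
# Assembly of block WAE (MP_cb388a_ag, MP_6c4da4_ag; helper51)
-/

open CategoryTheory MonoidalCategory Limits Polynomial Filter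

universe v u

namespace Pool.Agent.WAE

open Pool.Agent.TJ2 Pool.Agent.WAV MotP.GGap

noncomputable section

/-! ## Arithmetic -/

theorem sub_all : S_SUB := t_SUB t_FL1 t_EC1

theorem inx_all : S_INX := t_INX (t_GRX_of t_ORB) (t_FLT t_VAL t_ORR)

theorem ind3_all : TJ3.S_IND3 :=
  TJ3.t_IND3 (TJ3.t_IND4 (TJ3.t_REL TJ3.t_GRP2 TJ3.t_GAL TJ3.t_SGB) TJ3.t_SGB)
    (TJ3.t_VAL TJ3.t_SGB) TJ3.t_GIS

theorem uni_all : TJ3.S_UNI := TJ3.t_UNI TJ3.t_SGB TJ3.t_TRN TJ3.t_KRO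

/-- the criterion holds for `Sel1 q` -/
theorem crit_Sel1 {q : ℕ} {P : Ideal TJ3.Zb} (hq : IsPrimePow q) (hP : P.IsPrime)
    (hp : ((q.minFac : ℕ) : TJ3.Zb) ∈ P) : TJ3.Crit q P (Sel1 q) :=
  crit_of_rep (TJ3.t_E1 TJ3.t_SGB uni_all TJ3.t_GIS)
    (TJ3.t_E2 TJ3.t_SGB uni_all TJ3.t_GIS TJ3.t_GAL) hq hP hp (fun _ hh => hh.1)
    (rep_Sel1 t_RPX inx_all hq)

/-! ## The category -/

theorem inw_all : S_INW.{v, u} := t_INW t_DOX t_UN1 t_UN2

theorem pry_all : S_PRY.{v, u} := t_PRY inw_all t_UN1 (t_FAX t_KEX) t_SSX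

theorem nty_all : S_NTY.{v, u} := t_NTY pry_all

/-- all groups of Weil-etale motivic cohomology are finitely generated -/
theorem fgY (C : Type u) [Category.{0} C] [Preadditive C] [Linear ℚ C] [MonoidalCategory C]
    [SymmetricCategory C] [MonoidalPreadditive C] [MonoidalLinear ℚ C] [RightRigidCategory C]
    [HasFiniteBiproducts C] [IsIdempotentComplete C] (W : MotP.Frobenius C) (q : ℕ)
    (hq : IsPrimePow q) (S : Set ℤ[X]) (hS : S ⊆ FO q) (hR : Rep q S) (D : AVL W q S)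
    (M : Chow W) (hM : M.q = q) (hL : Lef M D.T)
    (X : M.V) (hX : Gen D.Obj (M.h X)) (n : ℕ) : (M.coh X).L n := by
  have hq2 : 2 ≤ q := hq.two_le
  have hN : M.old.Nil X := by
    rintro a ⟨ℓ, hℓ, n, ha⟩
    have h1 : MotP.NumTrivial (a : M.h X ⟶ M.h X) := M.old.triv X ℓ hℓ n a ha
    have h2 : (a : M.h X ⟶ M.h X) = 0 :=
      (t_ABE C W D.Obj (nty_all C W q S D hq2 hS hR)).2 _ _ _ hX hX h1
    have h3 : a = 0 := h2
    rw [h3]
    exact IsNilpotent.zero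
  have hTS : ∀ n, n ≤ (M.old.th X).d → M.old.TS X n := by
    intro n hn
    obtain ⟨ℓ, hℓ⟩ := WE.Fam.exists_ne M.p
    obtain ⟨Q, hQ0, hQ1, hQ2⟩ := pry_all C W q S D hq2 hS hR (M.h X) hX n
    obtain ⟨h1, h2⟩ := t_TSX C W M D.T hL X n hn Q (by rw [hM]; exact hQ0)
      (by rw [hM]; exact hQ1) hQ2 ℓ hℓ
    exact ⟨ℓ, hℓ, h1, h2⟩
  rcases le_or_gt n (M.old.th X).d with h | h
  · exact M.old.L_of_TS t_PR0 t_NPR X hN hTS n h
  · exact t_NGD M.old X n h hN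

/-- the generated category is abelian and has no numerically trivial morphisms -/
theorem abY (C : Type u) [Category.{v} C] [Preadditive C] [Linear ℚ C] [MonoidalCategory C]
    [SymmetricCategory C] [MonoidalPreadditive C] [MonoidalLinear ℚ C] [RightRigidCategory C]
    [HasFiniteBiproducts C] [IsIdempotentComplete C] (W : MotP.Frobenius C) (q : ℕ)
    (hq : IsPrimePow q) (S : Set ℤ[X]) (hS : S ⊆ FO q) (hR : Rep q S) (D : AVL W q S) :
    MotP.IsAbelian (GenCat D.Obj) ∧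
      ∀ (X Y : C) (f : X ⟶ Y), Gen D.Obj X → Gen D.Obj Y → MotP.NumTrivial f → f = 0 :=
  t_ABE C W D.Obj (nty_all C W q S D hq.two_le hS hR)

end

end Pool.Agent.WAE
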