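import Pool.Agent.TJ2.CDefs

/-!
# Definitions: the tensor category generated by Artin motives, elliptic curves, supersingular
abelian varieties and the ordinary abelian varieties with large Galois group (MP_cb388a_ag, helper51)
-/

open CategoryTheory MonoidalCategory BraidedCategory Limits Polynomial IntermediateField

universe v u

namespace Pool.Agent.WAE

open Pool.Agent.TJ2

noncomputable section

/-- The ordinary abelian varieties with real Weil polynomials `h`, `h'` have a common isogeny factor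
over some finite extension (for `h`, `h'` full: they are isogenous over it). -/
def GI (q : ℕ) (h h' : ℤ[X]) : Prop :=
  ∃ N : ℕ, 1 ≤ N ∧ ∃ a ∈ Om q h, ∃ a' ∈ Om q h', a ^ N = a' ^ N

/-- The full ordinary real Weil polynomials `h` which are determined, up to isogeny over finite
extensions, by the field `ℚ(a)` generated by a Frobenius eigenvalue. -/
def Sel1 (q : ℕ) : Set ℤ[X] :=
  {h | h ∈ FO q ∧ ∀ h' ∈ FO q, ∀ a ∈ Om q h, ∀ a' ∈ Om q h', ℚ⟮a⟯ = ℚ⟮a'⟯ → GI q h h'}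

section Cat

variable {C : Type u} [Category.{v} C] [Preadditive C] [Linear ℚ C] [MonoidalCategory C]
  [SymmetricCategory C] [MonoidalPreadditive C] [MonoidalLinear ℚ C] [RightRigidCategory C]

/-- `Z` is a direct summand of a finite direct sum of copies of `Y` -/
def Smd (Y Z : C) : Prop :=
  ∃ (n : ℕ) (i : Fin n → (Z ⟶ Y)) (p : Fin n → (Y ⟶ Z)), ∑ k, i k ≫ p k = 𝟙 Z

/-- Objects `T` (Lefschetz motive), `T'` (its inverse), `L N` (the motive of the field with `q ^ N`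
elements), `M h`, `h ∈ S` (the motive `h¹` of an abelian variety with Weil polynomial
`x ^ g h (x + q / x)`) and a class `Ss` of objects (the motives `h¹` of the supersingular abelian
varieties), in a category with a Frobenius structure. -/
structure AVL (W : MotP.Frobenius C) (q : ℕ) (S : Set ℤ[X]) where
  T : C
  T' : C
  L : ℕ → C
  M : ℤ[X] → C
  Ss : C → Prop
  unitT : Nonempty (T ⊗ T' ≅ 𝟙_ C)
  frobT : W.F.app T = (q : ℚ) • 𝟙 T
  oneL : Nonempty (L 1 ≅ 𝟙_ C)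
  frobL : ∀ N, 1 ≤ N → Mot.component W.F (L N) ^ N = 1
  sumL : ∀ N, 1 ≤ N → ∃ (r : L N ⟶ 𝟙_ C) (s : 𝟙_ C ⟶ L N),
    ∑ i ∈ Finset.range N, Mot.component W.F (L N) ^ i = (r ≫ s : L N ⟶ L N)
  dualL : ∀ N, 1 ≤ N → Nonempty ((L N)ᘁ ≅ L N)
  tensL : ∀ N N', 1 ≤ N → 1 ≤ N' → Smd (L (N * N')) (L N ⊗ L N')
  even : ∀ h ∈ S, W.even (M h) = 0
  odd : ∀ h ∈ S, W.odd (M h) = (weil q h).aroots ℂ
  root : ∀ h ∈ S, aeval (Mot.component W.F (M h)) (weil q h) = 0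
  pol : ∀ h ∈ S, Nonempty ((M h)ᘁ ⊗ T ≅ M h)
  kim : ∀ h ∈ S, ∀ e : M h ⊗ M h ⟶ M h ⊗ M h, e ≫ e = e → Mot.trace e = 0 → e = 0
  isog : ∀ h ∈ S, ∀ h' ∈ S, ∀ N : ℕ, 1 ≤ N → ∀ a ∈ Om q h, ∀ a' ∈ Om q h', a ^ N = a' ^ N →
    Smd (L N ⊗ M h) (M h')
  polS : ∀ Y, Ss Y → Nonempty (Yᘁ ⊗ T ≅ Y)
  frobS : ∀ Y, Ss Y → ∃ N, 1 ≤ N ∧ Mot.component W.F Y ^ (2 * N) = (q : ℚ) ^ N • 1
  tensS : ∀ Y Z, Ss Y → Ss Z → ∃ N, 1 ≤ N ∧ Smd (L N ⊗ T) (Y ⊗ Z)

/-- the generators: `T`, `L N` for `N ≥ 1`, `M h` for `h ∈ S`, and the objects in `Ss` -/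
def AVL.Obj {W : MotP.Frobenius C} {q : ℕ} {S : Set ℤ[X]} (D : AVL W q S) (Y : C) : Prop :=
  Y = D.T ∨ (∃ N, 1 ≤ N ∧ Y = D.L N) ∨ (∃ h ∈ S, Y = D.M h) ∨ D.Ss Y

end Cat

end

end Pool.Agent.WAE
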