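import Pool.Agent.WAE.St
import Pool.Agent.TJ2.STAB

/-!
# Module WAE_EC1: ordinary elliptic curves with the same CM field (MP_cb388a_ag, by helper30)
-/

open Polynomial IntermediateField

namespace Pool.Agent.WAE

open Pool.Agent.TJ2

noncomputable section

namespace EC1

/-- `x + y = Q c`, `x y = Q ^ 2`, `|c| ≤ 2` -/
lemma twelve {K : Type*} [Field K] (x y Q : K) (c : ℤ) (hc : |c| ≤ 2) (h1 : x + y = Q * c)
    (h2 : x * y = Q ^ 2) : x ^ 12 = Q ^ 12 := by
  have h3 : x ^ 2 - Q * c * x + Q ^ 2 = 0 := by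
    rw [← h1, ← h2]
    ring
  have hc' : c = -2 ∨ c = -1 ∨ c = 0 ∨ c = 1 ∨ c = 2 := by
    rw [abs_le] at hc
    omega
  rcases hc' with rfl | rfl | rfl | rfl | rfl
  · have h4 : (x + Q) ^ 2 = 0 := by
      push_cast at h3
      linear_combination h3
    have h5 : x = -Q := by
      have := pow_eq_zero_iff (two_ne_zero) |>.1 h4
      linear_combination this
    rw [h5]
    ring
  · have h4 : x ^ 3 = Q ^ 3 := by
      push_cast at h3
      linear_combination (x - Q) * h3
    calc x ^ 12 = (x ^ 3) ^ 4 := by ring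
      _ = Q ^ 12 := by rw [h4]; ring
  · have h4 : x ^ 2 = -Q ^ 2 := by
      push_cast at h3
      linear_combination h3
    calc x ^ 12 = (x ^ 2) ^ 6 := by ring
      _ = Q ^ 12 := by rw [h4]; ring
  · have h4 : x ^ 3 = -Q ^ 3 := by
      push_cast at h3
      linear_combination (x + Q) * h3
    calc x ^ 12 = (x ^ 3) ^ 4 := by ring
      _ = Q ^ 12 := by rw [h4]; ring
  · have h4 : (x - Q) ^ 2 = 0 := by
      push_cast at h3
      linear_combination h3
    have h5 : x = Q := by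
      have := pow_eq_zero_iff (two_ne_zero) |>.1 h4
      linear_combination this
    rw [h5]

/-- the bound of the integer `A` -/
lemma bound (A B t t' q : ℤ) (hq : 0 < q) (h1 : A + B = t * t')
    (h2 : A * B = q * (t ^ 2 + t' ^ 2 - 4 * q)) (h4 : t ^ 2 ≤ 4 * q) (h4' : t' ^ 2 ≤ 4 * q) :
    |A| ≤ 2 * q := by
  have e1 : q * (t - t') ^ 2 + (A - 2 * q) * (A + 2 * q - t * t') = 0 := by
    rw [← h1]
    linear_combination -1 * h2 + 2 * q * h1
  have e2 : q * (t + t') ^ 2 + (A + 2 * q) * (A - 2 * q - t * t') = 0 := by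
    rw [← h1]
    linear_combination -1 * h2 - 2 * q * h1
  have f1 : 0 ≤ q * (t - t') ^ 2 := by positivity
  have f2 : 0 ≤ q * (t + t') ^ 2 := by positivity
  have g1 : t * t' ≤ 4 * q := by nlinarith [sq_nonneg (t - t')]
  have g2 : -(4 * q) ≤ t * t' := by nlinarith [sq_nonneg (t + t')]
  rw [abs_le]
  constructor
  · by_contra hA
    push Not at hA
    have : 0 < (-(A + 2 * q)) * (-(A - 2 * q - t * t')) := mul_pos (by linarith) (by linarith)
    nlinarith
  · by_contra hA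
    push Not at hA
    have : 0 < (A - 2 * q) * (A + 2 * q - t * t') := mul_pos (by linarith) (by linarith)
    nlinarith

/-- `q` divides one of the factors -/
lemma dvd_or (q : ℕ) (hq : IsPrimePow q) (A B : ℤ) (h1 : (q : ℤ) ∣ A * B)
    (h2 : ¬ (q.minFac : ℤ) ∣ A + B) : (q : ℤ) ∣ A ∨ (q : ℤ) ∣ B := by
  have hp : q.minFac.Prime := Nat.minFac_prime hq.one_lt.ne'
  have hpi : Prime (q.minFac : ℤ) := Nat.prime_iff_prime_int.1 hp
  have hqp : (q : ℤ) = (q.minFac : ℤ) ^ (q.factorization q.minFac) := by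
    exact_mod_cast hq.minFac_pow_factorization_eq.symm
  have key : ∀ Z : ℤ, ¬ (q.minFac : ℤ) ∣ Z → IsCoprime (q : ℤ) Z := by
    intro Z hZ
    rw [hqp]
    exact IsCoprime.pow_left ((Prime.coprime_iff_not_dvd hpi).2 hZ)
  by_cases hA : (q.minFac : ℤ) ∣ A
  · have hB : ¬ (q.minFac : ℤ) ∣ B := fun hB => h2 (dvd_add hA hB)
    exact Or.inl ((key B hB).dvd_of_dvd_mul_right h1)
  · exact Or.inr ((key A hA).dvd_of_dvd_mul_left h1)

/-- the arithmetic -/
lemma core (q : ℕ) (hq : IsPrimePow q) (a b a' b' : Qb) (t t' A B : ℤ) (hab : a * b = q)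
    (hab' : a' * b' = q) (ht : a + b = t) (ht' : a' + b' = t') (hA : a * a' + b * b' = A)
    (hB : a * b' + b * a' = B) (hp : ¬ (q.minFac : ℤ) ∣ t) (hp' : ¬ (q.minFac : ℤ) ∣ t')
    (h4 : t ^ 2 ≤ 4 * q) (h4' : t' ^ 2 ≤ 4 * q) : a ^ 12 = a' ^ 12 ∨ a ^ 12 = b' ^ 12 := by
  have hq0 : (q : Qb) ≠ 0 := by
    have := hq.one_lt
    have : q ≠ 0 := by omega
    exact_mod_cast this
  have hq0' : (0 : ℤ) < q := by
    have := hq.one_lt
    omega
  have hpi : Prime (q.minFac : ℤ) :=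
    Nat.prime_iff_prime_int.1 (Nat.minFac_prime hq.one_lt.ne')
  have e1 : A + B = t * t' := by
    have : ((A + B : ℤ) : Qb) = ((t * t' : ℤ) : Qb) := by
      push_cast
      rw [← hA, ← hB, ← ht, ← ht']
      ring
    exact_mod_cast this
  have e2 : A * B = q * (t ^ 2 + t' ^ 2 - 4 * q) := by
    have : ((A * B : ℤ) : Qb) = ((q * (t ^ 2 + t' ^ 2 - 4 * q) : ℤ) : Qb) := by
      push_cast
      rw [← hA, ← hB, ← ht, ← ht']
      linear_combination (a' ^ 2 + b' ^ 2 - 2 * (q : Qb)) * hab +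
        (a ^ 2 + b ^ 2 - 2 * (q : Qb)) * hab'
    exact_mod_cast this
  have hA0 : a' ≠ 0 := by
    rintro rfl
    rw [zero_mul] at hab'
    exact hq0 hab'.symm
  have hB0 : b' ≠ 0 := by
    rintro rfl
    rw [mul_zero] at hab'
    exact hq0 hab'.symm
  have hnd : ¬ (q.minFac : ℤ) ∣ A + B := by
    rw [e1]
    intro h
    rcases hpi.dvd_or_dvd h with h | h
    · exact hp h
    · exact hp' h
  rcases dvd_or q hq A B ⟨_, e2⟩ hnd with ⟨c, hc⟩ | ⟨c, hc⟩
  · right
    have hb := bound A B t t' q hq0' e1 e2 h4 h4'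
    have hc2 : |c| ≤ 2 := by
      rw [hc, abs_mul, abs_of_pos hq0'] at hb
      nlinarith
    have h12 := twelve (a * a') (b * b') (q : Qb) c hc2 (by rw [hA, hc]; push_cast; ring)
      (by linear_combination (a' * b') * hab + (q : Qb) * hab')
    have h13 : a ^ 12 * a' ^ 12 = b' ^ 12 * a' ^ 12 := by
      rw [← mul_pow, h12, ← mul_pow, ← hab']
      ring
    exact mul_right_cancel₀ (pow_ne_zero 12 hA0) h13
  · left
    have hb := bound B A t t' q hq0' (by rw [← e1]; ring) (by rw [← e2]; ring) h4 h4'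
    have hc2 : |c| ≤ 2 := by
      rw [hc, abs_mul, abs_of_pos hq0'] at hb
      nlinarith
    have h12 := twelve (a * b') (b * a') (q : Qb) c hc2 (by rw [hB, hc]; push_cast; ring)
      (by linear_combination (a' * b') * hab + (q : Qb) * hab')
    have h13 : a ^ 12 * b' ^ 12 = a' ^ 12 * b' ^ 12 := by
      rw [← mul_pow, h12, ← mul_pow, ← hab']
    exact mul_right_cancel₀ (pow_ne_zero 12 hB0) h13

/-- the data of an ordinary elliptic curve -/
lemma data (q : ℕ) (hq : IsPrimePow q) (h : ℤ[X]) (hh : h ∈ FO q) (h1 : h.natDegree = 1) (a : Qb)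
    (ha : a ∈ Om q h) : ∃ t : ℤ, a ≠ 0 ∧ a + (q : Qb) / a = t ∧ ¬ (q.minFac : ℤ) ∣ t ∧
      t ^ 2 ≤ 4 * q ∧ a ≠ (q : Qb) / a ∧ (∀ τ : Qb ≃ₐ[ℚ] Qb, τ a = a ∨ τ a = (q : Qb) / a) := by
  have hq0 : (q : Qb) ≠ 0 := by
    have := hq.one_lt
    have : q ≠ 0 := by omega
    exact_mod_cast this
  obtain ⟨-, ⟨⟨hm, -, hroot⟩, hp⟩, hfull⟩ := hh
  have hX : h = X + C (h.coeff 0) := hm.eq_X_add_C h1
  obtain ⟨s, hs⟩ : ∃ s : ℤ, s = h.coeff 0 := ⟨_, rfl⟩
  rw [← hs] at hX hp
  have hev : ∀ z : Qb, aeval z h = z + s := by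
    intro z
    rw [hX]
    simp
  obtain ⟨ha0, ha1⟩ := ha
  rw [hev] at ha1
  have hsub : ∀ x ∈ Om q h, x = a ∨ x = (q : Qb) / a := by
    intro x hx
    obtain ⟨hx0, hx1⟩ := hx
    rw [hev] at hx1
    have e1 : (x - a) * (x - (q : Qb) / a) = 0 := by
      have e2 : x + (q : Qb) / x = a + (q : Qb) / a := by linear_combination hx1 - ha1
      have e3 : x * (x + (q : Qb) / x) = x ^ 2 + q := by
        field_simp
      have e4 : a * ((q : Qb) / a) = q := by
        field_simp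
      rw [e2] at e3
      linear_combination e4 - e3
    rcases mul_eq_zero.1 e1 with e | e
    · exact Or.inl (by linear_combination e)
    · exact Or.inr (by linear_combination e)
  refine ⟨-s, ha0, by push_cast; linear_combination ha1, ?_, ?_, ?_, ?_⟩
  · rwa [dvd_neg]
  · have h2 := (hroot (-s : ℂ) (by rw [hX]; simp)).2
    have h3 : (-s : ℂ).re = -(s : ℝ) := by simp
    rw [h3, abs_neg] at h2
    have h4 : (s : ℝ) ^ 2 ≤ 4 * q := by
      calc (s : ℝ) ^ 2 = |(s : ℝ)| ^ 2 := (sq_abs _).symm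
        _ ≤ (2 * Real.sqrt q) ^ 2 := pow_le_pow_left₀ (abs_nonneg _) h2 2
        _ = 4 * q := by
          rw [mul_pow, Real.sq_sqrt (Nat.cast_nonneg q)]
          ring
    have h5 : s ^ 2 ≤ 4 * (q : ℤ) := by exact_mod_cast h4
    linarith [neg_sq s]
  · intro h3
    have h4 : Om q h ⊆ {a} := by
      intro x hx
      rcases hsub x hx with e | e
      · exact e
      · rw [← h3] at e
        exact e
    have h5 := Set.ncard_le_ncard h4 (Set.finite_singleton a)
    rw [hfull.1, h1, Set.ncard_singleton] at h5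
    omega
  · intro τ
    apply hsub
    refine ⟨(map_ne_zero τ).2 ha0, ?_⟩
    rw [hev]
    have e1 := congrArg τ ha1
    rw [map_add, map_add, map_div₀, map_natCast, map_intCast, map_zero] at e1
    exact e1

/-- a number which is fixed by all automorphisms and integral is an integer -/
lemma exists_int (x : Qb) (hx : ∀ τ : Qb ≃ₐ[ℚ] Qb, τ x = x) (hi : IsIntegral ℤ x) :
    ∃ A : ℤ, x = A := by
  have hg : IsGalois ℚ Qb := STAB_galois
  have h1 : x ∈ Set.range (algebraMap ℚ Qb) := by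
    rw [InfiniteGalois.mem_range_algebraMap_iff_fixed]
    exact hx
  obtain ⟨r, hr⟩ := h1
  rw [← hr, isIntegral_algebraMap_iff (FaithfulSMul.algebraMap_injective ℚ Qb)] at hi
  obtain ⟨n, hn⟩ := IsIntegrallyClosed.algebraMap_eq_of_integral hi
  refine ⟨n, ?_⟩
  rw [← hr, ← hn]
  simp

/-- `a` is an algebraic integer -/
lemma integral (q : ℕ) (a : Qb) (t : ℤ) (ha : a ≠ 0) (h : a + (q : Qb) / a = t) :
    IsIntegral ℤ a := by
  refine ⟨X ^ 2 + (C (-t) * X + C (q : ℤ)), ?_, ?_⟩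
  · monicity!
  · have e1 : a * (a + (q : Qb) / a) = a ^ 2 + q := by
      field_simp
    rw [h] at e1
    rw [eval₂_add, eval₂_add, eval₂_mul, eval₂_pow, eval₂_X, eval₂_C, eval₂_C, eq_intCast, eq_intCast]
    push_cast
    linear_combination -e1

/-- an automorphism which fixes a number fixes the field generated by it -/
lemma fix (τ : Qb ≃ₐ[ℚ] Qb) (a a' : Qb) (h : a' ∈ ℚ⟮a⟯) (ha : τ a = a) : τ a' = a' := by
  have h1 : ℚ⟮a⟯ ≤ IntermediateField.fixedField (Subgroup.zpowers τ) := by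
    rw [IntermediateField.adjoin_simple_le_iff, IntermediateField.mem_fixedField_iff]
    intro f hf
    have h2 : Subgroup.zpowers τ ≤ MulAction.stabilizer (Qb ≃ₐ[ℚ] Qb) a := by
      rw [Subgroup.zpowers_le]
      exact ha
    exact h2 hf
  exact (IntermediateField.mem_fixedField_iff _ _).1 (h1 h) τ (Subgroup.mem_zpowers τ)

end EC1

theorem t_EC1 : S_EC1 := by
  intro q h h' a a' hq hh hh' h1 h1' ha ha' hQ
  obtain ⟨t, a0, at1, at2, at3, at4, at5⟩ := EC1.data q hq h hh h1 a ha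
  obtain ⟨t', a0', bt1, bt2, bt3, bt4, bt5⟩ := EC1.data q hq h' hh' h1' a' ha'
  have hq0 : (q : Qb) ≠ 0 := by
    have := hq.one_lt
    have : q ≠ 0 := by omega
    exact_mod_cast this
  obtain ⟨b, hb⟩ : ∃ b, b = (q : Qb) / a := ⟨_, rfl⟩
  obtain ⟨b', hb'⟩ : ∃ b', b' = (q : Qb) / a' := ⟨_, rfl⟩
  have hab : a * b = q := by
    rw [hb]
    field_simp
  have hab' : a' * b' = q := by
    rw [hb']
    field_simp
  have hia := EC1.integral q a t a0 at1
  have hia' := EC1.integral q a' t' a0' bt1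
  rw [← hb] at at1 at4 at5
  rw [← hb'] at bt1 bt4 bt5
  rw [← hb']
  have hib : IsIntegral ℤ b := by
    have e : b = (t : Qb) - a := by linear_combination at1
    rw [e]
    exact (isIntegral_algebraMap (x := t)).sub hia
  have hib' : IsIntegral ℤ b' := by
    have e : b' = (t' : Qb) - a' := by linear_combination bt1
    rw [e]
    exact (isIntegral_algebraMap (x := t')).sub hia'
  have hm : a' ∈ ℚ⟮a⟯ := by
    rw [hQ]
    exact IntermediateField.mem_adjoin_simple_self ℚ a'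
  have hm' : a ∈ ℚ⟮a'⟯ := by
    rw [← hQ]
    exact IntermediateField.mem_adjoin_simple_self ℚ a
  have hτ : ∀ τ : Qb ≃ₐ[ℚ] Qb, (τ a = a ∧ τ b = b ∧ τ a' = a' ∧ τ b' = b') ∨
      (τ a = b ∧ τ b = a ∧ τ a' = b' ∧ τ b' = a') := by
    intro τ
    have e1 : τ a + τ b = a + b := by
      rw [← map_add, at1, map_intCast]
    have e2 : τ a' + τ b' = a' + b' := by
      rw [← map_add, bt1, map_intCast]
    rcases at5 τ with h2 | h2
    · have h3 := EC1.fix τ a a' hm h2
      exact Or.inl ⟨h2, by linear_combination e1 - h2, h3, by linear_combination e2 - h3⟩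
    · rcases bt5 τ with h3 | h3
      · have h4 := EC1.fix τ a' a hm' h3
        exact absurd (h4.symm.trans h2) at4
      · exact Or.inr ⟨h2, by linear_combination e1 - h2, h3, by linear_combination e2 - h3⟩
  obtain ⟨A, hA⟩ := EC1.exists_int (a * a' + b * b') (by
    intro τ
    rw [map_add, map_mul, map_mul]
    rcases hτ τ with ⟨e1, e2, e3, e4⟩ | ⟨e1, e2, e3, e4⟩
    · rw [e1, e2, e3, e4]
    · rw [e1, e2, e3, e4]
      ring)
    ((hia.mul hia').add (hib.mul hib'))
  obtain ⟨B, hB⟩ := EC1.exists_int (a * b' + b * a') (by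
    intro τ
    rw [map_add, map_mul, map_mul]
    rcases hτ τ with ⟨e1, e2, e3, e4⟩ | ⟨e1, e2, e3, e4⟩
    · rw [e1, e2, e3, e4]
    · rw [e1, e2, e3, e4]
      ring)
    ((hia.mul hib').add (hib.mul hia'))
  exact EC1.core q hq a b a' b' t t' A B hab hab' at1 bt1 hA hB at2 bt2 at3 bt3

end

end Pool.Agent.WAE
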