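import Pool.Agent.WAE.St
import Pool.Agent.WAV.Main0

/-!
# Assembly (MP_cb388a_ag, helper51): finite generation from the modules of block WAE
-/

open CategoryTheory MonoidalCategory Limits Polynomial Filter

universe v u

namespace Pool.Agent.WAE

open Pool.Agent.TJ2 Pool.Agent.WAV MotP.GGap

noncomputable section

/-- all groups of Weil-etale motivic cohomology are finitely generated -/
theorem fg (hPRX : S_PRX.{0, u}) (hNTX : S_NTX.{0, u}) (hTSX : S_TSX.{u})
    (C : Type u) [Category.{0} C] [Preadditive C] [Linear ℚ C] [MonoidalCategory C]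
    [SymmetricCategory C] [MonoidalPreadditive C] [MonoidalLinear ℚ C] [RightRigidCategory C]
    [HasFiniteBiproducts C] [IsIdempotentComplete C] (W : MotP.Frobenius C) (q : ℕ)
    (hq : IsPrimePow q) (D : AVL W q (Sel1 q)) (M : Chow W) (hM : M.q = q) (hL : Lef M D.T)
    (X : M.V) (hX : Gen D.Obj (M.h X)) (n : ℕ) : (M.coh X).L n := by
  have hN : M.old.Nil X := by
    rintro a ⟨ℓ, hℓ, n, ha⟩
    have h1 : MotP.NumTrivial (a : M.h X ⟶ M.h X) := M.old.triv X ℓ hℓ n a ha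
    have h2 : (a : M.h X ⟶ M.h X) = 0 :=
      (t_ABE C W D.Obj (hNTX C W q D hq)).2 _ _ _ hX hX h1
    have h3 : a = 0 := h2
    rw [h3]
    exact IsNilpotent.zero
  have hTS : ∀ n, n ≤ (M.old.th X).d → M.old.TS X n := by
    intro n hn
    obtain ⟨ℓ, hℓ⟩ := WE.Fam.exists_ne M.p
    obtain ⟨Q, hQ0, hQ1, hQ2⟩ := hPRX C W q D hq (M.h X) hX n
    obtain ⟨h1, h2⟩ := hTSX C W M D.T hL X n hn Q (by rw [hM]; exact hQ0)
      (by rw [hM]; exact hQ1) hQ2 ℓ hℓ
    exact ⟨ℓ, hℓ, h1, h2⟩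
  rcases le_or_gt n (M.old.th X).d with h | h
  · exact M.old.L_of_TS t_PR0 t_NPR X hN hTS n h
  · exact t_NGD M.old X n h hN

/-- density, from the density of the smaller set `Sel q` -/
theorem density1 (hSUB : S_SUB) {g : ℕ} (hg : 1 ≤ g) : Tendsto
    (fun q : {q : ℕ // IsPrimePow q} => ((Sel1 q ∩ Ord g q).ncard : ℝ) / (Ord g q).ncard)
    atTop (nhds 1) := by
  refine tendsto_of_tendsto_of_tendsto_of_le_of_le (density hg) tendsto_const_nhds ?_ ?_
  · intro q
    have hfin : (Ord g (q : ℕ)).Finite := (t_BOX g q).1.subset fun h hh => hh.1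
    have h1 : (Sel (q : ℕ) ∩ Ord g q).ncard ≤ (Sel1 (q : ℕ) ∩ Ord g q).ncard :=
      Set.ncard_le_ncard (Set.inter_subset_inter_left _ (hSUB q q.2).1)
        (hfin.subset Set.inter_subset_right)
    have h2 : ((Sel (q : ℕ) ∩ Ord g q).ncard : ℝ) ≤ (Sel1 (q : ℕ) ∩ Ord g q).ncard := by
      exact_mod_cast h1
    exact div_le_div_of_nonneg_right h2 (by positivity)
  · intro q
    have hfin : (Ord g (q : ℕ)).Finite := (t_BOX g q).1.subset fun h hh => hh.1
    have h1 : (Sel1 (q : ℕ) ∩ Ord g q).ncard ≤ (Ord g (q : ℕ)).ncard :=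
      Set.ncard_le_ncard Set.inter_subset_right hfin
    have h2 : ((Sel1 (q : ℕ) ∩ Ord g q).ncard : ℝ) ≤ (Ord g (q : ℕ)).ncard := by
      exact_mod_cast h1
    exact div_le_one_of_le₀ h2 (by positivity)

end

end Pool.Agent.WAE
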