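import Pool.Agent.WAE.Rep
import Pool.Agent.TJ3.E2
import Pool.Agent.TJ3.GAL
import Pool.Agent.TJ2.REF
import Pool.Agent.TJ2.DEL

/-!
# Surfaces with the same splitting field (MP_cb388a_ag, helper51)

A member of `Sel q` of degree 2 has, up to geometric isogeny, no other member of `FO q` with the same
splitting field.
-/

open Polynomial IntermediateField

namespace Pool.Agent.WAE

open Pool.Agent.TJ2

noncomputable section

namespace RFX

/-- the elements of `Om q h` are `c, q / c, d, q / d` -/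
def Four (q : ℕ) (h : ℤ[X]) (c d : Qb) : Prop :=
  c ∈ Om q h ∧ d ∈ Om q h ∧ d ≠ c ∧ d ≠ (q : Qb) / c ∧
    ∀ x ∈ Om q h, x = c ∨ x = (q : Qb) / c ∨ x = d ∨ x = (q : Qb) / d

lemma bar_bar {q : ℕ} (hq : 1 ≤ q) {h : ℤ[X]} {x : Qb} (hx : x ∈ Om q h) :
    (q : Qb) / ((q : Qb) / x) = x := by
  have hq0 : (q : Qb) ≠ 0 := by
    have : q ≠ 0 := by omega
    exact_mod_cast this
  have hx0 : x ≠ 0 := hx.1
  field_simp

lemma map_bar (q : ℕ) (σ : Qb ≃ₐ[ℚ] Qb) (x : Qb) : σ ((q : Qb) / x) = (q : Qb) / σ x := by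
  rw [map_div₀, map_natCast]

lemma Four.symm {q : ℕ} (hq : 1 ≤ q) {h : ℤ[X]} {c d : Qb} (H : Four q h c d) :
    Four q h d c := by
  obtain ⟨hc, hd, h1, h2, h3⟩ := H
  refine ⟨hd, hc, h1.symm, ?_, ?_⟩
  · intro e
    apply h2
    rw [e, bar_bar hq hd]
  · intro x hx
    rcases h3 x hx with h | h | h | h
    · exact Or.inr (Or.inr (Or.inl h))
    · exact Or.inr (Or.inr (Or.inr h))
    · exact Or.inl h
    · exact Or.inr (Or.inl h)

lemma Four.bar {q : ℕ} (hq : 1 ≤ q) {h : ℤ[X]} (hh : h ∈ FO q) {c d : Qb} (H : Four q h c d) :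
    Four q h c ((q : Qb) / d) := by
  obtain ⟨hc, hd, h1, h2, h3⟩ := H
  have hdb : (q : Qb) / d ∈ Om q h := ((t_OMB h.natDegree q h hq hh.2.1.1.1 rfl).2.1 d hd).1
  refine ⟨hc, hdb, ?_, ?_, ?_⟩
  · intro e
    apply h2
    rw [← e, bar_bar hq hd]
  · intro e
    apply h1
    rw [← bar_bar hq hd, e, bar_bar hq hc]
  · intro x hx
    rw [bar_bar hq hd]
    rcases h3 x hx with h | h | h | h
    · exact Or.inl h
    · exact Or.inr (Or.inl h)
    · exact Or.inr (Or.inr (Or.inr h))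
    · exact Or.inr (Or.inr (Or.inl h))

/-- an automorphism is determined on `Om q h` by its values at `c` and `d` -/
lemma Four.ext {q : ℕ} {h : ℤ[X]} {c d : Qb} (H : Four q h c d) {σ τ : Qb ≃ₐ[ℚ] Qb}
    (h1 : σ c = τ c) (h2 : σ d = τ d) : ∀ x ∈ Om q h, σ x = τ x := by
  intro x hx
  rcases H.2.2.2.2 x hx with rfl | rfl | rfl | rfl
  · exact h1
  · rw [map_bar, map_bar, h1]
  · exact h2
  · rw [map_bar, map_bar, h2]

/-- an automorphism fixing `c` maps `d` to `d` or `q / d` -/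
lemma Four.img {q : ℕ} (hq : 1 ≤ q) {h : ℤ[X]} (hh : h ∈ FO q) {c d : Qb} (H : Four q h c d)
    {σ : Qb ≃ₐ[ℚ] Qb} (h1 : σ c = c ∨ σ c = (q : Qb) / c) : σ d = d ∨ σ d = (q : Qb) / d := by
  obtain ⟨-, h4, h5, -, -⟩ := t_OMB h.natDegree q h hq hh.2.1.1.1 rfl
  have hd' := h5 d H.2.1 σ
  have hcc : σ ((q : Qb) / c) = (q : Qb) / σ c := map_bar q σ c
  rcases H.2.2.2.2 _ hd' with h | h | h | h
  · exfalso
    rcases h1 with h1 | h1
    · exact H.2.2.1 (σ.injective (h.trans h1.symm))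
    · rw [h1, bar_bar hq H.1] at hcc
      exact H.2.2.2.1 (σ.injective (h.trans hcc.symm))
  · exfalso
    rcases h1 with h1 | h1
    · rw [h1] at hcc
      exact H.2.2.2.1 (σ.injective (h.trans hcc.symm))
    · exact H.2.2.1 (σ.injective (h.trans h1.symm))
  · exact Or.inl h
  · exact Or.inr h

end RFX

open RFX in
/-- a surface in `Sel q` has no partner with the same splitting field -/
theorem surf {q : ℕ} (hq : IsPrimePow q) {h h' : ℤ[X]} (hh : h ∈ Sel q) (hh' : h' ∈ FO q)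
    (hd : h.natDegree = 2) (hd' : h'.natDegree = 2)
    (hN : adjoin ℚ (Om q h) = adjoin ℚ (Om q h')) : TJ3.GIso q h h' := by
  classical
  have hq1 : 1 ≤ q := hq.pos
  have hF : h ∈ FO q := hh.1
  obtain ⟨-, o2, o3, -, o5⟩ := t_OMB h.natDegree q h hq1 hF.2.1.1.1 rfl
  obtain ⟨o6, -⟩ := o5 hF.2.2.1
  obtain ⟨-, p2, p3, -, p5⟩ := t_OMB h'.natDegree q h' hq1 hh'.2.1.1.1 rfl
  obtain ⟨p6, -⟩ := p5 hh'.2.2.1
  have hGAL := (TJ3.t_GAL (Om q h) (Om q h')).1 hN
  -- equality on `Om q h` and on `Om q h'`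
  have heq : ∀ σ τ : Qb ≃ₐ[ℚ] Qb, (∀ x ∈ Om q h, σ x = τ x) ↔ ∀ x ∈ Om q h', σ x = τ x := by
    intro σ τ
    have h1 := hGAL (τ⁻¹ * σ)
    have h2 : ∀ x, (τ⁻¹ * σ) x = x ↔ σ x = τ x := by
      intro x
      rw [AlgEquiv.mul_apply]
      constructor
      · intro e
        calc σ x = τ (τ⁻¹ (σ x)) := (AlgEquiv.apply_symm_apply τ (σ x)).symm
          _ = τ x := by rw [e]
      · intro e
        rw [e]
        exact AlgEquiv.symm_apply_apply τ x
    simp only [h2] at h1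
    exact h1
  obtain ⟨a, ha, b, hb, hba, hba', hall⟩ := TJ3.E2_aux.four q hq1 h hF hd
  obtain ⟨a', ha', b', hb', hab, hab', hall'⟩ := TJ3.E2_aux.four q hq1 h' hh' hd'
  have H : Four q h a b := ⟨ha, hb, hba, hba', hall⟩
  have H' : Four q h' a' b' := ⟨ha', hb', hab, hab', hall'⟩
  -- the flip of `b'`
  obtain ⟨f, hfb, hfx⟩ := (t_FULC q h' hq1 hh'.2.1.1.1 hh'.2.2).2.1 b' hb'
  have hfa : f a' = a' := hfx a' ha' hab.symm (by
    intro e
    apply hab'
    rw [e, bar_bar hq1 hb'])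
  -- automorphisms fixing `a'`
  have K1 : ∀ σ : Qb ≃ₐ[ℚ] Qb, σ a' = a' →
      (∀ x ∈ Om q h, σ x = x) ∨ ∀ x ∈ Om q h, σ x = f x := by
    intro σ hσ
    rcases H'.img hq1 hh' (Or.inl hσ) with h1 | h1
    · left
      exact (heq σ 1).2 (H'.ext hσ h1)
    · right
      exact (heq σ f).2 (H'.ext (hσ.trans hfa.symm) (h1.trans hfb.symm))
  have K2 : ∀ x ∈ Om q h, f (f x) = x := by
    refine (heq (f * f) 1).2 (H'.ext ?_ ?_)
    · rw [AlgEquiv.mul_apply, hfa, hfa]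
      rfl
    · rw [AlgEquiv.mul_apply, hfb, map_bar, hfb, bar_bar hq1 hb']
      rfl
  have K3 : ¬ ∀ x ∈ Om q h, f x = x := by
    intro h1
    have h2 := (heq f 1).1 h1 b' hb'
    rw [hfb] at h2
    exact p6 b' hb' h2.symm
  have K4 : ¬ ∀ x ∈ Om q h, f x = (q : Qb) / x := by
    intro h1
    obtain ⟨σ, hσ⟩ := (t_FULC q h' hq1 hh'.2.1.1.1 hh'.2.2).1 a' ha' b' hb'
    have h2 : ∀ x ∈ Om q h, (σ * f) x = (f * σ) x := by
      intro x hx
      rw [AlgEquiv.mul_apply, AlgEquiv.mul_apply, h1 x hx, h1 (σ x) (o3 x hx σ), map_bar]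
    have h3 := (heq (σ * f) (f * σ)).1 h2 a' ha'
    rw [AlgEquiv.mul_apply, AlgEquiv.mul_apply, hfa, hσ, hfb] at h3
    exact p6 b' hb' h3
  -- flip type: the same field
  have C1 : ∀ c d : Qb, Four q h c d → f c = c → TJ3.GIso q h h' := by
    intro c d Hc hfc
    have hfd : f d = (q : Qb) / d := by
      rcases Hc.img hq1 hF (Or.inl hfc) with h1 | h1
      · exact absurd (Hc.ext (τ := 1) hfc h1) K3
      · exact h1
    have h1 : ∀ σ : Qb ≃ₐ[ℚ] Qb, σ a' = a' → σ c = c := by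
      intro σ hσ
      rcases K1 σ hσ with h2 | h2
      · exact h2 c Hc.1
      · rw [h2 c Hc.1, hfc]
    have h2 : ∀ σ : Qb ≃ₐ[ℚ] Qb, σ c = c → σ a' = a' := by
      intro σ hσ
      rcases Hc.img hq1 hF (Or.inl hσ) with h3 | h3
      · exact (heq σ 1).1 (Hc.ext hσ h3) a' ha'
      · rw [(heq σ f).1 (Hc.ext (hσ.trans hfc.symm) (h3.trans hfd.symm)) a' ha', hfa]
    have h3 : ℚ⟮c⟯ = ℚ⟮a'⟯ := by
      apply le_antisymm
      · rw [IntermediateField.adjoin_simple_le_iff]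
        exact t_STAB a' c h1
      · rw [IntermediateField.adjoin_simple_le_iff]
        exact t_STAB c a' h2
    obtain ⟨-, -, g3, -, -, -, g7⟩ := TJ3.t_GIS q hq
    rcases hh.2.1 h' hh' c Hc.1 a' ha' h3 with h4 | h4
    · rw [h4]
      exact g3 h hF
    · rw [h4]
      exact (g7 h hF).1
  -- swap type: the reflex field
  have C2 : ∀ c d : Qb, Four q h c d → f c = d → False := by
    intro c d Hc hfc
    have hfd : f d = c := by rw [← hfc, K2 c Hc.1]
    let w : Qb → ℤ := fun x => if x = c ∨ x = d then 1 else -1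
    have n1 : (q : Qb) / c ≠ c := fun e => o6 c Hc.1 e.symm
    have n2 : (q : Qb) / c ≠ d := fun e => Hc.2.2.2.1 e.symm
    have n3 : (q : Qb) / d ≠ c := by
      intro e
      exact (Hc.symm hq1).2.2.2.1 e.symm
    have n4 : (q : Qb) / d ≠ d := fun e => o6 d Hc.2.1 e.symm
    have w1 : w c = 1 := if_pos (Or.inl rfl)
    have w2 : w d = 1 := if_pos (Or.inr rfl)
    have w3 : w ((q : Qb) / c) = -1 := if_neg (not_or.2 ⟨n1, n2⟩)
    have w4 : w ((q : Qb) / d) = -1 := if_neg (not_or.2 ⟨n3, n4⟩)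
    have hodd : ∀ x ∈ Om q h, w ((q : Qb) / x) = - w x := by
      intro x hx
      rcases Hc.2.2.2.2 x hx with rfl | rfl | rfl | rfl
      · rw [w1, w3]
      · rw [bar_bar hq1 Hc.1, w1, w3, neg_neg]
      · rw [w2, w4]
      · rw [bar_bar hq1 Hc.2.1, w2, w4, neg_neg]
    have hwf : ∀ x ∈ Om q h, w (f x) = w x := by
      intro x hx
      rcases Hc.2.2.2.2 x hx with rfl | rfl | rfl | rfl
      · rw [hfc, w1, w2]
      · rw [map_bar, hfc, w3, w4]
      · rw [hfd, w1, w2]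
      · rw [map_bar, hfd, w3, w4]
    have hfix : ∀ σ : Qb ≃ₐ[ℚ] Qb, σ a' = a' → ∀ x ∈ Om q h, w (σ x) = w x := by
      intro σ hσ x hx
      rcases K1 σ hσ with h2 | h2
      · rw [h2 x hx]
      · rw [h2 x hx, hwf x hx]
    obtain ⟨κ, hκ⟩ := TJ3.E2_aux.conj q hq1
    have habs : ∀ x, |w x| = 1 := by
      intro x
      simp only [w]
      split_ifs <;> norm_num
    have hsq := t_REF t_STAB t_OMB t_FULC t_DEL q h' h a' w hq1 hh' hF hd' hd ha' hodd
      (by
        intro x _ h0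
        have := habs x
        rw [h0] at this
        norm_num at this)
      (fun x _ y _ => by rw [habs, habs]) hfix (by
        intro σ hσ x hx
        have h1 : (κ * σ) a' = a' := by
          rw [AlgEquiv.mul_apply, hσ, map_bar, hκ h' hh' a' ha', bar_bar hq1 ha']
        have h2 := hfix (κ * σ) h1 x hx
        rw [AlgEquiv.mul_apply, hκ h hF (σ x) (o3 x hx σ), hodd (σ x) (o3 x hx σ)] at h2
        rw [← h2, neg_neg])
    exact hh.2.2 hd h' hh' hd' hsq
  rcases H.2.2.2.2 (f a) (o3 a ha f) with h1 | h1 | h1 | h1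
  · exact C1 a b H h1
  · rcases H.img hq1 hF (Or.inr h1) with h2 | h2
    · exact C1 b a (H.symm hq1) h2
    · exfalso
      refine K4 fun x hx => ?_
      rcases H.2.2.2.2 x hx with rfl | rfl | rfl | rfl
      · exact h1
      · rw [map_bar, h1]
      · exact h2
      · rw [map_bar, h2]
  · exact (C2 a b H h1).elim
  · exact (C2 a ((q : Qb) / b) (H.bar hq1 hF) h1).elim

end

end Pool.Agent.WAE
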