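import Pool.Agent.WAE.Defs
import Pool.Agent.WAV.Stmts

/-!
# Statements of the modules of block WAE (MP_cb388a_ag, helper51)

Aim: `L ^ n (X)` for all `X` whose motive is generated by `T`, all Artin motives, `h¹` of ALL elliptic
curves, of ALL supersingular abelian varieties, and of the ordinary abelian varieties in `Sel1 q`
(full Galois group, determined up to geometric isogeny by the CM field).  Module `X`: theorem
`t_X : S_X` in `Pool/Agent/WAE/X.lean`.  Everything of `Pool/Agent/TJ2` (`t_OMB`, `t_FULC`, `t_EMB`,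
`t_STAB`, `t_SING`, `t_ORB`, `t_PHI`, `t_WEI t_OMB`, `t_DXY`, `t_KEY_all`, `t_ALG`, `t_COM`, `t_MOV`,
`t_WRD`, `PLZ_*`, `MAI_*`) and of `Pool/Agent/WAV` (`FAC_*`, `SSM_*`, `Fac_dom`, `Ssm_dom`,
`ssm_mult`, `fac_twist`, `t_TSX`) can be used.
-/

open CategoryTheory MonoidalCategory BraidedCategory Limits Polynomial IntermediateField

universe w v u

namespace Pool.Agent.WAE

open Pool.Agent.TJ2 Pool.Agent.WAV

noncomputable section

/-! ## Arithmetic -/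

/-- FL1. All ordinary linear `h` are full.  `h = X - t`, `p ∤ t`, `|t| ≤ 2√q`; `t ^ 2 ≠ 4 q` (otherwise
`p ∣ t`), so `t ^ 2 < 4 q`, `x ^ 2 - t x + q` has no real, hence no rational root, so it is irreducible and
is the minimal polynomial of both elements `a`, `q / a` of `Om q h`; they are different; an
automorphism exchanging them: `isConjRoot_iff_exists_algEquiv`. -/
def S_FL1 : Prop := ∀ q : ℕ, IsPrimePow q → Ord 1 q ⊆ FO q

/-- EC1. Two ordinary elliptic curves with the same CM field are isogenous over the extension of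
degree 12.  `t = a + q / a`, `t' = a' + q / a'` integers prime to `p`.  There is `σ` with `σ a = q / a`, and then
`σ a' = q / a'` (if `σ a' = a'` then `σ` fixes `ℚ(a') = ℚ(a)`).  For every `τ`: `τ` fixes `a`, `a'` or maps them to
`q / a`, `q / a'` (as `a' ∈ ℚ(a)`).  So `A = a a' + (q/a)(q/a')` and `B = a (q/a') + (q/a) a'` are fixed by all `τ`,
and integral, so integers; `A + B = t t'` is prime to `p`, `A B = q (t ^ 2 + t' ^ 2 - 4 q)`; so `p` does not divide both,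
and `q` divides `A` or `B` (`IsPrimePow`, coprimality).  If `A = q c`: `x = a a' / q` satisfies `x ^ 2 - c x + 1 = 0`
(`x + 1/x = A / q`), and `|x| = 1` in a complex embedding (`S_EMB`) so `|c| ≤ 2`, `c ∈ {0, ±1, ±2}`, hence
`x ^ 12 = 1`: `a ^ 12 = (q / a') ^ 12`.  If `B = q c`, the same with `x = a (q/a') / q = a / a'`. -/
def S_EC1 : Prop :=
  ∀ (q : ℕ) (h h' : ℤ[X]) (a a' : Qb), IsPrimePow q → h ∈ FO q → h' ∈ FO q →
    h.natDegree = 1 → h'.natDegree = 1 → a ∈ Om q h → a' ∈ Om q h' → ℚ⟮a⟯ = ℚ⟮a'⟯ →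
    a ^ 12 = a' ^ 12 ∨ a ^ 12 = ((q : Qb) / a') ^ 12

/-- SUB. `Sel q ⊆ Sel1 q` (`h' = h` or `h' = tw h`: `N = 2`, `(-a) ^ 2 = a ^ 2`, and `-a ∈ Om q (tw h)`, see
`Pool/Agent/TJ2/REP.lean`), and `Ord 1 q ⊆ Sel1 q` (`S_FL1`, `S_EC1`; the degrees agree by `t_PHI`). -/
def S_SUB : Prop :=
  ∀ q : ℕ, IsPrimePow q → Sel q ⊆ Sel1 q ∧ Ord 1 q ⊆ Sel1 q

/-- RPX. Representatives for geometric isogeny.  `GI q` is an equivalence relation on `FO q` (transitive: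
if `a ^ N = a' ^ N`, `b' ^ M = b'' ^ M` with `a'`, `b'` in `Om q h'`, `σ a' = b'`, then `(σ a) ^ (N M) = b'' ^ (N M)`).  Choose
one element of each class meeting `Sel1 q`. -/
def S_RPX : Prop :=
  ∀ q : ℕ, 1 ≤ q → ∃ S₀ : Set ℤ[X], S₀ ⊆ Sel1 q ∧ (∀ h ∈ Sel1 q, ∃ h₀ ∈ S₀, GI q h₀ h) ∧
    ∀ h ∈ S₀, ∀ h' ∈ S₀, ∀ a ∈ Om q h, ∀ a' ∈ Om q h', ℚ⟮a⟯ = ℚ⟮a'⟯ → h = h'

/-- GRX. The abstract relation lemma `S_GRP` with the relation in the third case.  Proof as `t_GRP` (file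
`Pool/Agent/TJ2/GRP.lean`; copy it): for `a`, `b` in the minimal support, `card (Ω a) ≤ card (Ω b)`, and
the relation `d^(a)` which is single at `a`, either the second alternative holds, or
`card (Ω a) = card (Ω b) = 4` and `d^(a)` is flat at `b` (`|.|` constant, not zero).  If the second
alternative fails: all `Ω a`, `a` in the support, have 4 elements, and `d^(a)` is flat at all `b ≠ a`.
If there were three indices `i`, `j`, `l`: `d^(i)` and `d^(j)` are flat at `l`; there are `s` (the identity or the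
flip of one pair of `Ω l`) and integers `A, B ≠ 0` such that `A (s d^(i)) - B d^(j)` vanishes at `l`, hence is zero
by minimality; but at `i` the first is single and the second is flat, contradiction.  So the support
is `{i, j}` and `d^(i)` is the relation of the third alternative. -/
def S_GRX : Prop :=
  ∀ (Γ ι : Type) [Group Γ] [Fintype ι] [DecidableEq ι] (Ω : ι → Type) [∀ i, Fintype (Ω i)]
    [∀ i, DecidableEq (Ω i)] [∀ i, MulAction Γ (Ω i)] (bar : ∀ i, Ω i → Ω i)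
    (R : AddSubgroup (∀ i, Ω i → ℤ)),
    (∀ i x, bar i (bar i x) = x) → (∀ i x, bar i x ≠ x) →
    (∀ i (s : Γ) x, bar i (s • x) = s • bar i x) →
    (∀ i (τ : Equiv.Perm (Ω i)), (∀ x, τ (bar i x) = bar i (τ x)) → ∃ s : Γ, ∀ x, s • x = τ x) →
    (∀ (s : Γ), ∀ d ∈ R, (fun i x => d i (s⁻¹ • x)) ∈ R) →
    (∃ d ∈ R, (∀ i x, d i (bar i x) = - d i x) ∧ d ≠ 0) →
    (∃ (i : ι) (x : Ω i) (c : ℤ), c ≠ 0 ∧
      Pi.single i (Pi.single x c - Pi.single (bar i x) c) ∈ R) ∨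
    (∃ (i j : ι) (x : Ω i) (y : Ω j), i ≠ j ∧ ∀ s : Γ, s • x = x ↔ s • y = y) ∨
    (∃ (i j : ι) (x : Ω i) (c : ℤ) (w : Ω j → ℤ), i ≠ j ∧ c ≠ 0 ∧ Fintype.card (Ω i) = 4 ∧
      Fintype.card (Ω j) = 4 ∧ (∀ y, w (bar j y) = - w y) ∧ w ≠ 0 ∧ (∀ y z, |w y| = |w z|) ∧
      (Pi.single i (Pi.single x c - Pi.single (bar i x) c) + Pi.single j w) ∈ R)

/-- VAL. Valuations of a relation.  `ρ` a ring homomorphism from the algebraic integers to a field of
characteristic `p ∣ q`; `s` a finite set of algebraic numbers `a` such that `a`, `q / a` are integral and exactly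
one of them is mapped to `0`.  If a power of `∏ a ^ (m a)` is a power `q ^ k`, then
`N * ∑ m a` over the `a` with `ρ a = 0` is `k`.  (The quotients `u / v` of algebraic integers with `ρ u, ρ v ≠ 0` form a
group, `q ^ t` is in it only for `t = 0`; for `ρ a = 0` write `a = q / (q / a)`.) -/
def S_VAL : Prop :=
  ∀ (q : ℕ) (k₀ : Type) [Field k₀] (ρ : integralClosure ℤ Qb →+* k₀), 1 ≤ q → (q : k₀) = 0 →
    ∀ (s : Finset Qb) (m : Qb → ℤ), (∀ a ∈ s, a ≠ 0 ∧ IsIntegral ℤ a ∧ IsIntegral ℤ ((q : Qb) / a) ∧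
      ∀ (h1 : a ∈ integralClosure ℤ Qb) (h2 : (q : Qb) / a ∈ integralClosure ℤ Qb),
        (ρ ⟨a, h1⟩ = 0 ↔ ρ ⟨(q : Qb) / a, h2⟩ ≠ 0)) →
    ∀ (N : ℕ) (k : ℤ), (∏ a ∈ s, a ^ m a) ^ N = (q : Qb) ^ k →
    ∀ (t : Finset Qb), t ⊆ s → (∀ a ∈ s, ∀ (h1 : a ∈ integralClosure ℤ Qb),
      (a ∈ t ↔ ρ ⟨a, h1⟩ = 0)) → (N : ℤ) * ∑ a ∈ t, m a = k

/-- ORR. There is a ring homomorphism `ρ` from the algebraic integers to a field in which `q = 0`, and for
every ordinary `h` and `a ∈ Om q h` exactly one of `ρ a`, `ρ (q / a)` is zero.  (Existence: `S_FROB` for the prime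
`p = q.minFac` and the empty set, or a maximal ideal over `p`.  `ρ a ρ (q/a) = ρ q = 0`; if both are zero then `ρ b = 0`
for the root `b = a + q / a` of `h`, so `h.coeff 0 = 0` in `k₀`, `p ∣ h.coeff 0`.) -/
def S_ORR : Prop :=
  ∀ q : ℕ, IsPrimePow q → ∃ (k₀ : Type) (_ : Field k₀) (ρ : integralClosure ℤ Qb →+* k₀),
    (q : k₀) = 0 ∧ ∀ (g : ℕ), ∀ h ∈ Ord g q, ∀ a ∈ Om q h, ∀ (h1 : a ∈ integralClosure ℤ Qb)
      (h2 : (q : Qb) / a ∈ integralClosure ℤ Qb), (ρ ⟨a, h1⟩ = 0 ↔ ρ ⟨(q : Qb) / a, h2⟩ ≠ 0)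

/-- FLT. The third case of `S_GRX` does not occur.  `Om q h' = {y, q/y, z, q/z}`; the exponents are
`c` at `a`, `-c` at `q/a`, `w` on `Om q h'`.  `k = 0` (absolute values: all elements have absolute value `√q` in a
complex embedding, the sum of all exponents is `0`).  By `S_VAL` (`S_ORR`), with `ε = ±1`:
`± c + ε₁ w y + ε₂ w z = 0`.  As `|w y| = |w z|` and `c ≠ 0`: `ε₁ w y = ε₂ w z`.  Let `σ` exchange `z`, `q / z` and fix
`y`, `q / y` (`h'` full).  Apply `σ` to the relation: the relation with `σ a` in place of `a` and `- w z` in place of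
`w z`; `S_VAL` gives `± c + ε₁ w y - ε₂ w z = 0`, so `c = 0`. -/
def S_FLT : Prop :=
  ∀ (q : ℕ) (h h' : ℤ[X]) (a : Qb) (c : ℤ) (w : Qb → ℤ) (N : ℕ) (k : ℤ), IsPrimePow q →
    h ∈ FO q → h' ∈ FO q → h ≠ h' → h'.natDegree = 2 → a ∈ Om q h → c ≠ 0 → 1 ≤ N →
    Disjoint (Om q h) (Om q h') →
    (∀ x ∈ Om q h', w ((q : Qb) / x) = - w x) → (∀ x ∈ Om q h', ∀ y ∈ Om q h', |w x| = |w y|) →
    ∀ (s : Finset Qb), (∀ x, x ∈ s ↔ x ∈ Om q h') →
      (a ^ c * ((q : Qb) / a) ^ (-c) * ∏ x ∈ s, x ^ w x) ^ N = (q : Qb) ^ k → False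

open Classical in
/-- INX. Independence for a set of representatives.  Proof as `t_IND` (file `Pool/Agent/TJ2/IND.lean`, copy
it), with `S_GRX` in place of `S_GRP` (so the abstract form `IND_abs` has the relation in its third case)
and `S_FLT` in place of `S_REF` (`Om q h`, `Om q h'` are disjoint if `h ≠ h'` are in `S₀`: `a` in both gives
`ℚ(a) = ℚ(a)`). -/
def S_INX : Prop :=
  ∀ (q : ℕ), IsPrimePow q → ∀ S₀ : Set ℤ[X], S₀ ⊆ FO q →
    (∀ h ∈ S₀, ∀ h' ∈ S₀, ∀ a ∈ Om q h, ∀ a' ∈ Om q h', ℚ⟮a⟯ = ℚ⟮a'⟯ → h = h') →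
    ∀ (l : List (ℤ[X] × Qb)), (∀ x ∈ l, x.1 ∈ S₀ ∧ x.2 ∈ Om q x.1) →
    ∀ (N : ℕ) (k : ℤ), 1 ≤ N → (l.map Prod.snd).prod ^ N = (q : Qb) ^ k →
    ∀ (h : ℤ[X]) (a : Qb), l.count (h, a) = l.count (h, (q : Qb) / a)

/-! ## The category -/

section Cat

variable {C : Type u} [Category.{v} C] [Preadditive C] [Linear ℚ C] [MonoidalCategory C]
  [SymmetricCategory C] [MonoidalPreadditive C] [MonoidalLinear ℚ C] [RightRigidCategory C]

/-- `F` on the last factor `U` of `Zo M U l` -/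
def opU (F : 𝟭 C ⟶ 𝟭 C) (M : ℤ[X] → C) (U : C) : (l : List ℤ[X]) → (Zo M U l ⟶ Zo M U l)
  | [] => F.app U
  | h :: l => M h ◁ opU F M U l

/-- objects isomorphic to `(T ^ a ⊗ T' ^ b) ⊗ (L N ⊗ y)`, `y` the unit or supersingular -/
def AVL.UN {W : MotP.Frobenius C} {q : ℕ} {S : Set ℤ[X]} (D : AVL W q S) (U : C) : Prop :=
  ∃ (a b N : ℕ) (y : C), 1 ≤ N ∧ (y = 𝟙_ C ∨ D.Ss y) ∧
    Nonempty (U ≅ (Mot.T D.T a ⊗ Mot.T D.T' b) ⊗ (D.L N ⊗ y))

/-- objects isomorphic to words `Zo M U l`, `U` as above, `l` in `S₀` -/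
def AVL.WN {W : MotP.Frobenius C} {q : ℕ} {S : Set ℤ[X]} (D : AVL W q S) (S₀ : Set ℤ[X])
    (Y : C) : Prop :=
  ∃ (U : C) (l : List ℤ[X]), D.UN U ∧ (∀ h ∈ l, h ∈ S₀) ∧ Nonempty (Y ≅ Zo D.M U l)

/-- a power of Frobenius is a power of `q` -/
def Pq (W : MotP.Frobenius C) (q : ℕ) (U : C) : Prop :=
  ∃ N : ℕ, 1 ≤ N ∧ ∃ k : ℤ, Mot.component W.F U ^ N = (q : ℚ) ^ k • 1

end Cat

/-- KEX. The key identity: copy of `t_KEY`, `t_KEY_all` (file `Pool/Agent/TJ2/KEY.lean`) with `AVL` in place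
of `AV` (only the last theorem changes). -/
def S_KEX : Prop :=
  ∀ (C : Type u) [Category.{v} C] [Preadditive C] [Linear ℚ C] [MonoidalCategory C]
    [SymmetricCategory C] [MonoidalPreadditive C] [MonoidalLinear ℚ C] [RightRigidCategory C]
    (W : MotP.Frobenius C) (q : ℕ) (S : Set ℤ[X]) (D : AVL W q S) (h : ℤ[X]) (E : ℕ → ℕ → ℚ),
    1 ≤ q → h ∈ S → 1 ≤ h.natDegree → h.Monic → Full q h →
    (∀ a ∈ Om q h, ∀ b ∈ Om q h, b = (q : Qb) / a → ev2 (2 * h.natDegree) E a b = 1) →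
    (∀ a ∈ Om q h, ∀ b ∈ Om q h, b ≠ (q : Qb) / a → ev2 (2 * h.natDegree) E a b = 0) →
    ∃ (n : ℕ) (s : Fin n → (D.T ⟶ D.M h ⊗ D.M h)) (r : Fin n → (D.M h ⊗ D.M h ⟶ D.T)),
      ev2 (2 * h.natDegree) E (opL W.F (D.M h)) (opR W.F (D.M h)) = ∑ k, r k ≫ s k

/-- DOX. `Dom P` is transitive and stable under tensor products and duals if `P` is stable up to `Dom`
(see `Pool/Agent/TJ2/DOM.lean`). -/
def S_DOX : Prop :=
  ∀ (C : Type u) [Category.{v} C] [Preadditive C] [Linear ℚ C] [MonoidalCategory C]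
    [SymmetricCategory C] [MonoidalPreadditive C] [MonoidalLinear ℚ C] [RightRigidCategory C]
    (P : C → Prop),
    (∀ Z, Dom (Dom P) Z → Dom P Z) ∧
    ((∀ X Y, P X → P Y → Dom P (X ⊗ Y)) → ∀ X Y, Dom P X → Dom P Y → Dom P (X ⊗ Y)) ∧
    ∀ (P₀ : C → Prop), Dom P (𝟙_ C) → (∀ X Y, P X → P Y → Dom P (X ⊗ Y)) →
      (∀ X, P X → Dom P Xᘁ) → (∀ Y, P₀ Y → Dom P Y) → ∀ Z, Gen P₀ Z → Dom P Z

/-- UN1. The objects `U` of `UN`: (1) a power of Frobenius is a power of `q`; (2) `Fac W U`: write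
`U = V ⊗ (L N ⊗ y)`, `F_V = q ^ (a - b)` (`MON_frob_T`, `MON_frob_T'` in `Pool/Agent/TJ2/MON.lean` for the powers); if
`y = 1`: `x = x F_U ^ N = q ^ (N (a - b)) x`, so `x = 0` or `a = b`, `V ≅ 1`, `U ≅ L N`, and
`N x = x ∑ F ^ i` factors through the unit (`sumL`); if `y` is supersingular: `F_U ^ (2 N N')` is an odd power of
`q ^ (N N')`, so it is not `1` and `x = 0`; (3) `T ⊗ U` is in `UN`; (4) `T`, `L N`, `y` supersingular, and the unit are
in `UN` (`L 1 ≅ 1`). -/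
def S_UN1 : Prop :=
  ∀ (C : Type u) [Category.{v} C] [Preadditive C] [Linear ℚ C] [MonoidalCategory C]
    [SymmetricCategory C] [MonoidalPreadditive C] [MonoidalLinear ℚ C] [RightRigidCategory C]
    (W : MotP.Frobenius C) (q : ℕ) (S : Set ℤ[X]) (D : AVL W q S), 2 ≤ q →
    (∀ U, D.UN U → Pq W q U) ∧ (∀ U, D.UN U → Fac W U) ∧ (∀ U, D.UN U → D.UN (D.T ⊗ U)) ∧
    D.UN (𝟙_ C) ∧ D.UN D.T ∧ (∀ N, 1 ≤ N → D.UN (D.L N)) ∧ ∀ y, D.Ss y → D.UN y

/-- UN2. Tensor products and duals of objects of `UN`.  `U ⊗ U'` is isomorphic to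
`(T ^ (a+a') ⊗ T' ^ (b+b')) ⊗ ((L N ⊗ L N') ⊗ (y ⊗ y'))`; `L N ⊗ L N'` is a summand of copies of `L (N N')` (`tensL`);
if `y`, `y'` are supersingular, `y ⊗ y'` is a summand of copies of `L M ⊗ T` (`tensS`).  Duals: `L N` is self-dual,
`yᘁ ≅ y ⊗ T'` (`polS`, `unitT`), `(T ^ a ⊗ T' ^ b)ᘁ ≅ T ^ b ⊗ T' ^ a` (as in `Pool/Agent/TJ2/MON.lean`, by the class in the
skeleton, or directly). -/
def S_UN2 : Prop :=
  ∀ (C : Type u) [Category.{v} C] [Preadditive C] [Linear ℚ C] [MonoidalCategory C]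
    [SymmetricCategory C] [MonoidalPreadditive C] [MonoidalLinear ℚ C] [RightRigidCategory C]
    (W : MotP.Frobenius C) (q : ℕ) (S : Set ℤ[X]) (D : AVL W q S), 2 ≤ q →
    (∀ U V, D.UN U → D.UN V → Dom D.UN (U ⊗ V)) ∧ ∀ U, D.UN U → D.UN Uᘁ

/-- INW. Generated objects are direct summands of finite direct sums of words (`S_DOX`, `S_UN1`, `S_UN2`,
`t_WRD`; as `t_INZ`).  `M h`, `h ∈ S`: there are `h₀ ∈ S₀` and `N` with `M h` a summand of copies of `L N ⊗ M h₀`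
(`isog`), which is a word. -/
def S_INW : Prop :=
  ∀ (C : Type u) [Category.{v} C] [Preadditive C] [Linear ℚ C] [MonoidalCategory C]
    [SymmetricCategory C] [MonoidalPreadditive C] [MonoidalLinear ℚ C] [RightRigidCategory C]
    (W : MotP.Frobenius C) (q : ℕ) (S S₀ : Set ℤ[X]) (D : AVL W q S), 2 ≤ q → S₀ ⊆ S →
    (∀ h ∈ S, ∃ h₀ ∈ S₀, GI q h₀ h) → ∀ Z, Gen D.Obj Z → Dom (D.WN S₀) Z

/-- FAX. As `t_FAC` (file `Pool/Agent/WAV/FAC.lean`), with a class `P` of objects `U` in place of the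
monomials: add the operator `opU` (killed by `X ^ N - q ^ k`, squarefree) to the operators `opZ i`:
`FAC_alg` with `m = l.length + 1` for `h :: l` and `φ` = `Fin.snoc` of the operators `opZ i`, `i ≤ l.length`, and
`opU`, `c = 1`; `F_Z` is the product of all of them. The independence condition: `∏ α * γ = 1`, `γ ^ N = q ^ k`, so
`(∏ α) ^ N = q ^ (-k)`. -/
def S_FAX : Prop :=
  ∀ (C : Type u) [Category.{v} C] [Preadditive C] [Linear ℚ C] [MonoidalCategory C]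
    [SymmetricCategory C] [MonoidalPreadditive C] [MonoidalLinear ℚ C] [RightRigidCategory C]
    (W : MotP.Frobenius C) (q : ℕ) (S S₀ : Set ℤ[X]) (D : AVL W q S) (P : C → Prop), 2 ≤ q →
    S ⊆ FO q → S₀ ⊆ S →
    (∀ (l : List (ℤ[X] × Qb)), (∀ x ∈ l, x.1 ∈ S₀ ∧ x.2 ∈ Om q x.1) →
      ∀ (N : ℕ) (k : ℤ), 1 ≤ N → (l.map Prod.snd).prod ^ N = (q : Qb) ^ k →
        ∀ x ∈ l, (x.1, (q : Qb) / x.2) ∈ l) →
    (∀ U, P U → Pq W q U) → (∀ U, P U → Fac W U) → (∀ U, P U → P (D.T ⊗ U)) →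
    ∀ U, P U → ∀ l : List ℤ[X], (∀ h ∈ l, h ∈ S₀) → Fac W (Zo D.M U l)

/-- SSX. As `t_SSM` (file `Pool/Agent/WAV/SSM.lean`): the Frobenius of `Zo M U l` is killed by a squarefree
polynomial (`X ^ N - q ^ k` for `U`). -/
def S_SSX : Prop :=
  ∀ (C : Type u) [Category.{v} C] [Preadditive C] [Linear ℚ C] [MonoidalCategory C]
    [SymmetricCategory C] [MonoidalPreadditive C] [MonoidalLinear ℚ C] [RightRigidCategory C]
    (W : MotP.Frobenius C) (q : ℕ) (S : Set ℤ[X]) (D : AVL W q S), 2 ≤ q → S ⊆ FO q →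
    ∀ U, Pq W q U → ∀ l : List ℤ[X], (∀ h ∈ l, h ∈ S) → Ssm W (Zo D.M U l)

/-- PRX. As `t_PRJ` (file `Pool/Agent/WAV/PRJ.lean`). -/
def S_PRX : Prop :=
  ∀ (C : Type u) [Category.{v} C] [Preadditive C] [Linear ℚ C] [MonoidalCategory C]
    [SymmetricCategory C] [MonoidalPreadditive C] [MonoidalLinear ℚ C] [RightRigidCategory C]
    (W : MotP.Frobenius C) (q : ℕ) (D : AVL W q (Sel1 q)), IsPrimePow q →
    ∀ (Y : C), Gen D.Obj Y → ∀ n : ℕ, ∃ Q : ℚ[X], Q.eval ((q : ℚ) ^ n) ≠ 0 ∧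
      aeval (Mot.component W.F Y) ((X - Polynomial.C ((q : ℚ) ^ n)) * Q) = 0 ∧
      ((aeval (Mot.component W.F Y) Q : End Y) : Y ⟶ Y) ∈ thru (Mot.T D.T n) Y Y

/-- NTX. No numerically trivial sections: `f : 1 ⟶ Z` is fixed by `F_Z`; `Q (1) f = f Q (F)` is a sum of
composites `(f r) s` with `r : Z ⟶ 1` (`S_PRX` for `n = 0`, `Mot.T T 0 = 1`), so it is zero. -/
def S_NTX : Prop :=
  ∀ (C : Type u) [Category.{v} C] [Preadditive C] [Linear ℚ C] [MonoidalCategory C]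
    [SymmetricCategory C] [MonoidalPreadditive C] [MonoidalLinear ℚ C] [RightRigidCategory C]
    (W : MotP.Frobenius C) (q : ℕ) (D : AVL W q (Sel1 q)), IsPrimePow q →
    ∀ (Z : C), Gen D.Obj Z → NoNt Z

end

end Pool.Agent.WAE
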